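import Mathlib
import Pool.Agent.TH779.Ord.Count

/-! Counting the order patterns, with levels: `(k!)² ≤ |P| C ^ k`. -/

set_option autoImplicit false

namespace Pool.Agent.Helper274_RO

open Finset
open Pool.Agent.TH779.Ord (exists_rank perm_unique)

/-- the rank functions that respect the levels (level zero is the highest) -/
def RK {n : ℕ} (lv : Fin n → ℕ) : Finset (Equiv.Perm (Fin n)) :=
  univ.filter (fun e => ∀ l l', lv l < lv l' → e l' < e l)

/-- the permutations that preserve `lam` -/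
def St {k : ℕ} (lam : Fin k → ℕ) : Finset (Equiv.Perm (Fin k)) :=
  univ.filter (fun ρ => ∀ i, lam (ρ i) = lam i)

theorem RK_nonempty {n : ℕ} (lv : Fin n → ℕ) (V : ℕ) (hV : ∀ l, lv l ≤ V) : (RK lv).Nonempty := by
  rcases Nat.eq_zero_or_pos n with h0 | h0
  · subst h0
    exact ⟨1, mem_filter.2 ⟨mem_univ _, fun l => l.elim0⟩⟩
  have hinj : Function.Injective (fun l : Fin n => (l : ℕ) + n * (V - lv l)) := by
    intro l l' h
    have h1 := congrArg (fun x => x % n) h
    simp only [Nat.add_mul_mod_self_left] at h1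
    rw [Nat.mod_eq_of_lt l.2, Nat.mod_eq_of_lt l'.2] at h1
    exact Fin.ext h1
  obtain ⟨π, hπ⟩ := exists_rank _ hinj
  refine ⟨π, mem_filter.2 ⟨mem_univ _, ?_⟩⟩
  intro l l' h
  rw [hπ]
  have h1 := hV l'
  have h2 : V - lv l' + 1 ≤ V - lv l := by omega
  have h3 : n * (V - lv l' + 1) ≤ n * (V - lv l) := Nat.mul_le_mul_left _ h2
  have h4 := l'.2
  show (l' : ℕ) + n * (V - lv l') < (l : ℕ) + n * (V - lv l)
  rw [Nat.mul_add, Nat.mul_one] at h3
  omega

/-- rank functions with a given pattern at given places -/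
theorem pat_le {n k : ℕ} (lv : Fin n → ℕ) (y : Fin k ↪ Fin n) (τ : Equiv.Perm (Fin k)) :
    ((RK lv).filter (fun e => ∀ i j, e (y i) < e (y j) ↔ τ i < τ j)).card *
      (St (fun i => lv (y i))).card ≤ (RK lv).card := by
  classical
  rw [← card_product]
  apply card_le_card_of_injOn
    (fun x : Equiv.Perm (Fin n) × Equiv.Perm (Fin k) => x.1 * x.2.viaFintypeEmbedding y)
  · rintro ⟨e, ρ⟩ hx
    rw [mem_coe, mem_product, mem_filter] at hx
    obtain ⟨⟨he, _⟩, hρ⟩ := hx
    have he' : ∀ l l', lv l < lv l' → e l' < e l := (mem_filter.1 he).2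
    have hρ' : ∀ i, lv (y (ρ i)) = lv (y i) := (mem_filter.1 hρ).2
    have hl : ∀ l, lv (ρ.viaFintypeEmbedding y l) = lv l := by
      intro l
      by_cases h : l ∈ Set.range y
      · obtain ⟨i, rfl⟩ := h
        rw [Equiv.Perm.viaFintypeEmbedding_apply_image]
        exact hρ' i
      · rw [Equiv.Perm.viaFintypeEmbedding_apply_notMem_range _ _ h]
    refine mem_coe.2 (mem_filter.2 ⟨mem_univ _, ?_⟩)
    intro l l' h
    simp only [Equiv.Perm.coe_mul, Function.comp_apply]
    apply he'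
    rw [hl, hl]
    exact h
  · rintro ⟨σ, ρ⟩ hx ⟨σ', ρ'⟩ hx' h
    rw [mem_coe, mem_product, mem_filter] at hx hx'
    have hσ := hx.1.2
    have hσ' := hx'.1.2
    simp only at h hσ hσ'
    have h3 : ∀ i, σ (y (ρ i)) = σ' (y (ρ' i)) := by
      intro i
      have h4 := congrArg (fun e : Equiv.Perm (Fin n) => e (y i)) h
      simp only [Equiv.Perm.coe_mul, Function.comp_apply,
        Equiv.Perm.viaFintypeEmbedding_apply_image] at h4
      exact h4
    have h5 : ρ.trans τ = ρ'.trans τ := by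
      apply perm_unique
      intro i j
      simp only [Equiv.trans_apply]
      rw [← hσ, ← hσ', h3, h3]
    have h6 : ρ = ρ' := by
      ext i
      have := congrArg (fun e : Equiv.Perm (Fin k) => e i) h5
      simp only [Equiv.trans_apply] at this
      rw [τ.injective this]
    subst h6
    have h7 : σ = σ' := by
      exact mul_right_cancel h
    rw [h7]

/-- strictly monotone choices of places with given levels -/
theorem places_le {n k : ℕ} (lv : Fin n → ℕ) (lam : Fin k → ℕ) :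
    (univ.filter (fun y : Fin k → Fin n => StrictMono y ∧ ∀ i, lv (y i) = lam i)).card *
      (St lam).card ≤ ∏ i, (univ.filter (fun l : Fin n => lv l = lam i)).card := by
  classical
  rw [← Fintype.card_piFinset, ← card_product]
  apply card_le_card_of_injOn
    (fun x : (Fin k → Fin n) × Equiv.Perm (Fin k) => fun i => x.1 (x.2 i))
  · rintro ⟨y, ρ⟩ hx
    rw [mem_coe, mem_product, mem_filter] at hx
    obtain ⟨⟨_, _, hy⟩, hρ⟩ := hx
    have hρ' : ∀ i, lam (ρ i) = lam i := (mem_filter.1 hρ).2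
    rw [mem_coe, Fintype.mem_piFinset]
    intro i
    refine mem_filter.2 ⟨mem_univ _, ?_⟩
    show lv (y (ρ i)) = lam i
    rw [hy, hρ']
  · rintro ⟨y, ρ⟩ hx ⟨y', ρ'⟩ hx' h
    rw [mem_coe, mem_product, mem_filter] at hx hx'
    have hy : StrictMono y := hx.1.2.1
    have hy' : StrictMono y' := hx'.1.2.1
    have h1 : ∀ i, y (ρ i) = y' (ρ' i) := fun i => congrFun h i
    have h2 : Set.range y = Set.range y' := by
      ext z
      constructor
      · rintro ⟨i, rfl⟩
        exact ⟨ρ' (ρ.symm i), by rw [← h1, Equiv.apply_symm_apply]⟩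
      · rintro ⟨i, rfl⟩
        exact ⟨ρ (ρ'.symm i), by rw [h1, Equiv.apply_symm_apply]⟩
    have h3 : y = y' := (hy.range_inj hy').1 h2
    subst h3
    have h4 : ρ = ρ' := by
      ext i
      rw [hy.injective (h1 i)]
    rw [h4]

theorem stab_ge {k : ℕ} (lam : Fin k → ℕ) (L : Finset (Fin k → ℕ))
    (hL : ∀ ρ : Equiv.Perm (Fin k), (fun i => lam (ρ i)) ∈ L) :
    k.factorial ≤ (St lam).card * L.card := by
  classical
  have h1 : (univ : Finset (Equiv.Perm (Fin k))).card = k.factorial := by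
    rw [card_univ, Fintype.card_perm, Fintype.card_fin]
  rw [← h1]
  apply Finset.card_le_mul_card_image_of_maps_to (f := fun ρ : Equiv.Perm (Fin k) => fun i => lam (ρ i))
    (fun ρ _ => hL ρ)
  intro μ _
  by_cases hne : ((univ : Finset (Equiv.Perm (Fin k))).filter
      (fun ρ : Equiv.Perm (Fin k) => (fun i => lam (ρ i)) = μ)).Nonempty
  · obtain ⟨ρ₀, hρ₀⟩ := hne
    have h0 : (fun i => lam (ρ₀ i)) = μ := (mem_filter.1 hρ₀).2
    apply card_le_card_of_injOn (fun ρ : Equiv.Perm (Fin k) => ρ * ρ₀⁻¹)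
    · intro ρ hρ
      have h2 : (fun i => lam (ρ i)) = μ := (mem_filter.1 (mem_coe.1 hρ)).2
      refine mem_coe.2 (mem_filter.2 ⟨mem_univ _, ?_⟩)
      intro i
      have h3 : lam (ρ (ρ₀⁻¹ i)) = lam (ρ₀ (ρ₀⁻¹ i)) := by
        have := congrFun (h2.trans h0.symm) (ρ₀⁻¹ i)
        exact this
      simp only [Equiv.Perm.coe_mul, Function.comp_apply]
      rw [h3]
      simp
    · intro ρ _ ρ' _ h
      exact mul_right_cancel h
  · rw [not_nonempty_iff_eq_empty] at hne
    rw [hne, card_empty]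
    exact Nat.zero_le _

/-- the level vectors -/
def LV (k V m : ℕ) : Finset (Fin k → ℕ) :=
  (Fintype.piFinset (fun _ : Fin k => range (V + 1))).filter (fun lam => ∑ i, lam i ≤ m)

theorem LV_card (k V m : ℕ) : (LV k V m).card ≤ 2 ^ (m + k) := by
  classical
  have h1 : ((LV k V m).card : ℝ) ≤ 2 ^ m * ∑ lam ∈ Fintype.piFinset (fun _ : Fin k => range (V + 1)),
      ∏ i, ((1 : ℝ) / 2) ^ (lam i) := by
    rw [card_eq_sum_ones, mul_sum]
    push_cast
    unfold LV
    refine (sum_le_sum (g := fun lam : Fin k → ℕ => (2 : ℝ) ^ m * ∏ i, ((1 : ℝ) / 2) ^ (lam i)) ?_).trans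
      (sum_le_sum_of_subset_of_nonneg (filter_subset _ _) (fun lam _ _ => by positivity))
    intro lam hlam
    have h2 : ∑ i, lam i ≤ m := (mem_filter.1 hlam).2
    rw [prod_pow_eq_pow_sum, one_div, inv_pow, ← div_eq_mul_inv, le_div_iff₀ (by positivity), one_mul]
    exact pow_le_pow_right₀ (by norm_num) h2
  have h2 : ∑ lam ∈ Fintype.piFinset (fun _ : Fin k => range (V + 1)), ∏ i, ((1 : ℝ) / 2) ^ (lam i) ≤
      2 ^ k := by
    rw [← prod_univ_sum (fun _ : Fin k => range (V + 1)) (fun _ a => ((1 : ℝ) / 2) ^ a)]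
    rw [prod_const, card_univ, Fintype.card_fin]
    apply pow_le_pow_left₀ (sum_nonneg fun a _ => by positivity)
    have h3 : ∀ N : ℕ, ∑ a ∈ range N, ((1 : ℝ) / 2) ^ a ≤ 2 := by
      intro N
      have h4 : ∑ a ∈ range N, ((1 : ℝ) / 2) ^ a = 2 - 2 * (1 / 2) ^ N := by
        induction N with
        | zero => simp
        | succ N ih =>
          rw [sum_range_succ, ih, pow_succ]
          ring
      rw [h4]
      have : (0 : ℝ) ≤ (1 / 2) ^ N := by positivity
      linarith
    exact h3 _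
  have h3 : ((LV k V m).card : ℝ) ≤ 2 ^ (m + k) := by
    rw [pow_add]
    exact h1.trans (mul_le_mul_of_nonneg_left h2 (by positivity))
  exact_mod_cast h3

/-- counting -/
theorem many_patterns {n k : ℕ} (lv : Fin n → ℕ) (V T m : ℕ) (hV : ∀ l, lv l ≤ V)
    (hN : ∀ a, (univ.filter (fun l : Fin n => lv l = a)).card ≤ T * 2 ^ a)
    (P : Finset (Equiv.Perm (Fin k)))
    (h : ∀ e ∈ RK lv, ∃ π ∈ P, ∃ y : Fin k → Fin n, StrictMono y ∧ ∑ i, lv (y i) ≤ m ∧
      ∀ i j, e (y i) < e (y j) ↔ π i < π j) :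
    k.factorial ^ 2 ≤ P.card * (T ^ k * 2 ^ m * (2 ^ (m + k)) ^ 3) := by
  classical
  set Y : (Fin k → ℕ) → Finset (Fin k → Fin n) :=
    fun lam => univ.filter (fun y : Fin k → Fin n => StrictMono y ∧ ∀ i, lv (y i) = lam i) with hY
  set pat : (Fin k → Fin n) → Equiv.Perm (Fin k) → Finset (Equiv.Perm (Fin n)) :=
    fun y τ => (RK lv).filter (fun e => ∀ i j, e (y i) < e (y j) ↔ τ i < τ j) with hpat
  have hcov : (RK lv).card ≤ ∑ lam ∈ LV k V m, ∑ τ ∈ P, ∑ y ∈ Y lam, (pat y τ).card := by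
    have h1 : RK lv ⊆ (LV k V m).biUnion (fun lam => P.biUnion (fun τ => (Y lam).biUnion
        (fun y => pat y τ))) := by
      intro e he
      obtain ⟨π, hπ, y, hy, hym, hyp⟩ := h e he
      rw [mem_biUnion]
      refine ⟨fun i => lv (y i), ?_, ?_⟩
      · unfold LV
        rw [mem_filter, Fintype.mem_piFinset]
        exact ⟨fun i => mem_range.2 (Nat.lt_succ_of_le (hV _)), hym⟩
      · rw [mem_biUnion]
        refine ⟨π, hπ, ?_⟩
        rw [mem_biUnion]
        exact ⟨y, mem_filter.2 ⟨mem_univ _, hy, fun _ => rfl⟩, mem_filter.2 ⟨he, hyp⟩⟩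
    refine (card_le_card h1).trans (card_biUnion_le.trans (sum_le_sum fun lam _ => ?_))
    refine card_biUnion_le.trans (sum_le_sum fun τ _ => ?_)
    exact card_biUnion_le
  have hone : ∀ lam ∈ LV k V m, ∀ τ ∈ P,
      k.factorial ^ 2 * ∑ y ∈ Y lam, (pat y τ).card ≤
        ((LV k V m).card) ^ 2 * (T ^ k * 2 ^ m * (RK lv).card) := by
    intro lam hlam τ _
    have hlam2 : ∑ i, lam i ≤ m := (mem_filter.1 hlam).2
    have hlamV : ∀ i, lam i ∈ range (V + 1) := fun i =>
      (Fintype.mem_piFinset.1 (mem_filter.1 hlam).1) i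
    have g1 : k.factorial ≤ (St lam).card * (LV k V m).card := by
      apply stab_ge
      intro ρ
      unfold LV
      rw [mem_filter, Fintype.mem_piFinset]
      refine ⟨fun i => hlamV _, ?_⟩
      have h0 : ∑ i, lam (ρ i) = ∑ i, lam i := Equiv.sum_comp ρ lam
      show ∑ i, lam (ρ i) ≤ m
      rw [h0]
      exact hlam2
    have g2 : (∑ y ∈ Y lam, (pat y τ).card) * (St lam).card ≤ (Y lam).card * (RK lv).card := by
      rw [sum_mul, ← smul_eq_mul, ← sum_const]
      apply sum_le_sum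
      intro y hy
      obtain ⟨-, hy1, hy2⟩ := mem_filter.1 hy
      have := pat_le lv ⟨y, hy1.injective⟩ τ
      have h3 : (fun i => lv ((⟨y, hy1.injective⟩ : Fin k ↪ Fin n) i)) = lam := funext fun i => hy2 i
      rw [h3] at this
      exact this
    have g3 : (Y lam).card * (St lam).card ≤ T ^ k * 2 ^ m := by
      refine (places_le lv lam).trans ?_
      calc ∏ i, (univ.filter (fun l : Fin n => lv l = lam i)).card ≤ ∏ i : Fin k, T * 2 ^ lam i :=
            prod_le_prod' fun i _ => hN (lam i)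
        _ = T ^ k * 2 ^ (∑ i, lam i) := by
            rw [prod_mul_distrib, prod_const, card_univ, Fintype.card_fin, prod_pow_eq_pow_sum]
        _ ≤ T ^ k * 2 ^ m := Nat.mul_le_mul_left _ (Nat.pow_le_pow_right (by norm_num) hlam2)
    calc k.factorial ^ 2 * ∑ y ∈ Y lam, (pat y τ).card
        ≤ ((St lam).card * (LV k V m).card) ^ 2 * ∑ y ∈ Y lam, (pat y τ).card :=
          Nat.mul_le_mul_right _ (Nat.pow_le_pow_left g1 2)
      _ = ((LV k V m).card) ^ 2 * (((∑ y ∈ Y lam, (pat y τ).card) * (St lam).card) * (St lam).card) := by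
          ring
      _ ≤ ((LV k V m).card) ^ 2 * (((Y lam).card * (RK lv).card) * (St lam).card) :=
          Nat.mul_le_mul_left _ (Nat.mul_le_mul_right _ g2)
      _ = ((LV k V m).card) ^ 2 * (((Y lam).card * (St lam).card) * (RK lv).card) := by ring
      _ ≤ ((LV k V m).card) ^ 2 * ((T ^ k * 2 ^ m) * (RK lv).card) :=
          Nat.mul_le_mul_left _ (Nat.mul_le_mul_right _ g3)
  have hRKpos : 0 < (RK lv).card := card_pos.2 (RK_nonempty lv V hV)
  have hfin : k.factorial ^ 2 * (RK lv).card ≤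
      (P.card * (T ^ k * 2 ^ m * ((LV k V m).card) ^ 3)) * (RK lv).card := by
    calc k.factorial ^ 2 * (RK lv).card
        ≤ k.factorial ^ 2 * ∑ lam ∈ LV k V m, ∑ τ ∈ P, ∑ y ∈ Y lam, (pat y τ).card :=
          Nat.mul_le_mul_left _ hcov
      _ = ∑ lam ∈ LV k V m, ∑ τ ∈ P, k.factorial ^ 2 * ∑ y ∈ Y lam, (pat y τ).card := by
          rw [mul_sum]
          exact sum_congr rfl fun lam _ => by rw [mul_sum]
      _ ≤ ∑ _lam ∈ LV k V m, ∑ _τ ∈ P, ((LV k V m).card) ^ 2 * (T ^ k * 2 ^ m * (RK lv).card) :=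
          sum_le_sum fun lam hlam => sum_le_sum fun τ hτ => hone lam hlam τ hτ
      _ = _ := by
          rw [sum_const, sum_const, smul_eq_mul, smul_eq_mul]
          ring
  have h4 := Nat.le_of_mul_le_mul_right hfin hRKpos
  refine h4.trans (Nat.mul_le_mul_left _ (Nat.mul_le_mul_left _ ?_))
  exact Nat.pow_le_pow_left (LV_card k V m) 3

end Pool.Agent.Helper274_RO
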