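import Mathlib
import Pool.Agent.TH779.Ord.Block
import Pool.Agent.Helper274_RO.Cnt

/-! Positions with dyadic levels, and a block of gaps between hits. -/

set_option autoImplicit false

namespace Pool.Agent.Helper274_RO

open Finset
open Pool.Agent.TH779.Ord (el el_mem el_lt el_surj exists_rank)

/-- the level of the boundary between the positions `i` and `i + 1` -/
def lvl (V i : ℕ) : ℕ := ((range V).filter (fun u => ¬ 2 ^ (u + 1) ∣ i + 1)).card

/-- the closeness of two positions -/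
def cl (V x y : ℕ) : ℕ := ((range V).filter (fun u => x / 2 ^ (u + 1) = y / 2 ^ (u + 1))).card

/-- the place of the position `x` -/
def hB (s : ℕ → ℕ) (B x : ℕ) : ℕ := ∑ i ∈ range x, B ^ (s i + 1)

theorem lvl_le (V i : ℕ) : lvl V i ≤ V := by
  unfold lvl
  exact (card_filter_le _ _).trans (by rw [card_range])

/-- between two positions there is a boundary whose level is at most their closeness -/
theorem exists_lvl_le (V : ℕ) {x y : ℕ} (hxy : x < y) : ∃ i, x ≤ i ∧ i < y ∧ lvl V i ≤ cl V x y := by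
  classical
  set v := Nat.findGreatest (fun u => x / 2 ^ u < y / 2 ^ u) V with hv
  have hPv : x / 2 ^ v < y / 2 ^ v :=
    Nat.findGreatest_spec (P := fun u => x / 2 ^ u < y / 2 ^ u) (Nat.zero_le V) (by simpa using hxy)
  have hvV : v ≤ V := Nat.findGreatest_le V
  have hgt : ∀ u, v < u → u ≤ V → x / 2 ^ u = y / 2 ^ u := by
    intro u h1 h2
    have h3 := Nat.findGreatest_is_greatest h1 h2
    have h4 : x / 2 ^ u ≤ y / 2 ^ u := Nat.div_le_div_right hxy.le
    omega
  have hpos : 0 < 2 ^ v := Nat.pow_pos (by norm_num)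
  have h1 : (y / 2 ^ v) * 2 ^ v ≤ y := Nat.div_mul_le_self _ _
  have h2 : x < (y / 2 ^ v) * 2 ^ v := by
    have h3 : x < (x / 2 ^ v + 1) * 2 ^ v := by
      have := Nat.lt_div_mul_add (a := x) (b := 2 ^ v) hpos
      rw [add_mul, one_mul]
      exact this
    exact h3.trans_le (Nat.mul_le_mul_right _ hPv)
  refine ⟨(y / 2 ^ v) * 2 ^ v - 1, by omega, by omega, ?_⟩
  have h3 : (y / 2 ^ v) * 2 ^ v - 1 + 1 = (y / 2 ^ v) * 2 ^ v := by omega
  unfold lvl cl
  rw [h3]
  apply card_le_card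
  intro u hu
  rw [mem_filter, mem_range] at hu ⊢
  refine ⟨hu.1, ?_⟩
  apply hgt (u + 1) _ hu.1
  by_contra hcon
  apply hu.2
  exact (pow_dvd_pow 2 (by omega)).trans (dvd_mul_left _ _)

theorem sum_two_pow (V : ℕ) : ∑ u ∈ range V, 2 ^ (u + 1) ≤ 2 ^ (V + 1) := by
  induction V with
  | zero => simp
  | succ V ih =>
    rw [sum_range_succ]
    have : 2 ^ (V + 1 + 1) = 2 ^ (V + 1) + 2 ^ (V + 1) := by ring
    omega

/-- the row sums of the closeness -/
theorem cl_row (V K x : ℕ) : ∑ y ∈ range K, cl V x y ≤ 2 ^ (V + 1) := by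
  classical
  have h1 : ∑ y ∈ range K, cl V x y =
      ∑ u ∈ range V, ((range K).filter (fun y => x / 2 ^ (u + 1) = y / 2 ^ (u + 1))).card := by
    unfold cl
    simp only [card_filter]
    exact sum_comm
  rw [h1]
  refine (sum_le_sum fun u _ => ?_).trans (sum_two_pow V)
  have hpos : 0 < 2 ^ (u + 1) := Nat.pow_pos (by norm_num)
  calc ((range K).filter (fun y => x / 2 ^ (u + 1) = y / 2 ^ (u + 1))).card
      ≤ (range (2 ^ (u + 1))).card := by
        apply card_le_card_of_injOn (fun y => y % 2 ^ (u + 1))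
        · intro y _
          rw [mem_coe, mem_range]
          exact Nat.mod_lt _ hpos
        · intro y hy y' hy' h
          rw [mem_coe, mem_filter] at hy hy'
          have h2 : y / 2 ^ (u + 1) = y' / 2 ^ (u + 1) := hy.2.symm.trans hy'.2
          have h3 : y % 2 ^ (u + 1) = y' % 2 ^ (u + 1) := h
          rw [← Nat.div_add_mod y (2 ^ (u + 1)), ← Nat.div_add_mod y' (2 ^ (u + 1)), h2, h3]
    _ = 2 ^ (u + 1) := card_range _

/-- the number of boundaries of a level -/
theorem lvl_card (B τ V a : ℕ) (hV : V + τ = B) :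
    ((univ : Finset (Fin (2 ^ B - 1))).filter (fun i : Fin (2 ^ B - 1) => lvl V i = a)).card ≤ 2 ^ τ * 2 ^ a := by
  classical
  by_cases ha : V < a
  · have h1 : (univ : Finset (Fin (2 ^ B - 1))).filter (fun i : Fin (2 ^ B - 1) => lvl V i = a) = ∅ := by
      apply filter_eq_empty_iff.2
      intro i _ h
      have := lvl_le V i
      omega
    rw [h1, card_empty]
    exact Nat.zero_le _
  push Not at ha
  have hdvd : ∀ i : ℕ, lvl V i = a → 2 ^ (V - a) ∣ i + 1 := by
    intro i hi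
    rcases Nat.eq_zero_or_pos (V - a) with h0 | h0
    · rw [h0, pow_zero]
      exact one_dvd _
    by_contra hcon
    have h2 : ∀ u ∈ Ico (V - a - 1) V, ¬ 2 ^ (u + 1) ∣ i + 1 := by
      intro u hu h3
      rw [mem_Ico] at hu
      exact hcon ((pow_dvd_pow 2 (by omega)).trans h3)
    have h3 : Ico (V - a - 1) V ⊆ (range V).filter (fun u => ¬ 2 ^ (u + 1) ∣ i + 1) := by
      intro u hu
      rw [mem_filter, mem_range]
      exact ⟨(mem_Ico.1 hu).2, h2 u hu⟩
    have h4 := card_le_card h3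
    rw [Nat.card_Ico] at h4
    unfold lvl at hi
    rw [hi] at h4
    omega
  have hpow : 2 ^ τ * 2 ^ a = 2 ^ (B - (V - a)) := by
    rw [← pow_add]
    congr 1
    omega
  rw [hpow]
  have hsplit : 2 ^ (B - (V - a)) * 2 ^ (V - a) = 2 ^ B := by
    rw [← pow_add]
    congr 1
    omega
  have hpos : 0 < 2 ^ (V - a) := Nat.pow_pos (by norm_num)
  calc _ ≤ (range (2 ^ (B - (V - a)))).card := by
        apply card_le_card_of_injOn (fun i : Fin (2 ^ B - 1) => ((i : ℕ) + 1) / 2 ^ (V - a))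
        · intro i _
          rw [mem_coe, mem_range]
          apply (Nat.div_lt_iff_lt_mul hpos).2
          rw [hsplit]
          have := i.2
          omega
        · intro i hi j hj hij
          rw [mem_coe, mem_filter] at hi hj
          have h1 := hdvd i hi.2
          have h2 := hdvd j hj.2
          have h3 : ((i : ℕ) + 1) / 2 ^ (V - a) = ((j : ℕ) + 1) / 2 ^ (V - a) := hij
          have h4 : (i : ℕ) + 1 = (j : ℕ) + 1 := by
            rw [← Nat.div_mul_cancel h1, ← Nat.div_mul_cancel h2, h3]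
          exact Fin.ext (by omega)
    _ = _ := card_range _

theorem hB_strictMono (s : ℕ → ℕ) {B : ℕ} (hB1 : 1 ≤ B) : StrictMono (hB s B) := by
  apply strictMono_nat_of_lt_succ
  intro x
  unfold hB
  rw [sum_range_succ]
  have : 0 < B ^ (s x + 1) := Nat.pow_pos (by omega)
  omega

theorem hB_le (s : ℕ → ℕ) (B N x n : ℕ) (hs : ∀ l, s l ≤ N) (hx : x ≤ n) (hB1 : 1 ≤ B) :
    hB s B x ≤ n * B ^ (N + 1) := by
  unfold hB
  calc ∑ l ∈ range x, B ^ (s l + 1) ≤ ∑ _l ∈ range x, B ^ (N + 1) := by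
        apply sum_le_sum
        intro l _
        exact Nat.pow_le_pow_right hB1 (by have := hs l; omega)
    _ = x * B ^ (N + 1) := by rw [sum_const, card_range, smul_eq_mul]
    _ ≤ n * B ^ (N + 1) := Nat.mul_le_mul_right _ hx

theorem hB_gap (s : ℕ → ℕ) (B n : ℕ) {x y m : ℕ} (hy : y ≤ n) (hs : ∀ l < n, ∀ l' < n, s l = s l' → l = l')
    (hB1 : 1 ≤ B) (hBn : n ≤ B) (hm1 : x ≤ m) (hm2 : m < y) (hm : ∀ l, x ≤ l → l < y → s l ≤ s m) :
    B ^ (s m + 1) ≤ hB s B y - hB s B x ∧ hB s B y - hB s B x ≤ 2 * B ^ (s m + 1) := by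
  have hxy : x ≤ y := by omega
  have h5 : hB s B y - hB s B x = ∑ l ∈ Ico x y, B ^ (s l + 1) := by
    unfold hB
    have := sum_range_add_sum_Ico (fun l => B ^ (s l + 1)) hxy
    omega
  rw [h5]
  have hmI : m ∈ Ico x y := mem_Ico.2 ⟨hm1, hm2⟩
  constructor
  · exact single_le_sum (f := fun l => B ^ (s l + 1)) (fun _ _ => Nat.zero_le _) hmI
  · have h6 : ∑ l ∈ (Ico x y).erase m, B ^ (s l + 1) ≤ n * B ^ (s m) := by
      have h7 : ∀ l ∈ (Ico x y).erase m, B ^ (s l + 1) ≤ B ^ (s m) := by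
        intro l hl
        rw [mem_erase, mem_Ico] at hl
        obtain ⟨hlm, hl1, hl2⟩ := hl
        apply Nat.pow_le_pow_right hB1
        have h8 := hm l hl1 hl2
        have h9 : s l ≠ s m := fun h => hlm (hs l (by omega) m (by omega) h)
        omega
      refine (sum_le_card_nsmul _ _ _ h7).trans ?_
      rw [smul_eq_mul]
      apply Nat.mul_le_mul_right
      refine (card_le_card (erase_subset _ _)).trans ?_
      rw [Nat.card_Ico]
      exact (Nat.sub_le _ _).trans hy
    have h7 : ∑ l ∈ Ico x y, B ^ (s l + 1) =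
        B ^ (s m + 1) + ∑ l ∈ (Ico x y).erase m, B ^ (s l + 1) :=
      (add_sum_erase _ _ hmI).symm
    have h8 : n * B ^ (s m) ≤ B ^ (s m + 1) := by
      rw [pow_succ, mul_comm (B ^ s m) B]
      exact Nat.mul_le_mul_right _ hBn
    rw [h7]
    have h11 := h6.trans h8
    generalize B ^ (s m + 1) = w at *
    omega

/-- a block with few close hits -/
theorem good_blockW {k t : ℕ} (hk : 1 ≤ k) (ht : k + 1 ≤ t) (f : ℕ → ℕ)
    (hf : ∑ e ∈ range (t - 1), f e ≤ t) :
    ∃ e₀ : ℕ, e₀ + k < t ∧ ∑ e ∈ range k, f (e₀ + e) ≤ 2 * k := by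
  classical
  set r := (t - 1) / k with hr
  have hr1 : 1 ≤ r := by
    rw [hr]
    exact (Nat.one_le_div_iff (by omega)).2 (by omega)
  have hr2 : r * k ≤ t - 1 := Nat.div_mul_le_self _ _
  have hr3 : t ≤ 2 * (r * k) := by
    have h1 : t - 1 < (r + 1) * k := by
      rw [hr]
      have := Nat.lt_div_mul_add (a := t - 1) (b := k) (by omega)
      rw [add_mul, one_mul]
      exact this
    have h2 : k ≤ r * k := Nat.le_mul_of_pos_left k (by omega)
    rw [add_mul, one_mul] at h1
    omega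
  obtain ⟨b, hb, hmin⟩ := exists_min_image (range r)
    (fun b => ∑ e ∈ range k, f (b * k + e)) ⟨0, mem_range.2 (by omega)⟩
  rw [mem_range] at hb
  have h1 : r * ∑ e ∈ range k, f (b * k + e) ≤ t := by
    have h3 := card_nsmul_le_sum (range r) (fun b' => ∑ e ∈ range k, f (b' * k + e)) _
      (fun b' hb' => hmin b' hb')
    rw [card_range, smul_eq_mul] at h3
    have h4 : ∀ r' : ℕ, ∑ b' ∈ range r', ∑ e ∈ range k, f (b' * k + e) = ∑ e ∈ range (r' * k), f e := by
      intro r'
      induction r' with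
      | zero => simp
      | succ r' ih =>
        rw [sum_range_succ, ih, add_mul, one_mul, sum_range_add]
    rw [h4] at h3
    exact h3.trans ((sum_le_sum_of_subset (range_subset_range.2 hr2)).trans hf)
  refine ⟨b * k, ?_, ?_⟩
  · have : (b + 1) * k ≤ r * k := Nat.mul_le_mul_right k hb
    rw [add_mul, one_mul] at this
    omega
  · have h4 : r * ∑ e ∈ range k, f (b * k + e) ≤ r * (2 * k) := by
      calc _ ≤ t := h1
        _ ≤ 2 * (r * k) := hr3
        _ = r * (2 * k) := by ring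
    exact Nat.le_of_mul_le_mul_left h4 (by omega)

/-- consecutive pairs -/
theorem consec_le (J : Finset ℕ) (f : ℕ → ℕ → ℕ) :
    ∑ e ∈ range (J.card - 1), f (el J e) (el J (e + 1)) ≤
      ∑ x ∈ J, ∑ y ∈ J.filter (fun y => x ≠ y), f x y := by
  classical
  calc ∑ e ∈ range (J.card - 1), f (el J e) (el J (e + 1))
      ≤ ∑ e ∈ range (J.card - 1), ∑ y ∈ J.filter (fun y => el J e ≠ y), f (el J e) y := by
        apply sum_le_sum
        intro e he
        rw [mem_range] at he
        have hlt := el_lt J (show e < e + 1 by omega) (show e + 1 < J.card by omega)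
        exact single_le_sum (f := fun y => f (el J e) y) (fun _ _ => Nat.zero_le _)
          (mem_filter.2 ⟨el_mem J (by omega), hlt.ne⟩)
    _ = ∑ x ∈ (range (J.card - 1)).image (fun e => el J e), ∑ y ∈ J.filter (fun y => x ≠ y), f x y := by
        rw [sum_image]
        intro e he e' he' h
        rw [mem_coe, mem_range] at he he'
        by_contra hne
        rcases Nat.lt_or_gt_of_ne hne with h1 | h1
        · have := el_lt J h1 (by omega)
          have h2 : el J e = el J e' := h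
          omega
        · have := el_lt J h1 (by omega)
          have h2 : el J e = el J e' := h
          omega
    _ ≤ _ := by
        apply sum_le_sum_of_subset
        intro x hx
        obtain ⟨e, he, rfl⟩ := mem_image.1 hx
        rw [mem_range] at he
        exact el_mem J (by omega)

/-- the gap with the number `e` -/
noncomputable def gB (s : ℕ → ℕ) (B : ℕ) (J : Finset ℕ) (e : ℕ) : ℕ :=
  hB s B (el J (e + 1)) - hB s B (el J e)

theorem blockW {n k V A : ℕ} (J : Finset ℕ) (hJ : ∀ x ∈ J, x ≤ n) (hk : 1 ≤ k)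
    (hJk : k + 1 ≤ J.card)
    (hw : ∑ e ∈ range (J.card - 1), cl V (el J e) (el J (e + 1)) ≤ J.card)
    (e : Equiv.Perm (Fin n)) (he : e ∈ RK (fun i : Fin n => lvl V i))
    (s : ℕ → ℕ) (hs : ∀ (i : ℕ) (h : i < n), s i = (e ⟨i, h⟩ : ℕ)) (hA1 : 1 ≤ A) (B : ℕ)
    (hB2 : 2 * A + 1 ≤ B) (hBn : n ≤ B) :
    ∃ e₀ : ℕ, e₀ + k < J.card ∧ ∃ π : Equiv.Perm (Fin k),
      (∀ u v : Fin k, π u < π v → A * gB s B J (e₀ + u) < gB s B J (e₀ + v)) ∧
      ∃ y : Fin k → Fin n, StrictMono y ∧ ∑ i, lvl V (y i) ≤ 2 * k ∧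
        ∀ i j, e (y i) < e (y j) ↔ π i < π j := by
  classical
  obtain ⟨e₀, he₀, hsum⟩ := good_blockW hk hJk (fun e => cl V (el J e) (el J (e + 1))) hw
  refine ⟨e₀, he₀, ?_⟩
  have hB1 : 1 ≤ B := by omega
  have hsinj : ∀ l < n, ∀ l' < n, s l = s l' → l = l' := by
    intro l hl l' hl' h
    rw [hs l hl, hs l' hl'] at h
    have := e.injective (Fin.ext h)
    simpa using this
  have hlt : ∀ u : Fin k, el J (e₀ + u) < el J (e₀ + u + 1) := fun u =>
    el_lt J (by omega) (by have := u.2; omega)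
  have hle : ∀ u : Fin k, el J (e₀ + u + 1) ≤ n := fun u =>
    hJ _ (el_mem J (by have := u.2; omega))
  have hmax : ∀ u : Fin k, ∃ m : ℕ, el J (e₀ + u) ≤ m ∧ m < el J (e₀ + u + 1) ∧
      ∀ l, el J (e₀ + u) ≤ l → l < el J (e₀ + u + 1) → s l ≤ s m := by
    intro u
    obtain ⟨m, hm, hm2⟩ := exists_max_image (Ico (el J (e₀ + u)) (el J (e₀ + u + 1))) s
      ⟨_, mem_Ico.2 ⟨le_rfl, hlt u⟩⟩
    rw [mem_Ico] at hm
    exact ⟨m, hm.1, hm.2, fun l h1 h2 => hm2 l (mem_Ico.2 ⟨h1, h2⟩)⟩
  choose m hm1 hm2 hm3 using hmax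
  have hmn : ∀ u, m u < n := fun u => (hm2 u).trans_le (hle u)
  have hmlt : ∀ u v : Fin k, u < v → m u < m v := by
    intro u v huv
    have h1 := hm2 u
    have h2 := hm1 v
    have h3 : el J (e₀ + u + 1) ≤ el J (e₀ + v) := by
      have huv' : (u : ℕ) < v := huv
      rcases Nat.lt_or_eq_of_le (show e₀ + (u : ℕ) + 1 ≤ e₀ + v by omega) with h | h
      · exact (el_lt J h (by have := v.2; omega)).le
      · rw [h]
    omega
  set y : Fin k → Fin n := fun u => ⟨m u, hmn u⟩ with hy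
  have hymono : StrictMono y := fun u v huv => by
    rw [Fin.lt_def]
    exact hmlt u v huv
  have hinj : Function.Injective (fun u : Fin k => e (y u)) := e.injective.comp hymono.injective
  obtain ⟨π, hπ⟩ := exists_rank _ hinj
  have he' : ∀ l l' : Fin n, lvl V l < lvl V l' → e l' < e l := (mem_filter.1 he).2
  refine ⟨π, ?_, y, hymono, ?_, fun i j => (hπ i j).symm⟩
  · intro u v huv
    have h1 : e (y u) < e (y v) := (hπ u v).1 huv
    have h2 : s (m u) < s (m v) := by
      rw [hs _ (hmn u), hs _ (hmn v)]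
      exact h1
    have h3 := (hB_gap s B n (hle u) hsinj hB1 hBn (hm1 u) (hm2 u) (hm3 u)).2
    have h4 := (hB_gap s B n (hle v) hsinj hB1 hBn (hm1 v) (hm2 v) (hm3 v)).1
    have h5 : B ^ (s (m u) + 1 + 1) ≤ B ^ (s (m v) + 1) := Nat.pow_le_pow_right hB1 (by omega)
    have h6 : 0 < B ^ (s (m u) + 1) := Nat.pow_pos (by omega)
    have h7 : (2 * A + 1) * B ^ (s (m u) + 1) ≤ B ^ (s (m u) + 1 + 1) := by
      rw [pow_succ (n := s (m u) + 1), mul_comm]
      exact Nat.mul_le_mul_left _ hB2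
    have h8 : A * (hB s B (el J (e₀ + u + 1)) - hB s B (el J (e₀ + u))) ≤ A * (2 * B ^ (s (m u) + 1)) :=
      Nat.mul_le_mul_left _ h3
    have h9 : (2 * A + 1) * B ^ (s (m u) + 1) = A * (2 * B ^ (s (m u) + 1)) + B ^ (s (m u) + 1) := by
      ring
    show A * (hB s B (el J (e₀ + u + 1)) - hB s B (el J (e₀ + u))) <
      hB s B (el J (e₀ + v + 1)) - hB s B (el J (e₀ + v))
    omega
  · have h1 : ∀ u : Fin k, lvl V (y u) ≤ cl V (el J (e₀ + u)) (el J (e₀ + u + 1)) := by
      intro u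
      obtain ⟨i, hi1, hi2, hi3⟩ := exists_lvl_le V (hlt u)
      have hin : i < n := hi2.trans_le (hle u)
      refine le_trans ?_ hi3
      by_contra hcon
      push Not at hcon
      have h2 := he' ⟨i, hin⟩ (y u) hcon
      have h3 := hm3 u i hi1 hi2
      rw [hs i hin, hs _ (hmn u)] at h3
      exact absurd h2 (not_lt.2 h3)
    calc ∑ u : Fin k, lvl V (y u) ≤ ∑ u : Fin k, cl V (el J (e₀ + u)) (el J (e₀ + u + 1)) :=
          sum_le_sum fun u _ => h1 u
      _ = ∑ e ∈ range k, cl V (el J (e₀ + e)) (el J (e₀ + e + 1)) :=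
          Fin.sum_univ_eq_sum_range (fun e => cl V (el J (e₀ + e)) (el J (e₀ + e + 1))) k
      _ ≤ 2 * k := hsum

end Pool.Agent.Helper274_RO
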