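import Mathlib
import Pool.Agent.TH779.Ord.Pos
import Pool.Agent.TH779.Ord.Block

/-! A block of gaps between hits whose order contains a large part of a given permutation, with large
quotients of the gaps. Adapted from `Pool.Agent.TH779.Ord.Pos` and `Pool.Agent.TH779.Ord.Block`
(helper779). -/

set_option autoImplicit false

namespace Pool.Agent.Helper274_RO

open Finset
open Pool.Agent.TH779.Ord (C C_mono C_split fn el el_mem el_lt el_surj count_inner good_block exists_rank)

/-- the position with the number `x` -/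
def hA (s : ℕ → ℕ) (B K D x : ℕ) : ℕ := C s B (x / K) + D ^ x

theorem hA_strictMono (s : ℕ → ℕ) (B K : ℕ) {D : ℕ} (hD : 2 ≤ D) : StrictMono (hA s B K D) := by
  intro x y hxy
  unfold hA
  have h1 : C s B (x / K) ≤ C s B (y / K) := C_mono s B (Nat.div_le_div_right hxy.le)
  have h2 : D ^ x < D ^ y := Nat.pow_lt_pow_right (by omega) hxy
  omega

theorem hA_le (s : ℕ → ℕ) (B K D N x M : ℕ) (hs : ∀ l, s l ≤ N) (hx : x / K ≤ N) (hxM : x ≤ M)
    (hB : 1 ≤ B) (hD : 1 ≤ D) : hA s B K D x ≤ N * B ^ (N + 1) + D ^ M := by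
  unfold hA Pool.Agent.TH779.Ord.C
  apply Nat.add_le_add
  · calc ∑ l ∈ range (x / K), B ^ (s l + 1) ≤ ∑ _l ∈ range (x / K), B ^ (N + 1) := by
          apply sum_le_sum
          intro l _
          exact Nat.pow_le_pow_right hB (by have := hs l; omega)
      _ = (x / K) * B ^ (N + 1) := by rw [sum_const, card_range, smul_eq_mul]
      _ ≤ N * B ^ (N + 1) := Nat.mul_le_mul_right _ hx
  · exact Nat.pow_le_pow_right hD hxM

theorem pow_ratio {D A x y x' y' : ℕ} (hA : 1 ≤ A) (hD : A + 1 ≤ D) (hxy : x < y) (hxy' : x' < y')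
    (hy : y < y') : A * (D ^ y - D ^ x) < D ^ y' - D ^ x' := by
  have hD1 : 1 ≤ D := by omega
  obtain ⟨z, rfl⟩ : ∃ z, y' = z + 1 := ⟨y' - 1, by omega⟩
  have h1 : D ^ x' ≤ D ^ z := Nat.pow_le_pow_right hD1 (by omega)
  have h2 : D ^ y ≤ D ^ z := Nat.pow_le_pow_right hD1 (by omega)
  have h3 : 0 < D ^ x := Nat.pow_pos (by omega)
  have h4 : D ^ x ≤ D ^ y := Nat.pow_le_pow_right hD1 hxy.le
  have h5 : D ^ y - D ^ x < D ^ z := by omega
  have h6 : A * (D ^ y - D ^ x) < A * D ^ z := Nat.mul_lt_mul_of_pos_left h5 (by omega)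
  have h7 : (A + 1) * D ^ z ≤ D ^ (z + 1) := by
    rw [pow_succ, mul_comm]
    exact Nat.mul_le_mul_left _ hD
  have h8 : (A + 1) * D ^ z = A * D ^ z + D ^ z := by ring
  omega

theorem gap_sameA (s : ℕ → ℕ) (B K D : ℕ) (hD : 1 ≤ D) {x y M : ℕ} (hyM : y < M)
    (h : x / K = y / K) : hA s B K D y - hA s B K D x = D ^ y - D ^ x ∧
      hA s B K D y - hA s B K D x < D ^ M := by
  have h1 : hA s B K D y - hA s B K D x = D ^ y - D ^ x := by
    unfold hA
    rw [h]
    omega
  refine ⟨h1, ?_⟩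
  rw [h1]
  have h2 : D ^ y ≤ D ^ M := Nat.pow_le_pow_right hD hyM.le
  have h3 : 0 < D ^ x := Nat.pow_pos (by omega)
  have h4 : 0 < D ^ y := Nat.pow_pos (by omega)
  omega

theorem gap_crossA (s : ℕ → ℕ) (B K D : ℕ) (hD : 1 ≤ D) {x y M N m : ℕ} (hxy : x < y) (hyM : y < M)
    (hN : y / K ≤ N) (hs : ∀ l < N, ∀ l' < N, s l = s l' → l = l')
    (hB : D ^ M ≤ B) (hBN : N ≤ B) (hm1 : x / K ≤ m) (hm2 : m < y / K)
    (hm : ∀ l, x / K ≤ l → l < y / K → s l ≤ s m) :
    B ^ (s m + 1) ≤ hA s B K D y - hA s B K D x ∧ hA s B K D y - hA s B K D x ≤ 3 * B ^ (s m + 1) := by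
  have h1 : x / K ≤ y / K := Nat.div_le_div_right hxy.le
  have h2 := C_split s B h1
  have h3 : D ^ x ≤ D ^ y := Nat.pow_le_pow_right hD hxy.le
  have h4 : D ^ y ≤ D ^ M := Nat.pow_le_pow_right hD hyM.le
  have h5 : hA s B K D y - hA s B K D x = (∑ l ∈ Ico (x / K) (y / K), B ^ (s l + 1)) + (D ^ y - D ^ x) := by
    unfold hA
    omega
  rw [h5]
  have hmI : m ∈ Ico (x / K) (y / K) := mem_Ico.2 ⟨hm1, hm2⟩
  have hB1 : 1 ≤ B := (Nat.one_le_pow _ _ hD).trans hB
  constructor
  · have h6 : B ^ (s m + 1) ≤ ∑ l ∈ Ico (x / K) (y / K), B ^ (s l + 1) :=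
      single_le_sum (f := fun l => B ^ (s l + 1)) (fun _ _ => Nat.zero_le _) hmI
    omega
  · have h6 : ∑ l ∈ (Ico (x / K) (y / K)).erase m, B ^ (s l + 1) ≤ N * B ^ (s m) := by
      have h7 : ∀ l ∈ (Ico (x / K) (y / K)).erase m, B ^ (s l + 1) ≤ B ^ (s m) := by
        intro l hl
        rw [mem_erase, mem_Ico] at hl
        obtain ⟨hlm, hl1, hl2⟩ := hl
        apply Nat.pow_le_pow_right hB1
        have h8 := hm l hl1 hl2
        have h9 : s l ≠ s m := fun h => hlm (hs l (by omega) m (by omega) h)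
        omega
      refine (sum_le_card_nsmul _ _ _ h7).trans ?_
      rw [smul_eq_mul]
      apply Nat.mul_le_mul_right
      refine (card_le_card (erase_subset _ _)).trans ?_
      rw [Nat.card_Ico]
      exact (Nat.sub_le _ _).trans hN
    have h7 : ∑ l ∈ Ico (x / K) (y / K), B ^ (s l + 1) =
        B ^ (s m + 1) + ∑ l ∈ (Ico (x / K) (y / K)).erase m, B ^ (s l + 1) :=
      (add_sum_erase _ _ hmI).symm
    have h8 : N * B ^ (s m) ≤ B ^ (s m + 1) := by
      rw [pow_succ, mul_comm (B ^ s m) B]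
      exact Nat.mul_le_mul_right _ hBN
    have h9 : D ^ M ≤ B ^ (s m + 1) := hB.trans (Nat.le_self_pow (by omega) B)
    have h10 : D ^ y - D ^ x ≤ B ^ (s m + 1) := ((Nat.sub_le _ _).trans h4).trans h9
    rw [h7]
    have h11 := h6.trans h8
    generalize B ^ (s m + 1) = w at *
    generalize D ^ y - D ^ x = w' at *
    omega

/-- the gap with the number `e` -/
noncomputable def gA (s : ℕ → ℕ) (B K D : ℕ) (J : Finset ℕ) (e : ℕ) : ℕ :=
  hA s B K D (el J (e + 1)) - hA s B K D (el J e)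

theorem blockA {T K k c N A D : ℕ} {lam : ℝ} (hK : 1 ≤ K) (hTN : T = N + 1) (hlam : 1 ≤ lam) (hk : 1 ≤ k)
    (hc : (c : ℝ) ≤ k - 2 * k / lam) (J : Finset ℕ) (hJ : ∀ x ∈ J, x < T * K)
    (hΦ : (k : ℝ) + 1 ≤ ∑ g ∈ range T, fn lam (J.filter (fun x => x / K = g)).card)
    (σ : Equiv.Perm (Fin N)) (s : ℕ → ℕ) (hs : ∀ (l : ℕ) (h : l < N), s l = (σ ⟨l, h⟩ : ℕ))
    (hA1 : 1 ≤ A) (hD : A + 1 ≤ D) (B : ℕ) (hB : A * D ^ (T * K) ≤ B) (hB4 : 3 * A + 1 ≤ B) (hBN : N ≤ B) :
    ∃ e₀ : ℕ, e₀ + k < J.card ∧ ∃ π : Equiv.Perm (Fin k),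
      (∀ u v : Fin k, π u < π v → A * gA s B K D J (e₀ + u) < gA s B K D J (e₀ + v)) ∧
      ∃ (x : Fin c → Fin k) (y : Fin c → Fin N), StrictMono x ∧ StrictMono y ∧
        ∀ i j, σ (y i) < σ (y j) ↔ π (x i) < π (x j) := by
  classical
  obtain ⟨ht, hI⟩ := count_inner (k := k) hK hlam J hJ hΦ
  set I := (range (J.card - 1)).filter (fun e => el J e / K = el J (e + 1) / K) with hIdef
  obtain ⟨e₀, he₀, hin⟩ := good_block hlam hk ht I hI
  refine ⟨e₀, he₀, ?_⟩
  have hD1 : 1 ≤ D := by omega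
  have hDB : D ^ (T * K) ≤ B := (Nat.le_mul_of_pos_left _ (by omega)).trans hB
  -- injectivity of `s`
  have hsinj : ∀ l < N, ∀ l' < N, s l = s l' → l = l' := by
    intro l hl l' hl' h
    rw [hs l hl, hs l' hl'] at h
    have := σ.injective (Fin.ext h)
    simpa using this
  -- numbers
  have hlt : ∀ e, e + 1 < J.card → el J e < el J (e + 1) := fun e he => el_lt J (by omega) he
  have hM : ∀ e < J.card, el J e < T * K := fun e he => hJ _ (el_mem J he)
  have hdiv : ∀ e < J.card, el J e / K ≤ N := by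
    intro e he
    have := (Nat.div_lt_iff_lt_mul (by omega)).2 (hM e he)
    omega
  have hle : ∀ e e', e ≤ e' → e' < J.card → el J e / K ≤ el J e' / K := by
    intro e e' h1 h2
    rcases Nat.lt_or_eq_of_le h1 with h3 | h3
    · exact Nat.div_le_div_right (el_lt J h3 h2).le
    · rw [h3]
  -- the maximum point of a cross gap
  have hmax : ∀ e, ∃ m : ℕ, e + 1 < J.card → el J e / K ≠ el J (e + 1) / K →
      el J e / K ≤ m ∧ m < el J (e + 1) / K ∧ ∀ l, el J e / K ≤ l → l < el J (e + 1) / K → s l ≤ s m := by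
    intro e
    by_cases h : e + 1 < J.card ∧ el J e / K ≠ el J (e + 1) / K
    · obtain ⟨h1, h2⟩ := h
      have h3 : el J e / K < el J (e + 1) / K :=
        lt_of_le_of_ne (hle e (e + 1) (by omega) h1) h2
      obtain ⟨m, hm, hm2⟩ := exists_max_image (Ico (el J e / K) (el J (e + 1) / K)) s
        ⟨_, mem_Ico.2 ⟨le_rfl, h3⟩⟩
      rw [mem_Ico] at hm
      exact ⟨m, fun _ _ => ⟨hm.1, hm.2, fun l hl1 hl2 => hm2 l (mem_Ico.2 ⟨hl1, hl2⟩)⟩⟩
    · exact ⟨0, fun h1 h2 => absurd ⟨h1, h2⟩ h⟩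
  choose ym hym using hmax
  have hymN : ∀ e, e + 1 < J.card → el J e / K ≠ el J (e + 1) / K → ym e < N := by
    intro e h1 h2
    have := (hym e h1 h2).2.1
    have := hdiv (e + 1) h1
    omega
  have hymlt : ∀ e e', e < e' → e' + 1 < J.card → el J e / K ≠ el J (e + 1) / K →
      el J e' / K ≠ el J (e' + 1) / K → ym e < ym e' := by
    intro e e' h1 h2 h3 h4
    have h5 := (hym e (by omega) h3).2.1
    have h6 := (hym e' h2 h4).1
    have h7 := hle (e + 1) e' (by omega) (by omega)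
    omega
  -- sizes of the gaps
  have hin_gap : ∀ e, e + 1 < J.card → el J e / K = el J (e + 1) / K →
      gA s B K D J e = D ^ el J (e + 1) - D ^ el J e ∧ A * gA s B K D J e < B := by
    intro e h1 h2
    have h3 := gap_sameA s B K D hD1 (M := T * K) (hM (e + 1) h1) h2
    exact ⟨h3.1, (Nat.mul_lt_mul_of_pos_left h3.2 (by omega)).trans_le hB⟩
  have hcr_gap : ∀ e, e + 1 < J.card → el J e / K ≠ el J (e + 1) / K →
      B ^ (s (ym e) + 1) ≤ gA s B K D J e ∧ gA s B K D J e ≤ 3 * B ^ (s (ym e) + 1) := by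
    intro e h1 h2
    obtain ⟨h3, h4, h5⟩ := hym e h1 h2
    exact gap_crossA s B K D hD1 (hlt e h1) (hM (e + 1) h1) (hdiv (e + 1) h1) hsinj hDB hBN h3 h4 h5
  have hB1 : 1 ≤ B := by omega
  have hcr_lt : ∀ e e', e + 1 < J.card → e' + 1 < J.card → el J e / K ≠ el J (e + 1) / K →
      el J e' / K ≠ el J (e' + 1) / K → s (ym e) < s (ym e') →
      A * gA s B K D J e < gA s B K D J e' := by
    intro e e' h1 h2 h3 h4 h5
    have h6 := (hcr_gap e h1 h3).2
    have h7 := (hcr_gap e' h2 h4).1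
    have h8 : B ^ (s (ym e) + 1 + 1) ≤ B ^ (s (ym e') + 1) := Nat.pow_le_pow_right hB1 (by omega)
    have h9 : 0 < B ^ (s (ym e) + 1) := Nat.pow_pos (by omega)
    have h10 : (3 * A + 1) * B ^ (s (ym e) + 1) ≤ B ^ (s (ym e) + 1 + 1) := by
      rw [pow_succ (n := s (ym e) + 1), mul_comm]
      exact Nat.mul_le_mul_left _ hB4
    have h11 : A * gA s B K D J e ≤ A * (3 * B ^ (s (ym e) + 1)) := Nat.mul_le_mul_left _ h6
    have h12 : (3 * A + 1) * B ^ (s (ym e) + 1) = A * (3 * B ^ (s (ym e) + 1)) + B ^ (s (ym e) + 1) := by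
      ring
    omega
  have hcr_big : ∀ e, e + 1 < J.card → el J e / K ≠ el J (e + 1) / K → B ≤ gA s B K D J e := by
    intro e h1 h2
    exact (Nat.le_self_pow (by omega) B).trans (hcr_gap e h1 h2).1
  have hcr_ne : ∀ e e', e < e' → e' + 1 < J.card → el J e / K ≠ el J (e + 1) / K →
      el J e' / K ≠ el J (e' + 1) / K → s (ym e) ≠ s (ym e') := by
    intro e e' h1 h2 h3 h4 h5
    have h6 := hymlt e e' h1 h2 h3 h4
    have h7 := hsinj _ (hymN e (by omega) h3) _ (hymN e' h2 h4) h5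
    omega
  -- all gaps are separated
  have hgp_sep : ∀ e e', e < e' → e' + 1 < J.card →
      A * gA s B K D J e < gA s B K D J e' ∨ A * gA s B K D J e' < gA s B K D J e := by
    intro e e' h1 h2
    by_cases h4 : el J e / K = el J (e + 1) / K
    · by_cases h5 : el J e' / K = el J (e' + 1) / K
      · left
        rw [(hin_gap e (by omega) h4).1, (hin_gap e' h2 h5).1]
        exact pow_ratio hA1 hD (hlt e (by omega)) (hlt e' h2) (el_lt J (by omega) h2)
      · left
        exact (hin_gap e (by omega) h4).2.trans_le (hcr_big e' h2 h5)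
    · by_cases h5 : el J e' / K = el J (e' + 1) / K
      · right
        exact (hin_gap e' h2 h5).2.trans_le (hcr_big e (by omega) h4)
      · rcases Nat.lt_or_gt_of_ne (hcr_ne e e' h1 h2 h4 h5) with h6 | h6
        · left
          exact hcr_lt e e' (by omega) h2 h4 h5 h6
        · right
          exact hcr_lt e' e h2 (by omega) h5 h4 h6
  have hA_self : ∀ w : ℕ, w ≤ A * w := fun w => Nat.le_mul_of_pos_left _ (by omega)
  have hgp_ne : ∀ e e', e < e' → e' + 1 < J.card → gA s B K D J e ≠ gA s B K D J e' := by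
    intro e e' h1 h2 h3
    have h4 := hA_self (gA s B K D J e)
    have h5 := hA_self (gA s B K D J e')
    rcases hgp_sep e e' h1 h2 with h | h <;> omega
  have hinj : Function.Injective (fun u : Fin k => gA s B K D J (e₀ + u)) := by
    intro u v huv
    by_contra hne
    have hne' : (u : ℕ) ≠ v := fun h => hne (Fin.ext h)
    have hu := u.2
    have hv := v.2
    rcases Nat.lt_or_gt_of_ne hne' with h | h
    · exact hgp_ne (e₀ + u) (e₀ + v) (by omega) (by omega) huv
    · exact hgp_ne (e₀ + v) (e₀ + u) (by omega) (by omega) huv.symm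
  obtain ⟨π, hπ⟩ := exists_rank _ hinj
  refine ⟨π, ?_, ?_⟩
  · intro u v huv
    have h1 : gA s B K D J (e₀ + u) < gA s B K D J (e₀ + v) := (hπ u v).1 huv
    have hu := u.2
    have hv := v.2
    have h2 := hA_self (gA s B K D J (e₀ + u))
    have h3 := hA_self (gA s B K D J (e₀ + v))
    have hne' : (u : ℕ) ≠ v := fun h => by
      rw [h] at h1
      exact lt_irrefl _ h1
    rcases Nat.lt_or_gt_of_ne hne' with h | h
    · rcases hgp_sep (e₀ + u) (e₀ + v) (by omega) (by omega) with h4 | h4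
      · exact h4
      · omega
    · rcases hgp_sep (e₀ + v) (e₀ + u) (by omega) (by omega) with h4 | h4
      · omega
      · exact h4
  -- the cross gaps of the block
  set XS := (univ : Finset (Fin k)).filter
    (fun u : Fin k => ¬ el J (e₀ + u) / K = el J (e₀ + u + 1) / K) with hXS
  have hXc : c ≤ XS.card := by
    have h1 : (univ.filter (fun u : Fin k => el J (e₀ + u) / K = el J (e₀ + u + 1) / K)).card ≤
        ((Ico e₀ (e₀ + k)) ∩ I).card := by
      apply card_le_card_of_injOn (fun u : Fin k => e₀ + (u : ℕ))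
      · intro u hu
        rw [mem_coe, mem_filter] at hu
        have hu2 := u.2
        have h6 := hu.2
        change e₀ + (u : ℕ) ∈ ((Ico e₀ (e₀ + k) ∩ I : Finset ℕ) : Set ℕ)
        rw [mem_coe, mem_inter, mem_Ico, hIdef, mem_filter, mem_range]
        exact ⟨⟨by omega, by omega⟩, by omega, h6⟩
      · intro u _ v _ huv
        have : e₀ + (u : ℕ) = e₀ + v := huv
        exact Fin.ext (by omega)
    have h2 := card_filter_add_card_filter_not (s := (univ : Finset (Fin k)))
      (fun u : Fin k => el J (e₀ + u) / K = el J (e₀ + u + 1) / K)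
    rw [card_univ, Fintype.card_fin] at h2
    have h3 : ((univ.filter (fun u : Fin k => el J (e₀ + u) / K = el J (e₀ + u + 1) / K)).card : ℝ) +
        XS.card = k := by exact_mod_cast h2
    have h4 : ((univ.filter (fun u : Fin k => el J (e₀ + u) / K = el J (e₀ + u + 1) / K)).card : ℝ) ≤
        2 * k / lam := le_trans (by exact_mod_cast h1) hin
    have h5 : (c : ℝ) ≤ XS.card := by linarith
    exact_mod_cast h5
  obtain ⟨X', hX'1, hX'2⟩ := exists_subset_card_eq hXc
  set x : Fin c → Fin k := fun i => X'.orderEmbOfFin hX'2 i with hx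
  have hxmono : StrictMono x := (X'.orderEmbOfFin hX'2).strictMono
  have hxcr : ∀ i, el J (e₀ + x i) / K ≠ el J (e₀ + x i + 1) / K := by
    intro i
    have h1 : x i ∈ XS := hX'1 (orderEmbOfFin_mem X' hX'2 i)
    rw [hXS, mem_filter] at h1
    exact h1.2
  have hxlt : ∀ i, e₀ + (x i : ℕ) + 1 < J.card := by
    intro i
    have := (x i).2
    omega
  have hcr_lt' : ∀ i j, s (ym (e₀ + x i)) < s (ym (e₀ + x j)) →
      gA s B K D J (e₀ + x i) < gA s B K D J (e₀ + x j) := fun i j h =>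
    (hA_self _).trans_lt (hcr_lt _ _ (hxlt i) (hxlt j) (hxcr i) (hxcr j) h)
  refine ⟨x, fun i => ⟨ym (e₀ + x i), hymN _ (hxlt i) (hxcr i)⟩, hxmono, ?_, ?_⟩
  · intro i j hij
    have h1 : (x i : ℕ) < x j := hxmono hij
    exact hymlt _ _ (by omega) (hxlt j) (hxcr i) (hxcr j)
  · intro i j
    rw [hπ]
    have e1 : ∀ i, (σ ⟨ym (e₀ + x i), hymN _ (hxlt i) (hxcr i)⟩ : ℕ) = s (ym (e₀ + x i)) :=
      fun i => (hs _ _).symm
    rw [Fin.lt_def, e1 i, e1 j]
    rcases lt_trichotomy i j with h | h | h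
    · have h1 : (x i : ℕ) < x j := hxmono h
      constructor
      · exact hcr_lt' i j
      · intro h2
        by_contra h3
        have h4 := hcr_ne (e₀ + x i) (e₀ + x j) (by omega) (hxlt j) (hxcr i) (hxcr j)
        have h5 := hcr_lt' j i (by omega)
        omega
    · subst h
      simp
    · have h1 : (x j : ℕ) < x i := hxmono h
      constructor
      · exact hcr_lt' i j
      · intro h2
        by_contra h3
        have h4 := hcr_ne (e₀ + x j) (e₀ + x i) (by omega) (hxlt i) (hxcr j) (hxcr i)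
        have h5 := hcr_lt' j i (by omega)
        omega

end Pool.Agent.Helper274_RO
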