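import Pool.Agent.H312R2.RG.A2
import Pool.Agent.H362R2.RQ.Col
import Pool.Agent.H362R2.RQ.Comb

set_option autoImplicit false

/-! Positivity at a single `X`, with arbitrary weights of the pairs of primes.
Adapted from `Pool.Agent.H362R2.RQ.Pos` (helper362). -/

open Finset Filter

namespace Pool.Agent.Helper274_RO

open Pool.Agent.H378R2
open Pool.Agent.H362R2.RQ
open Pool.Agent.H312R2.RG (ClassA ClassB tot)

/-- the number of primes minus the weights of the pairs of primes -/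
noncomputable def PhiW {K : ℕ} (w : Fin K → Fin K → ℝ) (θ : Fin K → ℝ) : ℝ :=
  ∑ i, θ i - ∑ i, ∑ j ∈ univ.filter (fun j => i ≠ j), w i j * (θ i * θ j)

/-- weighted sum of the functional -/
theorem sum_PhiW {K : ℕ} (w : Fin K → Fin K → ℝ) (hw : ∀ i j, 0 ≤ w i j) (R : ℝ)
    (hR : ∀ i, ∑ j ∈ univ.filter (fun j => i ≠ j), w i j ≤ R) (I : Finset ℕ) (Wn : ℕ → ℝ)
    (θ : ℕ → Fin K → ℝ) (LB UB : ℝ) (hUB : 0 ≤ UB)
    (h1 : ∀ i, LB ≤ ∑ n ∈ I, Wn n * θ n i)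
    (h2 : ∀ i j, i ≠ j → ∑ n ∈ I, Wn n * (θ n i * θ n j) ≤ UB) :
    K * LB - K * R * UB ≤ ∑ n ∈ I, Wn n * PhiW w (θ n) := by
  have e1 : ∑ n ∈ I, Wn n * PhiW w (θ n) = ∑ i, ∑ n ∈ I, Wn n * θ n i -
      ∑ i, ∑ j ∈ univ.filter (fun j => i ≠ j), w i j * ∑ n ∈ I, Wn n * (θ n i * θ n j) := by
    have e2 : ∀ n, Wn n * PhiW w (θ n) = ∑ i, (Wn n * θ n i) -
        ∑ i, ∑ j ∈ univ.filter (fun j => i ≠ j), w i j * (Wn n * (θ n i * θ n j)) := by
      intro n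
      unfold PhiW
      rw [mul_sub, Finset.mul_sum, Finset.mul_sum]
      congr 1
      refine Finset.sum_congr rfl fun i _ => ?_
      rw [Finset.mul_sum]
      refine Finset.sum_congr rfl fun j _ => ?_
      ring
    rw [Finset.sum_congr rfl (fun n _ => e2 n), Finset.sum_sub_distrib]
    congr 1
    · rw [Finset.sum_comm]
    · rw [Finset.sum_comm]
      refine Finset.sum_congr rfl fun i _ => ?_
      rw [Finset.sum_comm]
      refine Finset.sum_congr rfl fun j _ => ?_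
      rw [Finset.mul_sum]
  rw [e1]
  have e3 : K * LB ≤ ∑ i : Fin K, ∑ n ∈ I, Wn n * θ n i := by
    have h3 := Finset.card_nsmul_le_sum (univ : Finset (Fin K)) (fun i => ∑ n ∈ I, Wn n * θ n i) LB
      (fun i _ => h1 i)
    rwa [card_univ, Fintype.card_fin, nsmul_eq_mul] at h3
  have e4 : ∑ i, ∑ j ∈ univ.filter (fun j => i ≠ j), w i j * ∑ n ∈ I, Wn n * (θ n i * θ n j) ≤
      K * R * UB := by
    calc ∑ i, ∑ j ∈ univ.filter (fun j => i ≠ j), w i j * ∑ n ∈ I, Wn n * (θ n i * θ n j)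
        ≤ ∑ _i : Fin K, R * UB := by
          refine Finset.sum_le_sum fun i _ => ?_
          calc ∑ j ∈ univ.filter (fun j => i ≠ j), w i j * ∑ n ∈ I, Wn n * (θ n i * θ n j)
              ≤ ∑ j ∈ univ.filter (fun j => i ≠ j), w i j * UB := by
                refine Finset.sum_le_sum fun j hj => ?_
                exact mul_le_mul_of_nonneg_left (h2 i j (Finset.mem_filter.1 hj).2) (hw i j)
            _ = (∑ j ∈ univ.filter (fun j => i ≠ j), w i j) * UB := by rw [Finset.sum_mul]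
            _ ≤ R * UB := mul_le_mul_of_nonneg_right (hR i) hUB
      _ = K * R * UB := by
          rw [sum_const, card_univ, Fintype.card_fin, nsmul_eq_mul]
          ring
  linarith

/-- the final combination -/
theorem combineW (Mm sK sJ s b g Z K R S1v Qv Tv Bv LB UB E1 E2 E3 E4 M₂ Θ : ℝ)
    (hMm : 0 < Mm) (hs : 0 < s) (hb : 1 ≤ b) (hg : 1 ≤ g) (hsK : 0 < sK) (hsJ : sJ * s = sK * b ^ 2)
    (hZ : 1 ≤ Z) (hK : 0 < K)
    (hFs : R * b ^ 2 / s ≤ kap / (64 * g ^ 2)) (hKx : b / (16 * g) ≤ K * b ^ 2 / s)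
    (hΘ : Θ = kap * b / (128 * g))
    (hLB : LB = kap * (Z * Mm * sJ) - E2)
    (hUB : UB = Z * (Mm * (2 * (sK * (4 * g * b ^ 2 / s) ^ 2))) + E1)
    (H1 : S1v ≤ Z * (Mm * (2 * sK)) + E1) (H2 : K * LB - K * R * UB ≤ Qv)
    (H3 : Tv ≤ M₂ * (Mm * (2 * sK)) + E3) (H4 : Bv ≤ E4)
    (hE : K * E2 + K * R * E1 + Θ * E1 + K * E3 + K * E4 ≤ etaQ g * (Z * Mm * sK))
    (hM₂ : K * M₂ ≤ etaQ g * Z) :
    0 < Qv - Θ * S1v - K * Tv - K * Bv := by
  have hg0 : 0 < g := by linarith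
  have hb0 : 0 < b := by linarith
  have hkap := kap_pos
  set P := Z * Mm * sK with hP
  have hPpos : 0 < P := by rw [hP]; positivity
  have hη := etaQ_pos g hg0
  have hη2 : etaQ g ≤ kap / (1024 * g) := by
    unfold etaQ
    rw [div_le_div_iff₀ (by positivity) (by positivity)]
    have h1 : kap ≤ 1 := by unfold kap; norm_num
    have h2 : kap ^ 2 * (1024 * g) ≤ kap * (1024 * g) := by
      apply mul_le_mul_of_nonneg_right _ (by positivity)
      rw [sq]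
      have := mul_le_mul_of_nonneg_left h1 hkap.le
      linarith
    have h3 : kap * (1024 * g) ≤ kap * (1024 * g ^ 2) := by
      apply mul_le_mul_of_nonneg_left _ hkap.le
      rw [sq]
      have := mul_le_mul_of_nonneg_left hg hg0.le
      linarith
    linarith
  obtain ⟨x, hx⟩ : ∃ x : ℝ, x = b ^ 2 / s := ⟨_, rfl⟩
  have hx0 : 0 < x := by rw [hx]; positivity
  have hsJx : sJ = sK * x := by
    rw [hx, mul_div_assoc', eq_div_iff hs.ne']
    exact hsJ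
  have hFs' : R * x ≤ kap / (64 * g ^ 2) := by
    rw [hx, mul_div_assoc']; exact hFs
  have hKx' : b / (16 * g) ≤ K * x := by
    rw [hx, mul_div_assoc']; exact hKx
  have e1 : K * LB = K * kap * P * x - K * E2 := by
    rw [hLB, hsJx, hP]; ring
  have e2 : K * R * UB = K * P * x * (32 * g ^ 2 * (R * x)) + K * R * E1 := by
    have h1 : (4 * g * b ^ 2 / s) ^ 2 = 16 * g ^ 2 * x ^ 2 := by
      rw [hx]; field_simp; ring
    rw [hUB, hP, h1]; ring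
  have e3 : K * P * x * (32 * g ^ 2 * (R * x)) ≤ K * P * x * (kap / 2) := by
    apply mul_le_mul_of_nonneg_left _ (by positivity)
    calc 32 * g ^ 2 * (R * x) ≤ 32 * g ^ 2 * (kap / (64 * g ^ 2)) :=
          mul_le_mul_of_nonneg_left hFs' (by positivity)
      _ = kap / 2 := by field_simp; norm_num
  have e4 : kap * b / (32 * g) * P ≤ K * P * x * (kap / 2) := by
    calc kap * b / (32 * g) * P = (b / (16 * g)) * (P * (kap / 2)) := by ring
      _ ≤ (K * x) * (P * (kap / 2)) := mul_le_mul_of_nonneg_right hKx' (by positivity)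
      _ = _ := by ring
  have h1 : kap * b / (32 * g) * P - K * E2 - K * R * E1 ≤ Qv := by
    have h2 : K * kap * P * x - K * P * x * (kap / 2) = K * P * x * (kap / 2) := by ring
    linarith
  have hΘ0 : 0 < Θ := by rw [hΘ]; positivity
  have h2 : Θ * S1v ≤ kap * b / (64 * g) * P + Θ * E1 := by
    have := mul_le_mul_of_nonneg_left H1 hΘ0.le
    refine this.trans (le_of_eq ?_)
    rw [hP, hΘ]; ring
  have h3 : K * Tv ≤ 2 * (etaQ g * P) + K * E3 := by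
    have h4 := mul_le_mul_of_nonneg_left H3 hK.le
    have h5 : K * M₂ * (Mm * (2 * sK)) ≤ etaQ g * Z * (Mm * (2 * sK)) :=
      mul_le_mul_of_nonneg_right hM₂ (by positivity)
    calc K * Tv ≤ K * (M₂ * (Mm * (2 * sK)) + E3) := h4
      _ = K * M₂ * (Mm * (2 * sK)) + K * E3 := by ring
      _ ≤ etaQ g * Z * (Mm * (2 * sK)) + K * E3 := by linarith
      _ = _ := by rw [hP]; ring
  have h4 : K * Bv ≤ K * E4 := mul_le_mul_of_nonneg_left H4 hK.le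
  have h5 : 3 * (etaQ g * P) < kap * b / (64 * g) * P := by
    have h6 : 3 * etaQ g < kap * b / (64 * g) := by
      calc 3 * etaQ g ≤ 3 * (kap / (1024 * g)) := by linarith
        _ < kap * 1 / (64 * g) := by
            rw [mul_one, mul_div_assoc', div_lt_div_iff₀ (by positivity) (by positivity)]
            have h7 := mul_pos hkap hg0
            calc 3 * kap * (64 * g) = 192 * (kap * g) := by ring
              _ < 1024 * (kap * g) := by linarith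
              _ = kap * (1024 * g) := by ring
        _ ≤ kap * b / (64 * g) := by gcongr
    calc 3 * (etaQ g * P) = 3 * etaQ g * P := by ring
      _ < _ := mul_lt_mul_of_pos_right h6 hPpos
  have h6 : kap * b / (32 * g) * P = kap * b / (64 * g) * P + kap * b / (64 * g) * P := by
    ring
  linarith

/-- the positivity statement at a single `X` -/
theorem pos_W (K0 B : ℕ) (f : Fin B → ℝ → ℝ) (c : Fin B → ℝ)
    (A : Finset (Fin (K0 + 1) → Fin B)) (s : ℝ) (hf0 : ∀ l x, c l < x → f l x = 0)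
    (hA : ∀ a ∈ A, ∑ j, c (a j) ≤ 1) (hf1 : ∀ l x, |f l x| ≤ 1)
    (hIpos : 0 < II f A) (hIle : II f A ≤ s ^ (K0 + 1)) (hs0 : 0 < s) (hB : 1 ≤ B)
    (hJ : ∀ i, (2 / 3) * s ^ K0 * B ^ 2 ≤ JJ f A i)
    (ε1 X : ℝ) (hε1 : 0 < ε1) (hε1a : ε1 ≤ s ^ (K0 + 1)) (hε1b : ε1 ≤ s ^ K0 * B ^ 2 / 3)
    (hε1c : ε1 ≤ s ^ (K0 + 1) * (4 * gam * B ^ 2 / s) ^ 2)
    (w : Fin (K0 + 1) → Fin (K0 + 1) → ℝ) (hw : ∀ i j, 0 ≤ w i j) (R : ℝ) (hR0 : 0 ≤ R)
    (hRow : ∀ i, ∑ j ∈ univ.filter (fun j => i ≠ j), w i j ≤ R)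
    (hFs : R * B ^ 2 / s ≤ kap / (64 * gam ^ 2)) (hKx : B / (16 * gam) ≤ ((K0 + 1 : ℕ) : ℝ) * B ^ 2 / s)
    (Cc : ℝ) (hCc : ((K0 + 1 : ℕ) : ℝ) * R + 2 * ((K0 + 1 : ℕ) : ℝ) + kap * B / (128 * gam) ≤ Cc)
    (ps a0 : ℕ) (S : Finset ℕ) (t : Fin (K0 + 1) → ℕ)
    (hX40 : 40 ≤ X) (hL1 : 1 ≤ LL X)
    (hMM : MPhi X / 400 ≤ LPhi X)
    (E : Finset ℕ) (hEsup : E ⊆ Esup X ps)
    (hBEPW : BE (PW X S ps) / 2 ≤ BE E)
    (V T : ℤ → ℝ) (Z₁ M M' M₂ t1 t2 t3 : ℝ)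
    (hV : ∀ a, 0 ≤ V a ∧ V a ≤ X ^ (1 / 100 : ℝ)) (hZ : 1 ≤ Z₁) (hM1 : 3 / 4 * Z₁ ≤ M) (hMZ : M ≤ Z₁)
    (hM' : 3 / 4 * M ≤ M') (hM₂0 : 0 ≤ M₂) (hM₂ : ((K0 + 1 : ℕ) : ℝ) * M₂ ≤ etaQ gam * Z₁)
    (ht1nn : 0 ≤ t1) (ht2nn : 0 ≤ t2) (ht3nn : 0 ≤ t3)
    (S1 : ∑ n ∈ Icc 1 ⌊3 * X⌋₊, nu X (WW X S ps) a0 n *
          (sqw E X f A (fun j => (n : ℤ) + t j) ^ 2 * V n) ≤
        M * ((MPhi X * (1 / (WW X S ps : ℝ))) * (1 / (LL X * BE E) ^ (K0 + 1)) * (II f A + ε1)) +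
          (A.card : ℝ) ^ 2 * t1)
    (S2 : ∀ i, M' * ((LPhi X * (1 / ((WW X S ps).totient : ℝ))) * (1 / (LL X * BE E) ^ K0) *
          (JJ f A i - ε1)) -
        (A.card : ℝ) ^ 2 * (t3 + Real.exp (2 * LL X) * X ^ (1 / 100 : ℝ) *
          ((4 * (Real.log X) ^ 2) * Real.log (4 * X) + 4 * Real.sqrt X * Real.log (4 * X))) ≤
      ∑ n ∈ Icc 1 ⌊3 * X⌋₊, nu X (WW X S ps) a0 n *
        (sqw E X f A (fun j => (n : ℤ) + t j) ^ 2 * V n * th (n + t i)))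
    (PS : ∀ i j, i ≠ j → ∑ n ∈ Icc 1 ⌊3 * X⌋₊,
          (nu X (WW X S ps) a0 n * sqw E X f A (fun j => (n : ℤ) + t j) ^ 2 * V n) *
          (thn X (n + t i) * thn X (n + t j)) ≤
        M * ((MPhi X * (1 / (WW X S ps : ℝ))) * (1 / (LL X * BE E) ^ (K0 + 1)) *
          (s ^ (K0 + 1) * (4 * gam * B ^ 2 / s) ^ 2 + ε1)) + (A.card : ℝ) ^ 2 * t1)
    (TS : ∑ n ∈ Icc 1 ⌊3 * X⌋₊, nu X (WW X S ps) a0 n *
          (sqw E X f A (fun j => (n : ℤ) + t j) ^ 2 * (V n * T n)) ≤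
        M₂ * ((MPhi X * (1 / (WW X S ps : ℝ))) * (1 / (LL X * BE E) ^ (K0 + 1)) * (II f A + ε1)) +
          (A.card : ℝ) ^ 2 * t2)
    (ht : Cc * ((A.card : ℝ) ^ 2 * (t1 + t2 + t3)) ≤
      Z₁ * ((X / ((WW X S ps : ℝ) * (Real.log X) ^ (K0 + 1))) * (etaQ gam * s ^ (K0 + 1) / 40)))
    (herr : ((K0 + 1 : ℕ) : ℝ) * ((A.card : ℝ) ^ 2 * (Real.exp (2 * LL X) * X ^ (1 / 100 : ℝ) *
        ((4 * (Real.log X) ^ 2) * Real.log (4 * X) + 4 * Real.sqrt X * Real.log (4 * X)))) +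
      ((K0 + 1 : ℕ) : ℝ) * (X ^ (9 / 10 : ℝ) * ((A.card : ℝ) ^ 2 * Real.exp (2 * LL X) * X ^ (1 / 100 : ℝ))) ≤
      (X / ((WW X S ps : ℝ) * (Real.log X) ^ (K0 + 1))) * (etaQ gam * s ^ (K0 + 1) / 40))
    (bad : Finset ℕ) (hbad : (bad.card : ℝ) ≤ X ^ (9 / 10 : ℝ)) :
    0 < ∑ n ∈ Icc 1 ⌊3 * X⌋₊, (nu X (WW X S ps) a0 n * sqw E X f A (fun j => (n : ℤ) + t j) ^ 2 * V n) *
      (PhiW w (fun i => thn X (n + t i)) - kap * B / (128 * gam) - ((K0 + 1 : ℕ) : ℝ) * T n -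
      ((K0 + 1 : ℕ) : ℝ) * (if n ∈ bad then 1 else 0)) := by
  classical
  have hXpos : 0 < X := by linarith
  have hg := gam_pos
  have hη := etaQ_pos gam hg
  have hkap := kap_pos
  have hLl : LL X = Real.log X / 200 := rfl
  have hlogX : 200 ≤ Real.log X := by linarith
  have hWpos : 0 < WW X S ps := WW_pos X S ps
  have hWr : (0 : ℝ) < (WW X S ps : ℝ) := by exact_mod_cast hWpos
  have hBE : 0 < BE E := BE_pos fun p hp => Esup_prime (hEsup hp)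
  have hBE1 : BE E ≤ 1 := BE_le_one fun p hp => Esup_prime (hEsup hp)
  have hPWpos : 0 < BE (PW X S ps) := BE_pos fun p hp => (mem_PW.1 hp).2.1
  have hMge := MPhi_ge X hX40
  have hMpos : 0 < MPhi X := lt_of_lt_of_le (by positivity) hMge
  have hBr : (0 : ℝ) < B := by exact_mod_cast hB
  have hBr1 : (1 : ℝ) ≤ B := by exact_mod_cast hB
  have hZpos : 0 < Z₁ := by linarith
  have hMpos' : 0 < M := by linarith
  set Wn : ℕ → ℝ := fun n => nu X (WW X S ps) a0 n * sqw E X f A (fun j => (n : ℤ) + t j) ^ 2 * V n with hWn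
  set bd : ℕ → ℝ := fun n => if n ∈ bad then 1 else 0 with hbd
  have hl4 : 1 ≤ Real.log (4 * X) := by
    rw [Real.log_mul (by norm_num) hXpos.ne']
    have := Real.log_nonneg (by norm_num : (1 : ℝ) ≤ 4)
    linarith
  have hl4le : Real.log (4 * X) ≤ 400 * LL X := by
    rw [Real.log_mul (by norm_num) hXpos.ne']
    have h2 : Real.log 4 ≤ 2 := by
      have : Real.log 4 = 2 * Real.log 2 := by
        rw [show (4 : ℝ) = 2 ^ 2 by norm_num, Real.log_pow]; norm_num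
      have := Real.log_two_lt_d9
      linarith
    rw [hLl]
    linarith
  set Mm : ℝ := (MPhi X * (1 / (WW X S ps : ℝ))) * (1 / (LL X * BE E) ^ (K0 + 1)) with hMm
  set M2 : ℝ := (LPhi X * (1 / ((WW X S ps).totient : ℝ))) * (1 / (LL X * BE E) ^ K0) with hM2
  set sm : ℝ := Real.exp (2 * LL X) * X ^ (1 / 100 : ℝ) *
        ((4 * (Real.log X) ^ 2) * Real.log (4 * X) + 4 * Real.sqrt X * Real.log (4 * X)) with hsm
  set sK : ℝ := s ^ (K0 + 1) with hsK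
  have hsKpos : 0 < sK := by rw [hsK]; positivity
  have hMmpos : 0 < Mm := by
    have : 0 < LL X := by linarith
    rw [hMm]
    positivity
  have hsmnn : 0 ≤ sm := by
    have : 0 ≤ Real.log (4 * X) := by linarith
    rw [hsm]
    positivity
  have E1 : ∑ n ∈ Icc 1 ⌊3 * X⌋₊, Wn n ≤ Z₁ * (Mm * (2 * sK)) + (A.card : ℝ) ^ 2 * t1 := by
    have h1 : ∑ n ∈ Icc 1 ⌊3 * X⌋₊, Wn n ≤ M * (Mm * (II f A + ε1)) + (A.card : ℝ) ^ 2 * t1 := by
      refine le_trans (le_of_eq ?_) S1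
      refine Finset.sum_congr rfl fun n _ => ?_
      simp only [hWn]
      ring
    refine h1.trans ?_
    have h2 : M * (Mm * (II f A + ε1)) ≤ Z₁ * (Mm * (2 * sK)) := by
      apply mul_le_mul hMZ _ _ hZpos.le
      · apply mul_le_mul_of_nonneg_left _ hMmpos.le
        linarith
      · positivity
    linarith
  have E2 : ∀ i, kap * (Z₁ * Mm * (s ^ K0 * B ^ 2)) - (A.card : ℝ) ^ 2 * (t3 + sm) ≤
      ∑ n ∈ Icc 1 ⌊3 * X⌋₊, Wn n * thn X (n + t i) := by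
    intro i
    have h1 : ∑ n ∈ Icc 1 ⌊3 * X⌋₊, Wn n * thn X (n + t i) =
        (∑ n ∈ Icc 1 ⌊3 * X⌋₊, nu X (WW X S ps) a0 n *
          (sqw E X f A (fun j => (n : ℤ) + t j) ^ 2 * V n * th (n + t i))) / Real.log (4 * X) := by
      rw [Finset.sum_div]
      refine Finset.sum_congr rfl fun n _ => ?_
      simp only [hWn]
      unfold thn
      ring
    rw [h1]
    have hM2ge : Mm * (LL X / 800) ≤ M2 := by
      rw [hMm, hM2, totient_WW]
      exact M2_real (MPhi X) (LPhi X) (WW X S ps) (BE E) (BE (PW X S ps)) (LL X) K0 hMpos.le hWr hBE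
        hPWpos (by linarith) hBEPW hMM
    exact low1 Mm M2 (LL X) (Real.log (4 * X)) (s ^ K0 * B ^ 2) (JJ f A i) ε1 Z₁ M M' _ _ hMmpos (by linarith)
      hl4 hl4le (by positivity) (by have := hJ i; linarith) hε1b hM2ge hZ hM1 hM' (by positivity) (S2 i)
  have E5 : ∀ i j, i ≠ j → ∑ n ∈ Icc 1 ⌊3 * X⌋₊, Wn n * (thn X (n + t i) * thn X (n + t j)) ≤
      Z₁ * (Mm * (2 * (sK * (4 * gam * B ^ 2 / s) ^ 2))) + (A.card : ℝ) ^ 2 * t1 := by
    intro i j hij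
    refine (PS i j hij).trans ?_
    have h2 : M * (Mm * (sK * (4 * gam * B ^ 2 / s) ^ 2 + ε1)) ≤
        Z₁ * (Mm * (2 * (sK * (4 * gam * B ^ 2 / s) ^ 2))) := by
      apply mul_le_mul hMZ _ _ hZpos.le
      · apply mul_le_mul_of_nonneg_left _ hMmpos.le
        linarith
      · positivity
    linarith
  have E3 : ∑ n ∈ Icc 1 ⌊3 * X⌋₊, Wn n * T n ≤ M₂ * (Mm * (2 * sK)) + (A.card : ℝ) ^ 2 * t2 := by
    have h1 : ∑ n ∈ Icc 1 ⌊3 * X⌋₊, Wn n * T n ≤ M₂ * (Mm * (II f A + ε1)) + (A.card : ℝ) ^ 2 * t2 := by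
      refine le_trans (le_of_eq ?_) TS
      refine Finset.sum_congr rfl fun n _ => ?_
      simp only [hWn]
      ring
    refine h1.trans ?_
    have h2 : M₂ * (Mm * (II f A + ε1)) ≤ M₂ * (Mm * (2 * sK)) := by
      apply mul_le_mul_of_nonneg_left _ hM₂0
      apply mul_le_mul_of_nonneg_left _ hMmpos.le
      linarith
    linarith
  have E4 : ∑ n ∈ Icc 1 ⌊3 * X⌋₊, Wn n * bd n ≤
      X ^ (9 / 10 : ℝ) * ((A.card : ℝ) ^ 2 * Real.exp (2 * LL X) * X ^ (1 / 100 : ℝ)) := by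
    have hq0 : 0 ≤ X ^ (1 / 100 : ℝ) := by positivity
    have h1 : ∀ n, Wn n ≤ (A.card : ℝ) ^ 2 * Real.exp (2 * LL X) * X ^ (1 / 100 : ℝ) := by
      intro n
      have h2 := sqw_sq_le E X (by linarith) f c A hf0 hA hf1 (fun j => (n : ℤ) + t j)
      have h3 : nu X (WW X S ps) a0 n ≤ 1 := by
        unfold nu
        split_ifs
        · exact Phi_le_one _
        · exact zero_le_one
      have h4 : nu X (WW X S ps) a0 n * sqw E X f A (fun j => (n : ℤ) + t j) ^ 2 ≤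
          (A.card : ℝ) ^ 2 * Real.exp (2 * LL X) := by
        calc nu X (WW X S ps) a0 n * sqw E X f A (fun j => (n : ℤ) + t j) ^ 2
            ≤ 1 * sqw E X f A (fun j => (n : ℤ) + t j) ^ 2 := mul_le_mul_of_nonneg_right h3 (sq_nonneg _)
          _ ≤ _ := by rw [one_mul]; exact h2
      exact mul_le_mul h4 (hV n).2 (hV n).1 (by positivity)
    have h2 : ∑ n ∈ Icc 1 ⌊3 * X⌋₊, Wn n * bd n = ∑ n ∈ (Icc 1 ⌊3 * X⌋₊).filter (fun n => n ∈ bad), Wn n := by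
      rw [Finset.sum_filter]
      refine Finset.sum_congr rfl fun n _ => ?_
      simp only [hbd]
      split_ifs
      · rw [mul_one]
      · rw [mul_zero]
    rw [h2]
    refine (Finset.sum_le_sum fun n _ => h1 n).trans ?_
    rw [Finset.sum_const, nsmul_eq_mul]
    apply mul_le_mul_of_nonneg_right _ (by positivity)
    refine le_trans ?_ hbad
    have h3 : ((Icc 1 ⌊3 * X⌋₊).filter (fun n => n ∈ bad)).card ≤ bad.card := by
      apply Finset.card_le_card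
      intro n hn
      exact (Finset.mem_filter.1 hn).2
    exact_mod_cast h3
  have hUBnn : 0 ≤ Z₁ * (Mm * (2 * (sK * (4 * gam * B ^ 2 / s) ^ 2))) + (A.card : ℝ) ^ 2 * t1 := by positivity
  have EQ := sum_PhiW w hw R hRow (Icc 1 ⌊3 * X⌋₊) Wn (fun n i => thn X (n + t i)) _ _ hUBnn E2 E5
  have hMmge : X / ((WW X S ps : ℝ) * (Real.log X) ^ (K0 + 1)) / 20 ≤ Mm :=
    Mm_real X (MPhi X) (WW X S ps) (BE E) (LL X) (Real.log X) (K0 + 1) hXpos hWr hBE hBE1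
      (by linarith) (by rw [hLl]; linarith) hMge
  set P0 : ℝ := X / ((WW X S ps : ℝ) * (Real.log X) ^ (K0 + 1)) with hP0
  have hP0nn : 0 ≤ P0 := by rw [hP0]; positivity
  set K : ℝ := ((K0 + 1 : ℕ) : ℝ) with hK
  have hKpos : 0 < K := by rw [hK]; positivity
  have hK1 : 1 ≤ K := by rw [hK]; push_cast; linarith [(Nat.cast_nonneg K0 : (0 : ℝ) ≤ K0)]
  set eB : ℝ := X ^ (9 / 10 : ℝ) * ((A.card : ℝ) ^ 2 * Real.exp (2 * LL X) * X ^ (1 / 100 : ℝ)) with heB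
  have heBnn : 0 ≤ eB := by rw [heB]; positivity
  have hcA : 0 ≤ (A.card : ℝ) ^ 2 := sq_nonneg _
  set Θ : ℝ := kap * B / (128 * gam) with hΘ
  have hΘ0 : 0 < Θ := by rw [hΘ]; positivity
  have hEtot : K * ((A.card : ℝ) ^ 2 * (t3 + sm)) + K * R * ((A.card : ℝ) ^ 2 * t1) +
      Θ * ((A.card : ℝ) ^ 2 * t1) + K * ((A.card : ℝ) ^ 2 * t2) + K * eB ≤
      etaQ gam * (Z₁ * Mm * sK) := by
    have h1 : P0 * (etaQ gam * sK / 40) ≤ Z₁ * (P0 * (etaQ gam * sK / 40)) :=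
      le_mul_of_one_le_left (by positivity) hZ
    have h2 : Z₁ * (P0 * (etaQ gam * sK / 40)) + Z₁ * (P0 * (etaQ gam * sK / 40)) ≤
        etaQ gam * (Z₁ * Mm * sK) := by
      have h3 : P0 / 20 * (Z₁ * (etaQ gam * sK)) ≤ Mm * (Z₁ * (etaQ gam * sK)) :=
        mul_le_mul_of_nonneg_right hMmge (by positivity)
      calc Z₁ * (P0 * (etaQ gam * sK / 40)) + Z₁ * (P0 * (etaQ gam * sK / 40)) =
            P0 / 20 * (Z₁ * (etaQ gam * sK)) := by ring
        _ ≤ Mm * (Z₁ * (etaQ gam * sK)) := h3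
        _ = _ := by ring
    have h5 : K * ((A.card : ℝ) ^ 2 * t3) + K * R * ((A.card : ℝ) ^ 2 * t1) +
      Θ * ((A.card : ℝ) ^ 2 * t1) + K * ((A.card : ℝ) ^ 2 * t2) ≤
      Cc * ((A.card : ℝ) ^ 2 * (t1 + t2 + t3)) := by
      have a1 : 0 ≤ (A.card : ℝ) ^ 2 * t1 := by positivity
      have a2 : 0 ≤ (A.card : ℝ) ^ 2 * t2 := by positivity
      have a3 : 0 ≤ (A.card : ℝ) ^ 2 * t3 := by positivity
      set p1 := (A.card : ℝ) ^ 2 * t1
      set p2 := (A.card : ℝ) ^ 2 * t2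
      set p3 := (A.card : ℝ) ^ 2 * t3
      have e1 : (A.card : ℝ) ^ 2 * (t1 + t2 + t3) = p1 + p2 + p3 := by ring
      rw [e1]
      have hlKF : 0 ≤ K * R := by positivity
      have b1 : (K * R + 2 * K + Θ) * (p1 + p2 + p3) ≤ Cc * (p1 + p2 + p3) :=
        mul_le_mul_of_nonneg_right hCc (by positivity)
      have b2 := mul_nonneg hKpos.le a1
      have b3 := mul_nonneg hlKF a2
      have b4 := mul_nonneg hlKF a3
      have b5 := mul_nonneg hΘ0.le a2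
      have b6 := mul_nonneg hΘ0.le a3
      have b7 := mul_nonneg hKpos.le a2
      have b8 := mul_nonneg hKpos.le a3
      linarith
    have h7 : K * ((A.card : ℝ) ^ 2 * (t3 + sm)) = K * ((A.card : ℝ) ^ 2 * t3) +
        K * ((A.card : ℝ) ^ 2 * sm) := by ring
    rw [h7]
    linarith
  have hfin := combineW Mm sK (s ^ K0 * B ^ 2) s B gam Z₁ K R _ _ _ _ _ _
    ((A.card : ℝ) ^ 2 * t1) ((A.card : ℝ) ^ 2 * (t3 + sm)) ((A.card : ℝ) ^ 2 * t2) eB M₂ Θ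
    hMmpos hs0 hBr1 gam_ge hsKpos (by rw [hsK, pow_succ]; ring) hZ hKpos hFs hKx hΘ rfl rfl
    E1 EQ E3 E4 hEtot hM₂
  have e0 : ∑ n ∈ Icc 1 ⌊3 * X⌋₊, Wn n * (PhiW w (fun i => thn X (n + t i)) - Θ -
      K * T n - K * bd n) =
      (∑ n ∈ Icc 1 ⌊3 * X⌋₊, Wn n * PhiW w (fun i => thn X (n + t i))) -
      Θ * ∑ n ∈ Icc 1 ⌊3 * X⌋₊, Wn n - K * ∑ n ∈ Icc 1 ⌊3 * X⌋₊, Wn n * T n -
      K * ∑ n ∈ Icc 1 ⌊3 * X⌋₊, Wn n * bd n := by
    rw [Finset.mul_sum, Finset.mul_sum, Finset.mul_sum, ← Finset.sum_sub_distrib,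
      ← Finset.sum_sub_distrib, ← Finset.sum_sub_distrib]
    refine Finset.sum_congr rfl fun n _ => ?_
    ring
  calc _ < _ := hfin
    _ = _ := e0.symm

end Pool.Agent.Helper274_RO
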