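import Pool.Agent.Helper274_RO.Rec

set_option autoImplicit false

/-! The choice of the parameters, and the explicit form (cf. `Pool.Agent.TH779.Ord.Asym`, helper779). -/

open Finset Filter

namespace Pool.Agent.Helper274_RO

open Pool.Agent.H362R2.RQ
open Pool.Agent.H378R2 (gam gam_pos gam_ge)
open Pool.Agent.H256R2.SC (ff)

theorem fact_le {c k : ℕ} (h : c ≤ k) : k.factorial ≤ c.factorial * k ^ (k - c) := by
  obtain ⟨d, rfl⟩ := Nat.exists_eq_add_of_le h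
  rw [Nat.add_sub_cancel_left, ← Nat.factorial_mul_ascFactorial]
  exact Nat.mul_le_mul_left _ (Nat.ascFactorial_le_pow_add c d)

theorem two_cube_le (n : ℕ) (hn : 16 ≤ n) : 2 * n ^ 3 ≤ 2 ^ n := by
  induction n, hn using Nat.le_induction with
  | base => norm_num
  | succ n hn ih =>
    have h1 : 2 ^ (n + 1) = 2 * 2 ^ n := by rw [pow_succ, mul_comm]
    rw [h1]
    nlinarith [Nat.mul_le_mul hn hn, Nat.mul_le_mul (Nat.mul_le_mul hn hn) hn]

/-- the constant -/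
noncomputable def DD0 : ℝ := 128 * gam / kap

theorem DD0_ge : 128 ≤ DD0 := by
  unfold DD0
  have h1 := gam_ge
  have h2 := kap_pos
  have h3 : kap ≤ 1 := by unfold kap; norm_num
  rw [le_div_iff₀ h2]
  nlinarith

/-- the choice of the parameters -/
theorem params {k : ℕ} {lam : ℝ} (hlam : 2 ≤ lam) (hk : 1 ≤ k) (hlk : lam ≤ k + 2) :
    ∃ B τ N : ℕ, 1 ≤ B ∧ τ ≤ B ∧ N + 1 = 2 ^ τ ∧ (k : ℝ) + 1 ≤ kap * B / (128 * gam) ∧
      64 * gam / kap * (lam * B * ((2 ^ (B - τ) : ℕ) : ℝ)) ≤ 2 ^ B ∧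
      (N : ℝ) ≤ 4 * DD0 ^ 2 * (lam * (k + 1)) := by
  have hD := DD0_ge
  have hD0 : 0 < DD0 := by linarith
  have hgam := gam_pos
  have hkap := kap_pos
  have hk1 : (1 : ℝ) ≤ k := by exact_mod_cast hk
  obtain ⟨B, hBd⟩ : ∃ B : ℕ, B = ⌈DD0 * ((k : ℝ) + 1)⌉₊ := ⟨_, rfl⟩
  have hB1 : DD0 * ((k : ℝ) + 1) ≤ B := by rw [hBd]; exact Nat.le_ceil _
  have hB2 : (B : ℝ) ≤ 2 * (DD0 * ((k : ℝ) + 1)) := by
    have h1 : (B : ℝ) < DD0 * ((k : ℝ) + 1) + 1 := by
      rw [hBd]; exact Nat.ceil_lt_add_one (by positivity)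
    have h2 : 1 ≤ DD0 * ((k : ℝ) + 1) := by nlinarith
    linarith
  have hBD : DD0 ≤ B := by nlinarith
  have hBl : lam ≤ B := by nlinarith
  have hB16 : 16 ≤ B := by
    have : (16 : ℝ) ≤ B := by linarith
    exact_mod_cast this
  have hBr : (0 : ℝ) < B := by linarith
  obtain ⟨Y, hYd⟩ : ∃ Y : ℝ, Y = DD0 / 2 * (lam * B) := ⟨_, rfl⟩
  have hY1 : 2 ≤ Y := by
    rw [hYd]
    have h1 : (1 : ℝ) ≤ lam * B := by nlinarith
    nlinarith
  obtain ⟨τ, hτd⟩ : ∃ τ : ℕ, τ = Nat.clog 2 ⌈Y⌉₊ := ⟨_, rfl⟩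
  have hceil : (⌈Y⌉₊ : ℝ) ≤ 2 * Y := by
    have := Nat.ceil_lt_add_one (show 0 ≤ Y by linarith)
    linarith
  have hc2 : 1 < ⌈Y⌉₊ := by
    have h1 : (2 : ℝ) ≤ ⌈Y⌉₊ := hY1.trans (Nat.le_ceil _)
    exact_mod_cast h1
  have hτ1 : Y ≤ 2 ^ τ := by
    have h1 : ⌈Y⌉₊ ≤ 2 ^ τ := by rw [hτd]; exact Nat.le_pow_clog (by norm_num) _
    calc Y ≤ (⌈Y⌉₊ : ℝ) := Nat.le_ceil _
      _ ≤ ((2 ^ τ : ℕ) : ℝ) := by exact_mod_cast h1
      _ = 2 ^ τ := by push_cast; rfl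
  have hτ2 : (2 : ℝ) ^ τ ≤ 4 * Y := by
    have h1 : 2 ^ (τ - 1) < ⌈Y⌉₊ := by
      rw [hτd]
      exact Nat.pow_pred_clog_lt_self (by norm_num) hc2
    have h2 : 1 ≤ τ := by
      by_contra hcon
      have h3 : τ = 0 := by omega
      rw [h3] at hτ1
      norm_num at hτ1
      linarith
    have h3 : (2 : ℝ) ^ τ = 2 * 2 ^ (τ - 1) := by
      rw [← pow_succ', Nat.sub_add_cancel h2]
    have h4 : ((2 : ℝ)) ^ (τ - 1) ≤ (⌈Y⌉₊ : ℝ) := by exact_mod_cast h1.le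
    rw [h3]
    linarith
  have hτB : τ ≤ B := by
    have h1 : (2 : ℝ) ^ τ ≤ 2 ^ B := by
      calc (2 : ℝ) ^ τ ≤ 4 * Y := hτ2
        _ = 2 * (DD0 * lam * B) := by rw [hYd]; ring
        _ ≤ 2 * ((B : ℝ) * B * B) := by gcongr
        _ = ((2 * B ^ 3 : ℕ) : ℝ) := by push_cast; ring
        _ ≤ ((2 ^ B : ℕ) : ℝ) := by exact_mod_cast two_cube_le B hB16
        _ = 2 ^ B := by push_cast; rfl
    exact (pow_le_pow_iff_right₀ (by norm_num : (1 : ℝ) < 2)).1 h1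
  refine ⟨B, τ, 2 ^ τ - 1, by omega, hτB, Nat.sub_add_cancel Nat.one_le_two_pow, ?_, ?_, ?_⟩
  · rw [le_div_iff₀ (by positivity)]
    have h1 : DD0 * kap = 128 * gam := by unfold DD0; field_simp
    calc ((k : ℝ) + 1) * (128 * gam) = kap * (DD0 * ((k : ℝ) + 1)) := by rw [← h1]; ring
      _ ≤ kap * B := mul_le_mul_of_nonneg_left hB1 hkap.le
  · have h1 : 64 * gam / kap = DD0 / 2 := by unfold DD0; ring
    rw [h1]
    push_cast
    calc DD0 / 2 * (lam * B * 2 ^ (B - τ)) = Y * 2 ^ (B - τ) := by rw [hYd]; ring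
      _ ≤ 2 ^ τ * 2 ^ (B - τ) := mul_le_mul_of_nonneg_right hτ1 (by positivity)
      _ = 2 ^ B := by rw [← pow_add, Nat.add_sub_cancel' hτB]
  · have h1 : ((2 ^ τ - 1 : ℕ) : ℝ) ≤ 2 ^ τ := by
      have : 2 ^ τ - 1 ≤ 2 ^ τ := Nat.sub_le _ _
      exact_mod_cast this
    calc ((2 ^ τ - 1 : ℕ) : ℝ) ≤ 2 ^ τ := h1
      _ ≤ 4 * Y := hτ2
      _ = 2 * DD0 * lam * B := by rw [hYd]; ring
      _ ≤ 2 * DD0 * lam * (2 * (DD0 * ((k : ℝ) + 1))) := mul_le_mul_of_nonneg_left hB2 (by positivity)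
      _ = _ := by ring

theorem log_bound {k : ℕ} {lam : ℝ} (hlam : 2 ≤ lam) (hk : 1 ≤ k) (hlk : lam ≤ k + 2) (A : ℝ) :
    ∃ δ : ℝ, 0 < δ ∧ ∀ q a : ℕ, Squarefree q → a.Coprime q → ∀ᶠ X : ℝ in atTop,
      ∀ H : ℝ, Real.log X ≤ H → H ≤ δ * ff X →
      1 ≤ (PR q a k A δ H X).ncard ∧
      Real.log k.factorial ≤ Real.log (PR q a k A δ H X).ncard + (2 * k / lam + 1) * Real.log k +
        (k + 4 * DD0 ^ 2 * (lam * (k + 1))) * Real.log 2 := by
  have hk1 : (1 : ℝ) ≤ k := by exact_mod_cast hk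
  have hlam0 : (0 : ℝ) < lam := by linarith
  obtain ⟨B, τ, N, hB, hτ, hN, hp1, hp2, hNle⟩ := params hlam hk hlk
  set c := ⌊(k : ℝ) - 2 * k / lam⌋₊ with hcd
  have h0 : 0 ≤ (k : ℝ) - 2 * k / lam := by
    have : 2 * k / lam ≤ (k : ℝ) := by
      rw [div_le_iff₀ hlam0]
      nlinarith
    linarith
  have hc : (c : ℝ) ≤ k - 2 * k / lam := Nat.floor_le h0
  have hc2 : (k : ℝ) - 2 * k / lam < c + 1 := Nat.lt_floor_add_one _
  have hck : c ≤ k := by
    have h1 : 0 ≤ 2 * (k : ℝ) / lam := by positivity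
    have : (c : ℝ) ≤ k := by linarith
    exact_mod_cast this
  obtain ⟨δ, hδ, hmany⟩ := many_of (by linarith : 1 ≤ lam) hk hB hτ hN hc hp1 hp2 A
  refine ⟨δ, hδ, fun q a hq ha => ?_⟩
  filter_upwards [hmany q a hq ha] with X hmain'
  intro H hH1 hH2
  have hmain := hmain' H hH1 hH2
  have hP : 1 ≤ (PR q a k A δ H X).ncard := by
    by_contra hcon
    push Not at hcon
    have h1 : (PR q a k A δ H X).ncard = 0 := by omega
    rw [h1, zero_mul] at hmain
    exact absurd (Nat.factorial_pos c) (by omega)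
  refine ⟨hP, ?_⟩
  have hP' : (0 : ℝ) < (PR q a k A δ H X).ncard := by exact_mod_cast hP
  have h1 : Real.log c.factorial ≤ Real.log (PR q a k A δ H X).ncard + (k + N) * Real.log 2 := by
    have h2 : (c.factorial : ℝ) ≤ (PR q a k A δ H X).ncard * 2 ^ (k + N) := by exact_mod_cast hmain
    have h3 := Real.log_le_log (by exact_mod_cast Nat.factorial_pos c) h2
    rw [Real.log_mul hP'.ne' (by positivity), Real.log_pow] at h3
    push_cast at h3
    exact h3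
  have h2 : Real.log k.factorial ≤ Real.log c.factorial + (k - c) * Real.log k := by
    have h3 : (k.factorial : ℝ) ≤ c.factorial * (k : ℝ) ^ (k - c) := by exact_mod_cast fact_le hck
    have h4 := Real.log_le_log (by exact_mod_cast Nat.factorial_pos k) h3
    have hcf : (0 : ℝ) < c.factorial := by exact_mod_cast Nat.factorial_pos c
    rw [Real.log_mul hcf.ne' (by positivity), Real.log_pow, Nat.cast_sub hck] at h4
    exact h4
  have hlogk : 0 ≤ Real.log k := Real.log_nonneg hk1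
  have hlog2 : 0 ≤ Real.log 2 := Real.log_nonneg (by norm_num)
  have h3 : ((k : ℝ) - c) * Real.log k ≤ (2 * k / lam + 1) * Real.log k :=
    mul_le_mul_of_nonneg_right (by linarith) hlogk
  have h4 : ((k : ℝ) + N) * Real.log 2 ≤ (k + 4 * DD0 ^ 2 * (lam * (k + 1))) * Real.log 2 :=
    mul_le_mul_of_nonneg_right (by linarith) hlog2
  linarith

/-- almost all orders of `k` consecutive gaps of record size -/
theorem orders : ∃ C : ℝ, 0 < C ∧ ∀ k : ℕ, 1 ≤ k → ∀ A : ℝ, ∃ δ : ℝ, 0 < δ ∧ ∀ q a : ℕ, Squarefree q →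
    a.Coprime q → ∀ᶠ X : ℝ in atTop, ∀ H : ℝ, Real.log X ≤ H → H ≤ δ * ff X →
      (k.factorial : ℝ) * Real.exp (-(C * k * Real.sqrt (Real.log k))) ≤ (PR q a k A δ H X).ncard := by
  have hD := DD0_ge
  refine ⟨30 * DD0 ^ 2, by positivity, fun k hk A => ?_⟩
  have hk1 : (1 : ℝ) ≤ k := by exact_mod_cast hk
  set L := Real.log k with hL
  have hL0 : 0 ≤ L := Real.log_nonneg hk1
  set s := Real.sqrt L with hs
  have hs0 : 0 ≤ s := Real.sqrt_nonneg _
  have hsL : s * s = L := Real.mul_self_sqrt hL0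
  have hsk : s ≤ k := by
    rw [hs, Real.sqrt_le_left (by linarith)]
    have := Real.log_le_sub_one_of_pos (show (0 : ℝ) < k by linarith)
    nlinarith
  obtain ⟨δ, hδ, hb⟩ := log_bound (k := k) (lam := 2 + s) (by linarith) hk (by linarith) A
  refine ⟨δ, hδ, fun q a hq ha => ?_⟩
  filter_upwards [hb q a hq ha] with X hX
  intro H hH1 hH2
  obtain ⟨hP, hb1⟩ := hX H hH1 hH2
  have hP' : (0 : ℝ) < (PR q a k A δ H X).ncard := by exact_mod_cast hP
  rcases Nat.lt_or_ge k 2 with h2 | h2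
  · have h3 : k = 1 := by omega
    subst h3
    have h4 : L = 0 := by rw [hL, Nat.cast_one, Real.log_one]
    have h5 : s = 0 := by rw [hs, h4, Real.sqrt_zero]
    rw [h5, mul_zero, neg_zero, Real.exp_zero, mul_one, Nat.factorial_one]
    exact_mod_cast hP
  · have hk2 : (2 : ℝ) ≤ k := by exact_mod_cast h2
    have hlog2 : Real.log 2 < 0.6932 := by
      have := Real.log_two_lt_d9
      linarith
    have hlog2' : 0.69 < Real.log 2 := by
      have := Real.log_two_gt_d9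
      linarith
    have hL2 : 0.69 < L := hlog2'.trans_le (Real.log_le_log (by norm_num) hk2)
    have hs1 : 0.83 ≤ s := by
      rw [hs]
      apply Real.le_sqrt_of_sq_le
      norm_num
      linarith
    have e1 : 2 * k / (2 + s) * L ≤ 2 * (k * s) := by
      rw [div_mul_eq_mul_div, div_le_iff₀ (by linarith), ← hsL]
      have : 0 ≤ (k : ℝ) * s := by positivity
      nlinarith
    have e2 : L ≤ k * s := by
      rw [← hsL]
      exact mul_le_mul_of_nonneg_right hsk hs0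
    have hks : 0 ≤ (k : ℝ) * s := by positivity
    have e3 : (k : ℝ) ≤ 2 * (k * s) := by nlinarith
    have e4 : (2 + s) * ((k : ℝ) + 1) ≤ 6 * (k * s) := by nlinarith
    have e5 : ((k : ℝ) + 4 * DD0 ^ 2 * ((2 + s) * (k + 1))) * Real.log 2 ≤ 26 * DD0 ^ 2 * (k * s) := by
      have hD2 : 1 ≤ DD0 ^ 2 := by nlinarith
      have h1 : (k : ℝ) + 4 * DD0 ^ 2 * ((2 + s) * (k + 1)) ≤ 26 * DD0 ^ 2 * (k * s) := by
        have h3 : 4 * DD0 ^ 2 * ((2 + s) * ((k : ℝ) + 1)) ≤ 4 * DD0 ^ 2 * (6 * (k * s)) :=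
          mul_le_mul_of_nonneg_left e4 (by positivity)
        have h4 : 1 * (2 * ((k : ℝ) * s)) ≤ DD0 ^ 2 * (2 * (k * s)) :=
          mul_le_mul_of_nonneg_right hD2 (by positivity)
        linarith
      have h0 : 0 ≤ (k : ℝ) + 4 * DD0 ^ 2 * ((2 + s) * (k + 1)) := by positivity
      calc _ ≤ ((k : ℝ) + 4 * DD0 ^ 2 * ((2 + s) * (k + 1))) * 1 :=
            mul_le_mul_of_nonneg_left (by linarith) h0
        _ = _ := mul_one _
        _ ≤ _ := h1
    have e6 : 3 * ((k : ℝ) * s) ≤ 4 * DD0 ^ 2 * (k * s) := by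
      have hD2 : 1 ≤ DD0 ^ 2 := by nlinarith
      have : 1 * ((k : ℝ) * s) ≤ DD0 ^ 2 * (k * s) := mul_le_mul_of_nonneg_right hD2 hks
      linarith
    have hfin : Real.log k.factorial ≤ Real.log (PR q a k A δ H X).ncard + 30 * DD0 ^ 2 * k * s := by
      have h3 : (2 * (k : ℝ) / (2 + s) + 1) * L ≤ 3 * (k * s) := by
        rw [add_mul, one_mul]
        linarith
      calc Real.log k.factorial ≤ _ := hb1
        _ ≤ Real.log (PR q a k A δ H X).ncard + 3 * (k * s) + 26 * DD0 ^ 2 * (k * s) := by linarith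
        _ ≤ Real.log (PR q a k A δ H X).ncard + 4 * DD0 ^ 2 * (k * s) + 26 * DD0 ^ 2 * (k * s) := by linarith
        _ = _ := by ring
    have hkf : (0 : ℝ) < k.factorial := by exact_mod_cast Nat.factorial_pos k
    calc (k.factorial : ℝ) * Real.exp (-(30 * DD0 ^ 2 * k * s))
        = Real.exp (Real.log k.factorial - 30 * DD0 ^ 2 * k * s) := by
          rw [sub_eq_add_neg, Real.exp_add, Real.exp_log hkf]
      _ ≤ Real.exp (Real.log (PR q a k A δ H X).ncard) := Real.exp_le_exp.2 (by linarith)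
      _ = _ := Real.exp_log hP'

end Pool.Agent.Helper274_RO
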