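import Pool.Agent.Helper274_RO.RecW

set_option autoImplicit false

/-! The choice of the parameters for `manyW_of`, and the final form. -/

open Finset Filter

namespace Pool.Agent.Helper274_RO

open Pool.Agent.H362R2.RQ
open Pool.Agent.H378R2 (gam gam_pos gam_ge)
open Pool.Agent.H256R2.SC (ff)

theorem two_cube_leW (n : ℕ) (hn : 16 ≤ n) : 2 * n ^ 3 ≤ 2 ^ n := by
  induction n, hn using Nat.le_induction with
  | base => norm_num
  | succ n hn ih =>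
    have h1 : 2 ^ (n + 1) = 2 * 2 ^ n := by rw [pow_succ, mul_comm]
    rw [h1]
    nlinarith [Nat.mul_le_mul hn hn, Nat.mul_le_mul (Nat.mul_le_mul hn hn) hn]

/-- the constant -/
noncomputable def DW : ℝ := 128 * gam / kap

theorem DW_ge : 128 ≤ DW := by
  unfold DW
  have h1 := gam_ge
  have h2 := kap_pos
  have h3 : kap ≤ 1 := by unfold kap; norm_num
  rw [le_div_iff₀ h2]
  nlinarith

/-- the choice of the parameters -/
theorem paramsW {k : ℕ} (hk : 1 ≤ k) :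
    ∃ B τ : ℕ, 1 ≤ B ∧ τ ≤ B ∧ (k : ℝ) + 1 ≤ kap * B / (128 * gam) ∧
      64 * gam / kap * (B * ((2 ^ (B - τ + 1) : ℕ) : ℝ)) ≤ 2 ^ B ∧
      (2 : ℝ) ^ τ ≤ 8 * DW ^ 2 * (k + 1) := by
  have hD := DW_ge
  have hD0 : 0 < DW := by linarith
  have hgam := gam_pos
  have hkap := kap_pos
  have hk1 : (1 : ℝ) ≤ k := by exact_mod_cast hk
  obtain ⟨B, hBd⟩ : ∃ B : ℕ, B = ⌈DW * ((k : ℝ) + 1)⌉₊ := ⟨_, rfl⟩
  have hB1 : DW * ((k : ℝ) + 1) ≤ B := by rw [hBd]; exact Nat.le_ceil _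
  have hB2 : (B : ℝ) ≤ 2 * (DW * ((k : ℝ) + 1)) := by
    have h1 : (B : ℝ) < DW * ((k : ℝ) + 1) + 1 := by
      rw [hBd]; exact Nat.ceil_lt_add_one (by positivity)
    have h2 : 1 ≤ DW * ((k : ℝ) + 1) := by nlinarith
    linarith
  have hBD : DW ≤ B := by nlinarith
  have hB2' : (2 : ℝ) ≤ B := by linarith
  have hB16 : 16 ≤ B := by
    have : (16 : ℝ) ≤ B := by linarith
    exact_mod_cast this
  have hBr : (0 : ℝ) < B := by linarith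
  obtain ⟨Y, hYd⟩ : ∃ Y : ℝ, Y = DW * B := ⟨_, rfl⟩
  have hY1 : 2 ≤ Y := by
    rw [hYd]
    nlinarith
  obtain ⟨τ, hτd⟩ : ∃ τ : ℕ, τ = Nat.clog 2 ⌈Y⌉₊ := ⟨_, rfl⟩
  have hceil : (⌈Y⌉₊ : ℝ) ≤ 2 * Y := by
    have := Nat.ceil_lt_add_one (show 0 ≤ Y by linarith)
    linarith
  have hc2 : 1 < ⌈Y⌉₊ := by
    have h1 : (2 : ℝ) ≤ ⌈Y⌉₊ := hY1.trans (Nat.le_ceil _)
    exact_mod_cast h1
  have hτ1 : Y ≤ 2 ^ τ := by
    have h1 : ⌈Y⌉₊ ≤ 2 ^ τ := by rw [hτd]; exact Nat.le_pow_clog (by norm_num) _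
    calc Y ≤ (⌈Y⌉₊ : ℝ) := Nat.le_ceil _
      _ ≤ ((2 ^ τ : ℕ) : ℝ) := by exact_mod_cast h1
      _ = 2 ^ τ := by push_cast; rfl
  have hτ2 : (2 : ℝ) ^ τ ≤ 4 * Y := by
    have h1 : 2 ^ (τ - 1) < ⌈Y⌉₊ := by
      rw [hτd]
      exact Nat.pow_pred_clog_lt_self (by norm_num) hc2
    have h2 : 1 ≤ τ := by
      by_contra hcon
      have h3 : τ = 0 := by omega
      rw [h3] at hτ1
      norm_num at hτ1
      linarith
    have h3 : (2 : ℝ) ^ τ = 2 * 2 ^ (τ - 1) := by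
      rw [← pow_succ', Nat.sub_add_cancel h2]
    have h4 : ((2 : ℝ)) ^ (τ - 1) ≤ (⌈Y⌉₊ : ℝ) := by exact_mod_cast h1.le
    rw [h3]
    linarith
  have hτB : τ ≤ B := by
    have h1 : (2 : ℝ) ^ τ ≤ 2 ^ B := by
      calc (2 : ℝ) ^ τ ≤ 4 * Y := hτ2
        _ = 2 * (DW * 2 * B) := by rw [hYd]; ring
        _ ≤ 2 * ((B : ℝ) * B * B) := by gcongr
        _ = ((2 * B ^ 3 : ℕ) : ℝ) := by push_cast; ring
        _ ≤ ((2 ^ B : ℕ) : ℝ) := by exact_mod_cast two_cube_leW B hB16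
        _ = 2 ^ B := by push_cast; rfl
    exact (pow_le_pow_iff_right₀ (by norm_num : (1 : ℝ) < 2)).1 h1
  refine ⟨B, τ, by omega, hτB, ?_, ?_, ?_⟩
  · rw [le_div_iff₀ (by positivity)]
    have h1 : DW * kap = 128 * gam := by unfold DW; field_simp
    calc ((k : ℝ) + 1) * (128 * gam) = kap * (DW * ((k : ℝ) + 1)) := by rw [← h1]; ring
      _ ≤ kap * B := mul_le_mul_of_nonneg_left hB1 hkap.le
  · have h1 : 64 * gam / kap = DW / 2 := by unfold DW; ring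
    rw [h1]
    push_cast
    calc DW / 2 * (B * 2 ^ (B - τ + 1)) = Y * 2 ^ (B - τ) := by rw [hYd]; ring
      _ ≤ 2 ^ τ * 2 ^ (B - τ) := mul_le_mul_of_nonneg_right hτ1 (by positivity)
      _ = 2 ^ B := by rw [← pow_add, Nat.add_sub_cancel' hτB]
  · calc (2 : ℝ) ^ τ ≤ 4 * Y := hτ2
      _ = 4 * DW * B := by rw [hYd]; ring
      _ ≤ 4 * DW * (2 * (DW * ((k : ℝ) + 1))) := mul_le_mul_of_nonneg_left hB2 (by positivity)
      _ = _ := by ring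

theorem succ_pow_le {k : ℕ} (hk : 1 ≤ k) : ((k : ℝ) + 1) ^ k ≤ k.factorial * 8 ^ k := by
  have hkf : (0 : ℝ) < k.factorial := by exact_mod_cast Nat.factorial_pos k
  have hk1 : (1 : ℝ) ≤ k := by exact_mod_cast hk
  have h1 := Real.pow_div_factorial_le_exp ((k : ℝ) + 1) (by positivity) k
  rw [div_le_iff₀ hkf] at h1
  have h2 : Real.exp ((k : ℝ) + 1) ≤ 8 ^ k := by
    have h3 : Real.exp 2 ≤ 8 := by
      have h4 : Real.exp 2 = Real.exp 1 * Real.exp 1 := by rw [← Real.exp_add]; norm_num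
      have h5 := Real.exp_one_lt_d9
      have h6 := Real.exp_pos 1
      rw [h4]
      nlinarith
    calc Real.exp ((k : ℝ) + 1) ≤ Real.exp (k * 2) := Real.exp_le_exp.2 (by linarith)
      _ = Real.exp 2 ^ k := by rw [Real.exp_nat_mul]
      _ ≤ 8 ^ k := pow_le_pow_left₀ (Real.exp_pos _).le h3 _
  calc ((k : ℝ) + 1) ^ k ≤ Real.exp ((k : ℝ) + 1) * k.factorial := h1
    _ ≤ 8 ^ k * k.factorial := mul_le_mul_of_nonneg_right h2 hkf.le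
    _ = _ := mul_comm _ _

/-- all but the proportion `1 - C ^ (-k)` of the orders of `k` consecutive gaps of record size -/
theorem ordersW : ∃ C : ℝ, 1 < C ∧ ∀ k : ℕ, 1 ≤ k → ∀ A : ℝ, ∃ δ : ℝ, 0 < δ ∧ ∀ q a : ℕ, Squarefree q →
    a.Coprime q → ∀ᶠ X : ℝ in atTop, ∀ H : ℝ, Real.log X ≤ H → H ≤ δ * ff X →
      (k.factorial : ℝ) / C ^ k ≤ (PR q a k A δ H X).ncard := by
  have hD := DW_ge
  have hD0 : 0 < DW := by linarith
  refine ⟨2 ^ 17 * DW ^ 2, by nlinarith, fun k hk A => ?_⟩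
  have hk1 : (1 : ℝ) ≤ k := by exact_mod_cast hk
  obtain ⟨B, τ, hB, hτ, hp1, hp2, hτk⟩ := paramsW hk
  obtain ⟨δ, hδ, hmany⟩ := manyW_of hk hB hτ hp1 hp2 A
  refine ⟨δ, hδ, fun q a hq ha => ?_⟩
  filter_upwards [hmany q a hq ha] with X hmain'
  intro H hH1 hH2
  have hmain := hmain' H hH1 hH2
  have hkf : (0 : ℝ) < k.factorial := by exact_mod_cast Nat.factorial_pos k
  rw [div_le_iff₀ (by positivity)]
  have h1 : (k.factorial : ℝ) ^ 2 ≤ (PR q a k A δ H X).ncard *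
      ((2 ^ τ) ^ k * 2 ^ (2 * k) * (2 ^ (2 * k + k)) ^ 3) := by exact_mod_cast hmain
  have h2 : ((2 : ℝ) ^ τ) ^ k * 2 ^ (2 * k) * (2 ^ (2 * k + k)) ^ 3 = (2 ^ τ * 2 ^ 11) ^ k := by
    rw [mul_pow, ← pow_mul, ← pow_mul, ← pow_mul, mul_assoc, ← pow_add]
    congr 2
    ring
  have h3 : ((2 : ℝ) ^ τ * 2 ^ 11) ^ k ≤ (8 * DW ^ 2 * (k + 1) * 2 ^ 11) ^ k :=
    pow_le_pow_left₀ (by positivity) (mul_le_mul_of_nonneg_right hτk (by positivity)) _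
  have h4 : (8 * DW ^ 2 * ((k : ℝ) + 1) * 2 ^ 11) ^ k = (2 ^ 14 * DW ^ 2) ^ k * ((k : ℝ) + 1) ^ k := by
    rw [← mul_pow]
    congr 1
    ring
  have h5 : (2 ^ 14 * DW ^ 2) ^ k * ((k : ℝ) + 1) ^ k ≤ (2 ^ 14 * DW ^ 2) ^ k * (k.factorial * 8 ^ k) :=
    mul_le_mul_of_nonneg_left (succ_pow_le hk) (by positivity)
  have h6 : (2 ^ 14 * DW ^ 2) ^ k * ((k.factorial : ℝ) * 8 ^ k) = (2 ^ 17 * DW ^ 2) ^ k * k.factorial := by
    have : (2 ^ 17 * DW ^ 2 : ℝ) = 2 ^ 14 * DW ^ 2 * 8 := by ring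
    rw [this, mul_pow _ (8 : ℝ)]
    ring
  have h7 : (k.factorial : ℝ) * k.factorial ≤
      ((PR q a k A δ H X).ncard * (2 ^ 17 * DW ^ 2) ^ k) * k.factorial := by
    calc (k.factorial : ℝ) * k.factorial = (k.factorial : ℝ) ^ 2 := by ring
      _ ≤ (PR q a k A δ H X).ncard * ((2 ^ τ * 2 ^ 11) ^ k) := by rw [← h2]; exact h1
      _ ≤ (PR q a k A δ H X).ncard * ((2 ^ 17 * DW ^ 2) ^ k * k.factorial) :=
        mul_le_mul_of_nonneg_left (h3.trans (h4.le.trans (h5.trans h6.le))) (Nat.cast_nonneg _)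
      _ = _ := by ring
  exact le_of_mul_le_mul_right h7 hkf

end Pool.Agent.Helper274_RO
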