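import Pool.Agent.Helper274_RO.Win
import Pool.Agent.Helper274_RO.BlockA
import Pool.Agent.H362R2.RQ.Shapes

set_option autoImplicit false

/-! Orders of consecutive gaps of record size. The positions and the combinatorics are those of
`Pool.Agent.TH779.Ord` (helper779), the passage to the primes follows `Pool.Agent.TH29.GO.Record` (helper29). -/

open Finset Filter

namespace Pool.Agent.Helper274_RO

open Pool.Agent.H362R2.RQ
open Pool.Agent.H378R2 (yy gam gam_pos gam_ge)
open Pool.Agent.H256R2.SC (ff)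
open Pool.Agent.H312R2.RG.C3 (ff_tendsto ff_small)
open Pool.Agent.TH779.Ord (fn el el_mem el_lt el_surj patterns_many)

/-- a block of hits is a block of consecutive primes -/
theorem nth_block (n k : ℕ) (r : ℕ → ℕ) (hr : ∀ i j, i < j → j ≤ k → r i < r j)
    (hp : ∀ i ≤ k, (n + r i).Prime)
    (hno : ∀ y, r 0 ≤ y → y ≤ r k → (n + y).Prime → ∃ i ≤ k, y = r i) :
    ∃ m : ℕ, ∀ i ≤ k, Nat.nth Nat.Prime (m + i) = n + r i := by
  have hinf : (Set.ofPred Nat.Prime).Infinite := Nat.infinite_setOfPred_prime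
  have hle : ∀ i j, i ≤ j → j ≤ k → r i ≤ r j := by
    intro i j hij hj
    rcases Nat.lt_or_eq_of_le hij with h | h
    · exact (hr i j h hj).le
    · rw [h]
  refine ⟨Nat.count Nat.Prime (n + r 0), fun i => ?_⟩
  induction i with
  | zero =>
    intro _
    rw [add_zero]
    exact Nat.nth_count (hp 0 (Nat.zero_le _))
  | succ i ih =>
    intro hi
    have h1 := ih (by omega)
    set m := Nat.count Nat.Prime (n + r 0) with hm
    have h2 : Nat.nth Nat.Prime (m + i) < Nat.nth Nat.Prime (m + (i + 1)) :=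
      Nat.nth_strictMono hinf (by omega)
    have h3 : Nat.nth Nat.Prime (Nat.count Nat.Prime (n + r (i + 1))) = n + r (i + 1) :=
      Nat.nth_count (hp (i + 1) hi)
    have h4 : m + i < Nat.count Nat.Prime (n + r (i + 1)) := by
      have := hr i (i + 1) (by omega) hi
      rw [← (Nat.nth_strictMono hinf).lt_iff_lt, h3, h1]
      omega
    have h5 : Nat.nth Nat.Prime (m + (i + 1)) ≤ n + r (i + 1) := by
      rw [← h3]
      exact (Nat.nth_strictMono hinf).monotone (by omega)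
    have h6 : (Nat.nth Nat.Prime (m + (i + 1))).Prime := Nat.prime_nth_prime _
    rw [h1] at h2
    obtain ⟨y, hy⟩ : ∃ y, Nat.nth Nat.Prime (m + (i + 1)) = n + y :=
      ⟨Nat.nth Nat.Prime (m + (i + 1)) - n, by omega⟩
    rw [hy] at h2 h5 h6 ⊢
    have h7 : r 0 ≤ r i := hle 0 i (Nat.zero_le _) (by omega)
    have h8 : r (i + 1) ≤ r k := hle (i + 1) k hi le_rfl
    obtain ⟨j, hj, hyj⟩ := hno y (by omega) (by omega) h6
    rcases lt_trichotomy j (i + 1) with h | h | h
    · have := hle j i (by omega) (by omega)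
      omega
    · rw [hyj, h]
    · have := hr (i + 1) j h hj
      omega

/-- the `k` gaps after the prime with the number `n` are at least `c H`, sum up to at most `H`, and are
ordered like `π`, with quotients at least `A`; the primes lie in `(X, 4X]` and in the class of `a`
modulo `q` -/
def Occ (q a k : ℕ) (A c H X : ℝ) (π : Equiv.Perm (Fin k)) (n : ℕ) : Prop :=
  X < (Nat.nth Nat.Prime n : ℝ) ∧ (Nat.nth Nat.Prime (n + k) : ℝ) ≤ 4 * X ∧
  (Nat.nth Nat.Prime (n + k) : ℝ) ≤ Nat.nth Nat.Prime n + H ∧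
  (∀ i ≤ k, Nat.nth Nat.Prime (n + i) ≡ a [MOD q]) ∧
  (∀ i < k, c * H ≤ (Nat.nth Nat.Prime (n + i + 1) : ℝ) - Nat.nth Nat.Prime (n + i)) ∧
  ∀ i j : Fin k, π i < π j →
    (Nat.nth Nat.Prime (n + i + 1) : ℝ) - Nat.nth Nat.Prime (n + i) <
      (Nat.nth Nat.Prime (n + j + 1) : ℝ) - Nat.nth Nat.Prime (n + j) ∧
    A * ((Nat.nth Nat.Prime (n + i + 1) : ℝ) - Nat.nth Nat.Prime (n + i)) ≤
      (Nat.nth Nat.Prime (n + j + 1) : ℝ) - Nat.nth Nat.Prime (n + j)

/-- the orders which occur at least `X ^ (7 / 8)` times -/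
def PR (q a k : ℕ) (A c H X : ℝ) : Set (Equiv.Perm (Fin k)) :=
  {π | X ^ (7 / 8 : ℝ) ≤ ({n : ℕ | Occ q a k A c H X π n}.ncard : ℝ)}

theorem occ_finite (q a k : ℕ) (A c H X : ℝ) (π : Equiv.Perm (Fin k)) :
    {n : ℕ | Occ q a k A c H X π n}.Finite := by
  apply (Set.finite_Iic ⌊4 * X⌋₊).subset
  intro n hn
  rw [Set.mem_Iic]
  refine Nat.le_floor (le_trans ?_ hn.2.1)
  have h2 : n + k ≤ Nat.nth Nat.Prime (n + k) :=
    (Nat.nth_strictMono Nat.infinite_setOfPred_prime).le_apply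
  exact_mod_cast (Nat.le_add_right n k).trans h2

/-- the classes of the positions -/
theorem fib_div (K K' N : ℕ) (hK' : 0 < K') (hKK : K = (N + 1) * K') (d : Fin (N + 1)) :
    fib (fun j : Fin K => (⟨(j : ℕ) / K', (Nat.div_lt_iff_lt_mul hK').2 (hKK ▸ j.2)⟩ : Fin (N + 1))) d ≤ K' := by
  unfold fib
  calc _ ≤ (range K').card := by
        apply card_le_card_of_injOn (fun j : Fin K => (j : ℕ) % K')
        · intro j _
          rw [mem_coe, mem_range]
          exact Nat.mod_lt _ hK'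
        · intro i hi j hj hij
          rw [mem_coe, mem_filter] at hi hj
          have h1 : (i : ℕ) / K' = (j : ℕ) / K' := by
            have := hi.2.trans hj.2.symm
            exact Fin.mk.inj_iff.1 this
          have h2 : (i : ℕ) % K' = (j : ℕ) % K' := hij
          apply Fin.ext
          rw [← Nat.div_add_mod (i : ℕ) K', ← Nat.div_add_mod (j : ℕ) K', h1, h2]
    _ = K' := card_range K'

theorem many_of {k c N τ B : ℕ} {lam : ℝ} (hlam : 1 ≤ lam) (hk : 1 ≤ k) (hB : 1 ≤ B) (hτ : τ ≤ B)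
    (hN : N + 1 = 2 ^ τ) (hc : (c : ℝ) ≤ k - 2 * k / lam)
    (h1 : (k : ℝ) + 1 ≤ kap * B / (128 * gam))
    (h2 : 64 * gam / kap * (lam * B * ((2 ^ (B - τ) : ℕ) : ℝ)) ≤ 2 ^ B) (A : ℝ) :
    ∃ δ : ℝ, 0 < δ ∧ ∀ q a : ℕ, Squarefree q → a.Coprime q → ∀ᶠ X : ℝ in atTop,
      ∀ H : ℝ, Real.log X ≤ H → H ≤ δ * ff X →
      c.factorial ≤ (PR q a k A δ H X).ncard * 2 ^ (k + N) := by
  classical
  obtain ⟨K, hK, c1, hc1, hmain⟩ := few lam hlam B hB
  set K' := 2 ^ (B - τ) with hK'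
  have hKK : K = (N + 1) * K' := by
    rw [hK, hN, hK', ← pow_add, Nat.add_sub_cancel' hτ]
  have hK'0 : 0 < K' := Nat.pow_pos (by norm_num)
  have hK0 : 0 < K := by rw [hK]; exact Nat.pow_pos (by norm_num)
  obtain ⟨A', hA'⟩ : ∃ A' : ℕ, A' = 2 * ⌈|A|⌉₊ + 2 := ⟨_, rfl⟩
  obtain ⟨E', hE'⟩ : ∃ E' : ℕ, E' = A' + 1 := ⟨_, rfl⟩
  have hA'1 : 1 ≤ A' := by omega
  have hE'2 : 2 ≤ E' := by omega
  set B' := A' * E' ^ ((N + 1) * K') + 3 * A' + N + 1 with hB'
  set D0 : ℕ := N * B' ^ (N + 1) + E' ^ K with hD0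
  obtain ⟨D, hDdef⟩ : ∃ D : ℝ, D = (D0 : ℝ) + 1 := ⟨_, rfl⟩
  have hD1 : 1 ≤ D := by
    rw [hDdef]
    have : (0 : ℝ) ≤ D0 := Nat.cast_nonneg _
    linarith
  have hDpos : 0 < D := by linarith
  obtain ⟨ε, hε⟩ : ∃ ε : ℝ, ε = 1 / (64 * D) := ⟨_, rfl⟩
  have hεpos : 0 < ε := by rw [hε]; positivity
  obtain ⟨δ, hδ⟩ : ∃ δ : ℝ, δ = min c1 (1 / (16 * D)) := ⟨_, rfl⟩
  have hδpos : 0 < δ := by rw [hδ]; exact lt_min hc1 (by positivity)
  have hδc : δ ≤ c1 := by rw [hδ]; exact min_le_left _ _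
  have hδD : δ ≤ 1 / (16 * D) := by rw [hδ]; exact min_le_right _ _
  refine ⟨δ, hδpos, ?_⟩
  intro q a hqsf haq
  have hq0 : 0 < q := Nat.pos_of_ne_zero hqsf.ne_zero
  obtain ⟨X1, hX1⟩ := hmain q
  obtain ⟨Y0, hY0⟩ := Filter.eventually_atTop.1 (exists_prime_mod q hq0 a haq ε hεpos)
  have hkf : (1 : ℝ) ≤ k.factorial := by exact_mod_cast Nat.factorial_pos k
  filter_upwards [eventually_ge_atTop X1, ev_bad ((k.factorial : ℝ) * c1 + k.factorial) (by positivity),
    ff_small (c1 + 1) (by linarith), Real.tendsto_log_atTop.eventually_ge_atTop (4 * |Y0| + 4),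
    eventually_ge_atTop (1 : ℝ), ff_tendsto.eventually_ge_atTop 1]
    with X hXX1 hbadX hsmall hlY hX1' hff1
  intro H hHl hHδ
  have hHc : H ≤ c1 * ff X := hHδ.trans (mul_le_mul_of_nonneg_right hδc (by linarith))
  have hHY : 4 * |Y0| + 4 ≤ H := hlY.trans hHl
  have hlX : 1 ≤ Real.log X := by
    have := abs_nonneg Y0
    linarith
  have hHpos : 0 < H := by
    have := abs_nonneg Y0
    linarith
  have hHX : H ≤ X := by
    have : (c1 + 1) * ff X = c1 * ff X + ff X := by ring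
    linarith
  obtain ⟨s0, hs0⟩ : ∃ s0 : ℝ, s0 = H / (8 * D) := ⟨_, rfl⟩
  have hs0pos : 0 < s0 := by rw [hs0]; positivity
  have hs0D : s0 * D = H / 8 := by rw [hs0]; field_simp
  have hs0H : s0 ≤ H / 8 := by
    have : s0 * 1 ≤ s0 * D := mul_le_mul_of_nonneg_left hD1 hs0pos.le
    linarith
  have hεs : ε * H = s0 / 8 := by rw [hε, hs0]; field_simp; norm_num
  have hδs : δ * H ≤ s0 / 2 := by
    have h3 : δ * H ≤ 1 / (16 * D) * H := mul_le_mul_of_nonneg_right hδD hHpos.le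
    have h4 : 1 / (16 * D) * H = s0 / 2 := by rw [hs0]; field_simp; norm_num
    linarith
  -- counting
  have hfin : (PR q a k A δ H X).Finite := Set.toFinite _
  rw [Set.ncard_eq_toFinset_card _ hfin]
  apply patterns_many
  intro σ
  set s : ℕ → ℕ := fun l => if h : l < N then (σ ⟨l, h⟩ : ℕ) else 0 with hs
  have hs' : ∀ (l : ℕ) (h : l < N), s l = (σ ⟨l, h⟩ : ℕ) := by
    intro l h
    rw [hs]
    simp only [h, dite_true]
  have hsN : ∀ l, s l ≤ N := by
    intro l
    by_cases h : l < N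
    · rw [hs' l h]
      exact (σ ⟨l, h⟩).2.le
    · rw [hs]
      simp only [h, dite_false]
      exact Nat.zero_le _
  have hmono : StrictMono (hA s B' K' E') := hA_strictMono s B' K' hE'2
  have hB'1 : 1 ≤ B' := by
    rw [hB']
    exact Nat.le_add_left 1 _
  have hoD : ∀ x < K, (hA s B' K' E' x : ℝ) ≤ D := by
    intro x hx
    have h3 : x / K' ≤ N := by
      have := (Nat.div_lt_iff_lt_mul hK'0).2 (hKK ▸ hx)
      omega
    have h4 : hA s B' K' E' x ≤ D0 := hA_le s B' K' E' N x K hsN h3 hx.le hB'1 (by omega)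
    have h5 : (hA s B' K' E' x : ℝ) ≤ D0 := by exact_mod_cast h4
    linarith
  set y : Fin K → ℝ := fun j => H / 4 + s0 * (hA s B' K' E' j : ℝ) with hy
  have hso : ∀ j : Fin K, 0 ≤ s0 * (hA s B' K' E' j : ℝ) ∧ s0 * (hA s B' K' E' j : ℝ) ≤ H / 8 := by
    intro j
    refine ⟨by positivity, ?_⟩
    rw [← hs0D]
    exact mul_le_mul_of_nonneg_left (hoD j j.2) hs0pos.le
  have hylow : ∀ j, H / 4 ≤ y j := by
    intro j
    have h3 := (hso j).1
    simp only [hy]
    linarith
  have hyup : ∀ j, y j ≤ 3 * H / 8 := by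
    intro j
    have h3 := (hso j).2
    simp only [hy]
    linarith
  have hex : ∀ j, ∃ p : ℕ, p.Prime ∧ p ≡ a [MOD q] ∧ y j < p ∧ (p : ℝ) ≤ y j + s0 / 8 := by
    intro j
    have h3 := hylow j
    obtain ⟨p, hp, hpa, hp1, hp2⟩ := hY0 (y j) (by
      have := le_abs_self Y0
      linarith)
    refine ⟨p, hp, hpa, hp1, hp2.trans ?_⟩
    have h4 : ε * y j ≤ ε * H := mul_le_mul_of_nonneg_left (by linarith [hyup j]) hεpos.le
    linarith
  choose t htp hta htl htu using hex
  have htdiff : ∀ j j' : Fin K, s0 * ((hA s B' K' E' j' : ℝ) - hA s B' K' E' j) - s0 / 8 ≤ (t j' : ℝ) - t j ∧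
      (t j' : ℝ) - t j ≤ s0 * ((hA s B' K' E' j' : ℝ) - hA s B' K' E' j) + s0 / 8 := by
    intro j j'
    have g1 := htl j
    have g2 := htu j
    have g3 := htl j'
    have g4 := htu j'
    simp only [hy] at g1 g2 g3 g4
    constructor <;> nlinarith
  have htlt : ∀ j j' : Fin K, j < j' → t j < t j' := by
    intro j j' hjj
    have g1 := (htdiff j j').1
    have g2 : (1 : ℝ) ≤ (hA s B' K' E' j' : ℝ) - hA s B' K' E' j := by
      have : hA s B' K' E' j + 1 ≤ hA s B' K' E' j' := hmono hjj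
      have g3 : ((hA s B' K' E' j + 1 : ℕ) : ℝ) ≤ (hA s B' K' E' j' : ℝ) := by exact_mod_cast this
      push_cast at g3
      linarith
    have g3 : s0 * 1 ≤ s0 * ((hA s B' K' E' j' : ℝ) - hA s B' K' E' j) := mul_le_mul_of_nonneg_left g2 hs0pos.le
    have g5 : (t j : ℝ) < t j' := by linarith
    exact_mod_cast g5
  have htmono : StrictMono t := fun j j' h => htlt j j' h
  have htH : ∀ j, (t j : ℝ) ≤ H := by
    intro j
    have g1 := htu j
    have g2 := hyup j
    linarith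
  have htyy : ∀ j, yy X < t j := by
    intro j
    have g1 : (yy X : ℝ) ≤ Real.log X / 1000 := Nat.floor_le (by positivity)
    have g4 := hylow j
    have g5 := htl j
    have g6 : (yy X : ℝ) < t j := by linarith
    exact_mod_cast g6
  -- the exceptional set
  set G0 : Finset ℕ := (univ.filter (fun π : Equiv.Perm (Fin k) => π ∉ PR q a k A δ H X)).biUnion
    (fun π => (occ_finite q a k A δ H X π).toFinset) with hG0
  have hG0card : (G0.card : ℝ) ≤ k.factorial * X ^ (7 / 8 : ℝ) := by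
    have g1 : G0.card ≤ ∑ π ∈ univ.filter (fun π : Equiv.Perm (Fin k) => π ∉ PR q a k A δ H X),
        ((occ_finite q a k A δ H X π).toFinset).card := card_biUnion_le
    have g2 : ((∑ π ∈ univ.filter (fun π : Equiv.Perm (Fin k) => π ∉ PR q a k A δ H X),
        ((occ_finite q a k A δ H X π).toFinset).card : ℕ) : ℝ) ≤
        ∑ _π ∈ univ.filter (fun π : Equiv.Perm (Fin k) => π ∉ PR q a k A δ H X),
          X ^ (7 / 8 : ℝ) := by
      push_cast
      apply sum_le_sum
      intro π hπ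
      rw [mem_filter] at hπ
      have g3 : ¬ X ^ (7 / 8 : ℝ) ≤ ({n : ℕ | Occ q a k A δ H X π n}.ncard : ℝ) := hπ.2
      rw [Set.ncard_eq_toFinset_card _ (occ_finite q a k A δ H X π)] at g3
      exact (not_le.1 g3).le
    rw [sum_const, nsmul_eq_mul] at g2
    have g3 : ((univ.filter (fun π : Equiv.Perm (Fin k) => π ∉ PR q a k A δ H X)).card : ℝ) ≤
        k.factorial := by
      have g4 : (univ : Finset (Equiv.Perm (Fin k))).card = k.factorial := by
        rw [card_univ, Fintype.card_perm, Fintype.card_fin]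
      rw [← g4]
      exact_mod_cast card_filter_le _ _
    calc (G0.card : ℝ) ≤ _ := by exact_mod_cast g1
      _ ≤ _ := g2
      _ ≤ _ := mul_le_mul_of_nonneg_right g3 (Real.rpow_nonneg (by linarith) _)
  set bad : Finset ℕ := G0.biUnion (fun g => Icc (Nat.nth Nat.Prime g - ⌊H⌋₊) (Nat.nth Nat.Prime g))
    with hbaddef
  have hbadcard : (bad.card : ℝ) ≤ X ^ (9 / 10 : ℝ) := by
    have g1 : bad.card ≤ G0.card * (⌊H⌋₊ + 1) := by
      refine Finset.card_biUnion_le.trans ?_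
      have g2 : ∀ g ∈ G0, (Icc (Nat.nth Nat.Prime g - ⌊H⌋₊) (Nat.nth Nat.Prime g)).card ≤
          ⌊H⌋₊ + 1 := by
        intro g _
        rw [Nat.card_Icc]
        omega
      exact (Finset.sum_le_card_nsmul _ _ _ g2).trans (le_of_eq (by rw [smul_eq_mul]))
    have g3 : ((⌊H⌋₊ + 1 : ℕ) : ℝ) ≤ c1 * ff X + 1 := by
      push_cast
      have := Nat.floor_le hHpos.le
      linarith
    have hrp : 0 ≤ X ^ (7 / 8 : ℝ) := Real.rpow_nonneg (by linarith) _
    calc (bad.card : ℝ) ≤ ((G0.card * (⌊H⌋₊ + 1) : ℕ) : ℝ) := by exact_mod_cast g1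
      _ = (G0.card : ℝ) * ((⌊H⌋₊ + 1 : ℕ) : ℝ) := by push_cast; ring
      _ ≤ (k.factorial * X ^ (7 / 8 : ℝ)) * (c1 * ff X + 1) := by
          apply mul_le_mul hG0card g3 (Nat.cast_nonneg _) (by positivity)
      _ = X ^ (7 / 8 : ℝ) * (k.factorial * (c1 * ff X) + k.factorial * 1) := by ring
      _ ≤ X ^ (7 / 8 : ℝ) * (((k.factorial : ℝ) * c1 + k.factorial) * ff X + 1) := by
          apply mul_le_mul_of_nonneg_left _ hrp
          have : (k.factorial : ℝ) * 1 ≤ k.factorial * ff X := mul_le_mul_of_nonneg_left hff1 (by linarith)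
          linarith
      _ ≤ _ := hbadX
  -- the tuple
  set col : Fin K → Fin (N + 1) := fun j =>
    (⟨(j : ℕ) / K', (Nat.div_lt_iff_lt_mul hK'0).2 (hKK ▸ j.2)⟩ : Fin (N + 1)) with hcol
  obtain ⟨n, hn1, hn2, hn3, hn4, hn5, hn6⟩ := hX1 X hXX1 t htmono.injective
    (fun j => ⟨htp j, htyy j, (htH j).trans hHc⟩) (N + 1) col K'
    (fun d => fib_div K K' N hK'0 hKK d) h2 bad hbadcard
  have hqn : q ∣ n := dvd_of_primes q n hqsf fun p hp hpq => hn6 p hp (Nat.le_of_dvd hq0 hpq)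
  -- the hit positions
  set J : Finset ℕ := (univ.filter (fun j : Fin K => (n + t j).Prime)).image (fun j : Fin K => (j : ℕ)) with hJ
  have hJK : ∀ x ∈ J, x < (N + 1) * K' := by
    intro x hx
    obtain ⟨j, _, rfl⟩ := mem_image.1 hx
    rw [← hKK]
    exact j.2
  have hJm : ∀ j : Fin K, (j : ℕ) ∈ J ↔ (n + t j).Prime := by
    intro j
    rw [hJ, mem_image]
    constructor
    · rintro ⟨i, hi, hij⟩
      rw [← Fin.ext hij]
      exact (mem_filter.1 hi).2
    · intro h
      exact ⟨j, mem_filter.2 ⟨mem_univ _, h⟩, rfl⟩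
  have hΦ : (k : ℝ) + 1 ≤ ∑ g ∈ range (N + 1), fn lam (J.filter (fun x => x / K' = g)).card := by
    refine h1.trans (hn4.trans (le_of_eq ?_))
    rw [← Fin.sum_univ_eq_sum_range (fun g => fn lam (J.filter (fun x => x / K' = g)).card) (N + 1)]
    apply sum_congr rfl
    intro g _
    congr 1
    have g1 : J.filter (fun x => x / K' = (g : ℕ)) =
        (univ.filter (fun i : Fin K => col i = g ∧ (n + t i).Prime)).image (fun j : Fin K => (j : ℕ)) := by
      ext x
      constructor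
      · intro hx
        obtain ⟨hx, hxg⟩ := mem_filter.1 hx
        obtain ⟨j, hj, rfl⟩ := mem_image.1 hx
        exact mem_image.2 ⟨j, mem_filter.2 ⟨mem_univ _, Fin.ext hxg, (mem_filter.1 hj).2⟩, rfl⟩
      · intro hx
        obtain ⟨j, hj, rfl⟩ := mem_image.1 hx
        obtain ⟨-, hj1, hj2⟩ := mem_filter.1 hj
        refine mem_filter.2 ⟨(hJm j).2 hj2, ?_⟩
        rw [← hj1]
    rw [g1, card_image_of_injective _ Fin.val_injective]
  have hBa : A' * E' ^ ((N + 1) * K') ≤ B' ∧ 3 * A' + 1 ≤ B' ∧ N ≤ B' := by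
    rw [hB']
    generalize A' * E' ^ ((N + 1) * K') = w
    omega
  obtain ⟨e₀, he₀, π, hπ, x, y', hx, hy', hxy⟩ := blockA (by omega : 1 ≤ K') rfl hlam hk hc J hJK
    hΦ σ s hs' hA'1 hE'.ge B' hBa.1 hBa.2.1 hBa.2.2
  refine ⟨π, ?_, x, y', hx, hy', hxy⟩
  rw [Set.Finite.mem_toFinset]
  by_contra hπP
  -- the primes
  have hjj : ∀ i, ∃ j : Fin K, i ≤ k → (j : ℕ) = el J (e₀ + i) := by
    intro i
    by_cases hi : i ≤ k
    · have g1 := hJK _ (el_mem J (show e₀ + i < J.card by omega))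
      rw [← hKK] at g1
      exact ⟨⟨el J (e₀ + i), g1⟩, fun _ => rfl⟩
    · exact ⟨⟨0, hK0⟩, fun h => absurd h hi⟩
  choose jj hjj using hjj
  set r : ℕ → ℕ := fun i => t (jj i) with hr
  have hjlt : ∀ i j, i < j → j ≤ k → jj i < jj j := by
    intro i j hij hj
    rw [Fin.lt_def, hjj i (by omega), hjj j hj]
    exact el_lt J (by omega) (by omega)
  have hrlt : ∀ i j, i < j → j ≤ k → r i < r j := fun i j hij hj => htlt _ _ (hjlt i j hij hj)
  obtain ⟨m, hm⟩ := nth_block n k r hrlt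
    (fun i hi => by
      rw [← hJm, hjj i hi]
      exact el_mem J (by omega))
    (by
      intro z hz1 hz2 hz3
      have g1 : (z : ℝ) ≤ c1 * ff X := by
        have : (z : ℝ) ≤ r k := by exact_mod_cast hz2
        exact this.trans ((htH _).trans hHc)
      obtain ⟨w, rfl⟩ := hn5 z g1 hz3
      obtain ⟨e, he, hew⟩ := el_surj J ((hJm w).2 hz3)
      have g2 : e₀ ≤ e := by
        by_contra hcon
        push Not at hcon
        have g3 : w < jj 0 := by
          rw [Fin.lt_def, hjj 0 (Nat.zero_le _), ← hew]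
          exact el_lt J (by omega) (by omega)
        have := htlt _ _ g3
        have g4 : r 0 = t (jj 0) := rfl
        omega
      have g3 : e ≤ e₀ + k := by
        by_contra hcon
        push Not at hcon
        have g3 : jj k < w := by
          rw [Fin.lt_def, hjj k le_rfl, ← hew]
          exact el_lt J hcon he
        have := htlt _ _ g3
        have g4 : r k = t (jj k) := rfl
        omega
      refine ⟨e - e₀, by omega, ?_⟩
      have g4 : w = jj (e - e₀) := by
        apply Fin.ext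
        rw [hjj (e - e₀) (by omega), Nat.add_sub_cancel' g2, hew]
      rw [hr]
      simp only
      rw [← g4])
  -- the gaps
  have hΔ : ∀ i, i < k → ((Nat.nth Nat.Prime (m + i + 1) : ℝ) - Nat.nth Nat.Prime (m + i) =
      (t (jj (i + 1)) : ℝ) - t (jj i)) ∧
      s0 * (gA s B' K' E' J (e₀ + i) : ℝ) - s0 / 8 ≤ (t (jj (i + 1)) : ℝ) - t (jj i) ∧
      (t (jj (i + 1)) : ℝ) - t (jj i) ≤ s0 * (gA s B' K' E' J (e₀ + i) : ℝ) + s0 / 8 := by
    intro i hi
    have g1 := hm i hi.le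
    have g2 := hm (i + 1) hi
    have g3 : (gA s B' K' E' J (e₀ + i) : ℝ) = (hA s B' K' E' (jj (i + 1)) : ℝ) - hA s B' K' E' (jj i) := by
      unfold gA
      rw [hjj i hi.le, hjj (i + 1) hi, ← add_assoc, Nat.cast_sub]
      exact (hmono (el_lt J (by omega) (by omega))).le
    refine ⟨?_, ?_⟩
    · rw [add_assoc, g2, g1, hr]
      push_cast
      ring
    · rw [g3]
      exact htdiff _ _
  have hgp1 : ∀ i, i < k → (1 : ℝ) ≤ gA s B' K' E' J (e₀ + i) := by
    intro i hi
    have g1 : hA s B' K' E' (el J (e₀ + i)) < hA s B' K' E' (el J (e₀ + i + 1)) :=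
      hmono (el_lt J (by omega) (by omega))
    have g2 : 1 ≤ gA s B' K' E' J (e₀ + i) := by
      unfold gA
      omega
    exact_mod_cast g2
  have hmO : Occ q a k A δ H X π m := by
    have h0' : ∀ i, i ≤ k → (Nat.nth Nat.Prime (m + i) : ℝ) = n + t (jj i) := by
      intro i hi
      rw [hm i hi]
      push_cast
      rfl
    have hinf : (Set.ofPred Nat.Prime).Infinite := Nat.infinite_setOfPred_prime
    refine ⟨?_, ?_, ?_, ?_, ?_, ?_⟩
    · have g1 := h0' 0 (Nat.zero_le _)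
      rw [add_zero] at g1
      rw [g1]
      have : (0 : ℝ) ≤ t (jj 0) := Nat.cast_nonneg _
      linarith
    · rw [h0' k le_rfl]
      have := htH (jj k)
      linarith
    · have g1 := h0' 0 (Nat.zero_le _)
      rw [add_zero] at g1
      rw [h0' k le_rfl, g1]
      have := htH (jj k)
      have : (0 : ℝ) ≤ t (jj 0) := Nat.cast_nonneg _
      linarith
    · intro i hi
      rw [hm i hi]
      have g1 : n ≡ 0 [MOD q] := (Nat.modEq_zero_iff_dvd).2 hqn
      have g2 := g1.add (hta (jj i))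
      rwa [zero_add] at g2
    · intro i hi
      obtain ⟨g1, g2, g3⟩ := hΔ i hi
      rw [g1]
      have g4 := mul_le_mul_of_nonneg_left (hgp1 i hi) hs0pos.le
      linarith
    · intro i j hij
      obtain ⟨a1, a2, a3⟩ := hΔ i i.2
      obtain ⟨b1, b2, b3⟩ := hΔ j j.2
      have hG : (A' : ℝ) * gA s B' K' E' J (e₀ + i) + 1 ≤ gA s B' K' E' J (e₀ + j) := by
        have := hπ i j hij
        exact_mod_cast this
      have hGi := hgp1 i i.2
      rw [a1, b1]
      generalize ((gA s B' K' E' J (e₀ + i) : ℕ) : ℝ) = Gi at *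
      generalize ((gA s B' K' E' J (e₀ + j) : ℕ) : ℝ) = Gj at *
      obtain ⟨α, hα⟩ : ∃ α : ℝ, α = (⌈|A|⌉₊ : ℝ) := ⟨_, rfl⟩
      have hα0 : 0 ≤ α := by rw [hα]; exact Nat.cast_nonneg _
      have hAα : A ≤ α := by rw [hα]; exact (le_abs_self A).trans (Nat.le_ceil _)
      have hA'r : (A' : ℝ) = 2 * α + 2 := by
        rw [hA', hα]
        push_cast
        ring
      have c1 := mul_le_mul_of_nonneg_left hG hs0pos.le
      rw [hA'r] at c1
      have c2 : 0 ≤ α * s0 * (Gi - 1) := mul_nonneg (by positivity) (by linarith)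
      have c3 : 0 ≤ s0 * (Gi - 1) := mul_nonneg hs0pos.le (by linarith)
      have c4 : s0 * ((2 * α + 2) * Gi + 1) = 2 * (α * s0 * Gi) + 2 * (s0 * Gi) + s0 := by ring
      rw [c4] at c1
      have c5 : α * s0 * (Gi - 1) = α * s0 * Gi - α * s0 := by ring
      have c6 : s0 * (Gi - 1) = s0 * Gi - s0 := by ring
      rw [c5] at c2
      rw [c6] at c3
      have c7 : 0 ≤ α * s0 := by positivity
      constructor
      · linarith
      · have c8 : 0 ≤ (t (jj (i + 1)) : ℝ) - t (jj i) := by linarith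
        calc A * ((t (jj (i + 1)) : ℝ) - t (jj i)) ≤ α * ((t (jj (i + 1)) : ℝ) - t (jj i)) :=
              mul_le_mul_of_nonneg_right hAα c8
          _ ≤ α * (s0 * Gi + s0 / 8) := mul_le_mul_of_nonneg_left a3 hα0
          _ = α * s0 * Gi + α * s0 / 8 := by ring
          _ ≤ s0 * Gj - s0 / 8 := by linarith
          _ ≤ _ := b2
  apply hn3
  rw [hbaddef, mem_biUnion]
  refine ⟨m, ?_, ?_⟩
  · rw [hG0, mem_biUnion]
    refine ⟨π, mem_filter.2 ⟨mem_univ _, hπP⟩, ?_⟩
    rw [Set.Finite.mem_toFinset]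
    exact hmO
  · have g1 := hm 0 (Nat.zero_le _)
    rw [add_zero] at g1
    rw [g1, Finset.mem_Icc]
    have g2 : r 0 ≤ ⌊H⌋₊ := Nat.le_floor (htH _)
    omega

end Pool.Agent.Helper274_RO
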