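import Pool.Agent.Helper274_RO.WinW
import Pool.Agent.Helper274_RO.Tree
import Pool.Agent.H362R2.RQ.Shapes

set_option autoImplicit false

/-! Orders of consecutive gaps of record size. The positions and the combinatorics are those of
`Pool.Agent.TH779.Ord` (helper779), the passage to the primes follows `Pool.Agent.TH29.GO.Record` (helper29). -/

open Finset Filter

namespace Pool.Agent.Helper274_RO

open Pool.Agent.H362R2.RQ
open Pool.Agent.H378R2 (yy gam gam_pos gam_ge)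
open Pool.Agent.H256R2.SC (ff)
open Pool.Agent.H312R2.RG.C3 (ff_tendsto ff_small)
open Pool.Agent.TH779.Ord (el el_mem el_lt el_surj)

/-- a block of hits is a block of consecutive primes -/
theorem nth_block (n k : ℕ) (r : ℕ → ℕ) (hr : ∀ i j, i < j → j ≤ k → r i < r j)
    (hp : ∀ i ≤ k, (n + r i).Prime)
    (hno : ∀ y, r 0 ≤ y → y ≤ r k → (n + y).Prime → ∃ i ≤ k, y = r i) :
    ∃ m : ℕ, ∀ i ≤ k, Nat.nth Nat.Prime (m + i) = n + r i := by
  have hinf : (Set.ofPred Nat.Prime).Infinite := Nat.infinite_setOfPred_prime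
  have hle : ∀ i j, i ≤ j → j ≤ k → r i ≤ r j := by
    intro i j hij hj
    rcases Nat.lt_or_eq_of_le hij with h | h
    · exact (hr i j h hj).le
    · rw [h]
  refine ⟨Nat.count Nat.Prime (n + r 0), fun i => ?_⟩
  induction i with
  | zero =>
    intro _
    rw [add_zero]
    exact Nat.nth_count (hp 0 (Nat.zero_le _))
  | succ i ih =>
    intro hi
    have h1 := ih (by omega)
    set m := Nat.count Nat.Prime (n + r 0) with hm
    have h2 : Nat.nth Nat.Prime (m + i) < Nat.nth Nat.Prime (m + (i + 1)) :=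
      Nat.nth_strictMono hinf (by omega)
    have h3 : Nat.nth Nat.Prime (Nat.count Nat.Prime (n + r (i + 1))) = n + r (i + 1) :=
      Nat.nth_count (hp (i + 1) hi)
    have h4 : m + i < Nat.count Nat.Prime (n + r (i + 1)) := by
      have := hr i (i + 1) (by omega) hi
      rw [← (Nat.nth_strictMono hinf).lt_iff_lt, h3, h1]
      omega
    have h5 : Nat.nth Nat.Prime (m + (i + 1)) ≤ n + r (i + 1) := by
      rw [← h3]
      exact (Nat.nth_strictMono hinf).monotone (by omega)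
    have h6 : (Nat.nth Nat.Prime (m + (i + 1))).Prime := Nat.prime_nth_prime _
    rw [h1] at h2
    obtain ⟨y, hy⟩ : ∃ y, Nat.nth Nat.Prime (m + (i + 1)) = n + y :=
      ⟨Nat.nth Nat.Prime (m + (i + 1)) - n, by omega⟩
    rw [hy] at h2 h5 h6 ⊢
    have h7 : r 0 ≤ r i := hle 0 i (Nat.zero_le _) (by omega)
    have h8 : r (i + 1) ≤ r k := hle (i + 1) k hi le_rfl
    obtain ⟨j, hj, hyj⟩ := hno y (by omega) (by omega) h6
    rcases lt_trichotomy j (i + 1) with h | h | h
    · have := hle j i (by omega) (by omega)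
      omega
    · rw [hyj, h]
    · have := hr (i + 1) j h hj
      omega

/-- the `k` gaps after the prime with the number `n` are at least `c H`, sum up to at most `H`, and are
ordered like `π`, with quotients at least `A`; the primes lie in `(X, 4X]` and in the class of `a`
modulo `q` -/
def Occ (q a k : ℕ) (A c H X : ℝ) (π : Equiv.Perm (Fin k)) (n : ℕ) : Prop :=
  X < (Nat.nth Nat.Prime n : ℝ) ∧ (Nat.nth Nat.Prime (n + k) : ℝ) ≤ 4 * X ∧
  (Nat.nth Nat.Prime (n + k) : ℝ) ≤ Nat.nth Nat.Prime n + H ∧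
  (∀ i ≤ k, Nat.nth Nat.Prime (n + i) ≡ a [MOD q]) ∧
  (∀ i < k, c * H ≤ (Nat.nth Nat.Prime (n + i + 1) : ℝ) - Nat.nth Nat.Prime (n + i)) ∧
  ∀ i j : Fin k, π i < π j →
    (Nat.nth Nat.Prime (n + i + 1) : ℝ) - Nat.nth Nat.Prime (n + i) <
      (Nat.nth Nat.Prime (n + j + 1) : ℝ) - Nat.nth Nat.Prime (n + j) ∧
    A * ((Nat.nth Nat.Prime (n + i + 1) : ℝ) - Nat.nth Nat.Prime (n + i)) ≤
      (Nat.nth Nat.Prime (n + j + 1) : ℝ) - Nat.nth Nat.Prime (n + j)

/-- the orders which occur at least `X ^ (7 / 8)` times -/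
def PR (q a k : ℕ) (A c H X : ℝ) : Set (Equiv.Perm (Fin k)) :=
  {π | X ^ (7 / 8 : ℝ) ≤ ({n : ℕ | Occ q a k A c H X π n}.ncard : ℝ)}

theorem occ_finite (q a k : ℕ) (A c H X : ℝ) (π : Equiv.Perm (Fin k)) :
    {n : ℕ | Occ q a k A c H X π n}.Finite := by
  apply (Set.finite_Iic ⌊4 * X⌋₊).subset
  intro n hn
  rw [Set.mem_Iic]
  refine Nat.le_floor (le_trans ?_ hn.2.1)
  have h2 : n + k ≤ Nat.nth Nat.Prime (n + k) :=
    (Nat.nth_strictMono Nat.infinite_setOfPred_prime).le_apply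
  exact_mod_cast (Nat.le_add_right n k).trans h2

theorem manyW_of {k τ B : ℕ} (hk : 1 ≤ k) (hB1 : 1 ≤ B) (hτ : τ ≤ B)
    (h1 : (k : ℝ) + 1 ≤ kap * B / (128 * gam))
    (h2 : 64 * gam / kap * (B * ((2 ^ (B - τ + 1) : ℕ) : ℝ)) ≤ 2 ^ B) (A : ℝ) :
    ∃ δ : ℝ, 0 < δ ∧ ∀ q a : ℕ, Squarefree q → a.Coprime q → ∀ᶠ X : ℝ in atTop,
      ∀ H : ℝ, Real.log X ≤ H → H ≤ δ * ff X →
      k.factorial ^ 2 ≤ (PR q a k A δ H X).ncard *
        ((2 ^ τ) ^ k * 2 ^ (2 * k) * (2 ^ (2 * k + k)) ^ 3) := by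
  classical
  obtain ⟨K, hK, c1, hc1, hmain⟩ := fewW B hB1
  obtain ⟨V, hV⟩ : ∃ V : ℕ, V = B - τ := ⟨_, rfl⟩
  rw [← hV] at h2
  have hVτ : V + τ = B := by omega
  have hK0 : 0 < K := by rw [hK]; exact Nat.pow_pos (by norm_num)
  obtain ⟨N, hN⟩ : ∃ N : ℕ, N = 2 ^ B - 1 := ⟨_, rfl⟩
  have hKN : K = N + 1 := by omega
  obtain ⟨A', hA'⟩ : ∃ A' : ℕ, A' = 2 * ⌈|A|⌉₊ + 2 := ⟨_, rfl⟩
  have hA'1 : 1 ≤ A' := by omega
  obtain ⟨B', hB'⟩ : ∃ B' : ℕ, B' = 2 * A' + 1 + N := ⟨_, rfl⟩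
  obtain ⟨D0, hD0⟩ : ∃ D0 : ℕ, D0 = N * B' ^ (N + 1) := ⟨_, rfl⟩
  obtain ⟨D, hDdef⟩ : ∃ D : ℝ, D = (D0 : ℝ) + 1 := ⟨_, rfl⟩
  have hD1 : 1 ≤ D := by
    rw [hDdef]
    have : (0 : ℝ) ≤ D0 := Nat.cast_nonneg _
    linarith
  have hDpos : 0 < D := by linarith
  obtain ⟨ε, hε⟩ : ∃ ε : ℝ, ε = 1 / (64 * D) := ⟨_, rfl⟩
  have hεpos : 0 < ε := by rw [hε]; positivity
  obtain ⟨δ, hδ⟩ : ∃ δ : ℝ, δ = min c1 (1 / (16 * D)) := ⟨_, rfl⟩
  have hδpos : 0 < δ := by rw [hδ]; exact lt_min hc1 (by positivity)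
  have hδc : δ ≤ c1 := by rw [hδ]; exact min_le_left _ _
  have hδD : δ ≤ 1 / (16 * D) := by rw [hδ]; exact min_le_right _ _
  refine ⟨δ, hδpos, ?_⟩
  intro q a hqsf haq
  have hq0 : 0 < q := Nat.pos_of_ne_zero hqsf.ne_zero
  obtain ⟨X1, hX1⟩ := hmain q
  obtain ⟨Y0, hY0⟩ := Filter.eventually_atTop.1 (exists_prime_mod q hq0 a haq ε hεpos)
  have hkf : (1 : ℝ) ≤ k.factorial := by exact_mod_cast Nat.factorial_pos k
  filter_upwards [eventually_ge_atTop X1, ev_bad ((k.factorial : ℝ) * c1 + k.factorial) (by positivity),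
    ff_small (c1 + 1) (by linarith), Real.tendsto_log_atTop.eventually_ge_atTop (4 * |Y0| + 4),
    eventually_ge_atTop (1 : ℝ), ff_tendsto.eventually_ge_atTop 1]
    with X hXX1 hbadX hsmall hlY hX1' hff1
  intro H hHl hHδ
  have hHc : H ≤ c1 * ff X := hHδ.trans (mul_le_mul_of_nonneg_right hδc (by linarith))
  have hHY : 4 * |Y0| + 4 ≤ H := hlY.trans hHl
  have hlX : 1 ≤ Real.log X := by
    have := abs_nonneg Y0
    linarith
  have hHpos : 0 < H := by
    have := abs_nonneg Y0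
    linarith
  have hHX : H ≤ X := by
    have : (c1 + 1) * ff X = c1 * ff X + ff X := by ring
    linarith
  obtain ⟨s0, hs0⟩ : ∃ s0 : ℝ, s0 = H / (8 * D) := ⟨_, rfl⟩
  have hs0pos : 0 < s0 := by rw [hs0]; positivity
  have hs0D : s0 * D = H / 8 := by rw [hs0]; field_simp
  have hs0H : s0 ≤ H / 8 := by
    have : s0 * 1 ≤ s0 * D := mul_le_mul_of_nonneg_left hD1 hs0pos.le
    linarith
  have hεs : ε * H = s0 / 8 := by rw [hε, hs0]; field_simp; norm_num
  have hδs : δ * H ≤ s0 / 2 := by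
    have h3 : δ * H ≤ 1 / (16 * D) * H := mul_le_mul_of_nonneg_right hδD hHpos.le
    have h4 : 1 / (16 * D) * H = s0 / 2 := by rw [hs0]; field_simp; norm_num
    linarith
  -- counting
  have hfin : (PR q a k A δ H X).Finite := Set.toFinite _
  rw [Set.ncard_eq_toFinset_card _ hfin]
  apply many_patterns (fun i : Fin (2 ^ B - 1) => lvl V i) V (2 ^ τ) (2 * k) (fun l => lvl_le V l)
    (fun a => lvl_card B τ V a hVτ)
  rw [← hN]
  intro e he
  set s : ℕ → ℕ := fun l => if h : l < N then (e ⟨l, h⟩ : ℕ) else 0 with hs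
  have hs' : ∀ (l : ℕ) (h : l < N), s l = (e ⟨l, h⟩ : ℕ) := by
    intro l h
    rw [hs]
    simp only [h, dite_true]
  have hsN : ∀ l, s l ≤ N := by
    intro l
    by_cases h : l < N
    · rw [hs' l h]
      exact (e ⟨l, h⟩).2.le
    · rw [hs]
      simp only [h, dite_false]
      exact Nat.zero_le _
  have hB'1 : 1 ≤ B' := by omega
  have hmono : StrictMono (hB s B') := hB_strictMono s hB'1
  have hoD : ∀ x < K, (hB s B' x : ℝ) ≤ D := by
    intro x hx
    have h4 : hB s B' x ≤ D0 := by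
      rw [hD0]
      exact hB_le s B' N x N hsN (by omega) hB'1
    have h5 : (hB s B' x : ℝ) ≤ D0 := by exact_mod_cast h4
    linarith
  set y : Fin K → ℝ := fun j => H / 4 + s0 * (hB s B' j : ℝ) with hy
  have hso : ∀ j : Fin K, 0 ≤ s0 * (hB s B' j : ℝ) ∧ s0 * (hB s B' j : ℝ) ≤ H / 8 := by
    intro j
    refine ⟨by positivity, ?_⟩
    rw [← hs0D]
    exact mul_le_mul_of_nonneg_left (hoD j j.2) hs0pos.le
  have hylow : ∀ j, H / 4 ≤ y j := by
    intro j
    have h3 := (hso j).1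
    simp only [hy]
    linarith
  have hyup : ∀ j, y j ≤ 3 * H / 8 := by
    intro j
    have h3 := (hso j).2
    simp only [hy]
    linarith
  have hex : ∀ j, ∃ p : ℕ, p.Prime ∧ p ≡ a [MOD q] ∧ y j < p ∧ (p : ℝ) ≤ y j + s0 / 8 := by
    intro j
    have h3 := hylow j
    obtain ⟨p, hp, hpa, hp1, hp2⟩ := hY0 (y j) (by
      have := le_abs_self Y0
      linarith)
    refine ⟨p, hp, hpa, hp1, hp2.trans ?_⟩
    have h4 : ε * y j ≤ ε * H := mul_le_mul_of_nonneg_left (by linarith [hyup j]) hεpos.le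
    linarith
  choose t htp hta htl htu using hex
  have htdiff : ∀ j j' : Fin K, s0 * ((hB s B' j' : ℝ) - hB s B' j) - s0 / 8 ≤ (t j' : ℝ) - t j ∧
      (t j' : ℝ) - t j ≤ s0 * ((hB s B' j' : ℝ) - hB s B' j) + s0 / 8 := by
    intro j j'
    have g1 := htl j
    have g2 := htu j
    have g3 := htl j'
    have g4 := htu j'
    simp only [hy] at g1 g2 g3 g4
    constructor <;> nlinarith
  have htlt : ∀ j j' : Fin K, j < j' → t j < t j' := by
    intro j j' hjj
    have g1 := (htdiff j j').1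
    have g2 : (1 : ℝ) ≤ (hB s B' j' : ℝ) - hB s B' j := by
      have : hB s B' j + 1 ≤ hB s B' j' := hmono hjj
      have g3 : ((hB s B' j + 1 : ℕ) : ℝ) ≤ (hB s B' j' : ℝ) := by exact_mod_cast this
      push_cast at g3
      linarith
    have g3 : s0 * 1 ≤ s0 * ((hB s B' j' : ℝ) - hB s B' j) := mul_le_mul_of_nonneg_left g2 hs0pos.le
    have g5 : (t j : ℝ) < t j' := by linarith
    exact_mod_cast g5
  have htmono : StrictMono t := fun j j' h => htlt j j' h
  have htH : ∀ j, (t j : ℝ) ≤ H := by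
    intro j
    have g1 := htu j
    have g2 := hyup j
    linarith
  have htyy : ∀ j, yy X < t j := by
    intro j
    have g1 : (yy X : ℝ) ≤ Real.log X / 1000 := Nat.floor_le (by positivity)
    have g4 := hylow j
    have g5 := htl j
    have g6 : (yy X : ℝ) < t j := by linarith
    exact_mod_cast g6
  -- the exceptional set
  set G0 : Finset ℕ := (univ.filter (fun π : Equiv.Perm (Fin k) => π ∉ PR q a k A δ H X)).biUnion
    (fun π => (occ_finite q a k A δ H X π).toFinset) with hG0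
  have hG0card : (G0.card : ℝ) ≤ k.factorial * X ^ (7 / 8 : ℝ) := by
    have g1 : G0.card ≤ ∑ π ∈ univ.filter (fun π : Equiv.Perm (Fin k) => π ∉ PR q a k A δ H X),
        ((occ_finite q a k A δ H X π).toFinset).card := card_biUnion_le
    have g2 : ((∑ π ∈ univ.filter (fun π : Equiv.Perm (Fin k) => π ∉ PR q a k A δ H X),
        ((occ_finite q a k A δ H X π).toFinset).card : ℕ) : ℝ) ≤
        ∑ _π ∈ univ.filter (fun π : Equiv.Perm (Fin k) => π ∉ PR q a k A δ H X),
          X ^ (7 / 8 : ℝ) := by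
      push_cast
      apply sum_le_sum
      intro π hπ
      rw [mem_filter] at hπ
      have g3 : ¬ X ^ (7 / 8 : ℝ) ≤ ({n : ℕ | Occ q a k A δ H X π n}.ncard : ℝ) := hπ.2
      rw [Set.ncard_eq_toFinset_card _ (occ_finite q a k A δ H X π)] at g3
      exact (not_le.1 g3).le
    rw [sum_const, nsmul_eq_mul] at g2
    have g3 : ((univ.filter (fun π : Equiv.Perm (Fin k) => π ∉ PR q a k A δ H X)).card : ℝ) ≤
        k.factorial := by
      have g4 : (univ : Finset (Equiv.Perm (Fin k))).card = k.factorial := by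
        rw [card_univ, Fintype.card_perm, Fintype.card_fin]
      rw [← g4]
      exact_mod_cast card_filter_le _ _
    calc (G0.card : ℝ) ≤ _ := by exact_mod_cast g1
      _ ≤ _ := g2
      _ ≤ _ := mul_le_mul_of_nonneg_right g3 (Real.rpow_nonneg (by linarith) _)
  set bad : Finset ℕ := G0.biUnion (fun g => Icc (Nat.nth Nat.Prime g - ⌊H⌋₊) (Nat.nth Nat.Prime g))
    with hbaddef
  have hbadcard : (bad.card : ℝ) ≤ X ^ (9 / 10 : ℝ) := by
    have g1 : bad.card ≤ G0.card * (⌊H⌋₊ + 1) := by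
      refine Finset.card_biUnion_le.trans ?_
      have g2 : ∀ g ∈ G0, (Icc (Nat.nth Nat.Prime g - ⌊H⌋₊) (Nat.nth Nat.Prime g)).card ≤
          ⌊H⌋₊ + 1 := by
        intro g _
        rw [Nat.card_Icc]
        omega
      exact (Finset.sum_le_card_nsmul _ _ _ g2).trans (le_of_eq (by rw [smul_eq_mul]))
    have g3 : ((⌊H⌋₊ + 1 : ℕ) : ℝ) ≤ c1 * ff X + 1 := by
      push_cast
      have := Nat.floor_le hHpos.le
      linarith
    have hrp : 0 ≤ X ^ (7 / 8 : ℝ) := Real.rpow_nonneg (by linarith) _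
    calc (bad.card : ℝ) ≤ ((G0.card * (⌊H⌋₊ + 1) : ℕ) : ℝ) := by exact_mod_cast g1
      _ = (G0.card : ℝ) * ((⌊H⌋₊ + 1 : ℕ) : ℝ) := by push_cast; ring
      _ ≤ (k.factorial * X ^ (7 / 8 : ℝ)) * (c1 * ff X + 1) := by
          apply mul_le_mul hG0card g3 (Nat.cast_nonneg _) (by positivity)
      _ = X ^ (7 / 8 : ℝ) * (k.factorial * (c1 * ff X) + k.factorial * 1) := by ring
      _ ≤ X ^ (7 / 8 : ℝ) * (((k.factorial : ℝ) * c1 + k.factorial) * ff X + 1) := by
          apply mul_le_mul_of_nonneg_left _ hrp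
          have : (k.factorial : ℝ) * 1 ≤ k.factorial * ff X := mul_le_mul_of_nonneg_left hff1 (by linarith)
          linarith
      _ ≤ _ := hbadX
  -- the tuple
  have hrow : ∀ i : Fin K, ∑ j ∈ univ.filter (fun j : Fin K => i ≠ j), (cl V i j : ℝ) ≤
      ((2 ^ (V + 1) : ℕ) : ℝ) := by
    intro i
    have g1 : ∑ j ∈ univ.filter (fun j : Fin K => i ≠ j), cl V i j ≤ 2 ^ (V + 1) := by
      refine (sum_le_sum_of_subset (filter_subset _ _)).trans ?_
      rw [Fin.sum_univ_eq_sum_range (fun j => cl V i j) K]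
      exact cl_row V K i
    exact_mod_cast g1
  obtain ⟨n, hn1, hn2, hn3, hn4, hn5, hn6⟩ := hX1 X hXX1 t htmono.injective
    (fun j => ⟨htp j, htyy j, (htH j).trans hHc⟩) (fun i j : Fin K => (cl V i j : ℝ))
    ((2 ^ (V + 1) : ℕ) : ℝ) (fun i j => Nat.cast_nonneg _) hrow h2 bad hbadcard
  have hqn : q ∣ n := dvd_of_primes q n hqsf fun p hp hpq => hn6 p hp (Nat.le_of_dvd hq0 hpq)
  -- the hit positions
  set J : Finset ℕ := (univ.filter (fun j : Fin K => (n + t j).Prime)).image (fun j : Fin K => (j : ℕ)) with hJ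
  have hJK : ∀ x ∈ J, x ≤ N := by
    intro x hx
    obtain ⟨j, _, rfl⟩ := mem_image.1 hx
    have := j.2
    omega
  have hJm : ∀ j : Fin K, (j : ℕ) ∈ J ↔ (n + t j).Prime := by
    intro j
    rw [hJ, mem_image]
    constructor
    · rintro ⟨i, hi, hij⟩
      rw [← Fin.ext hij]
      exact (mem_filter.1 hi).2
    · intro h
      exact ⟨j, mem_filter.2 ⟨mem_univ _, h⟩, rfl⟩
  have hJcard : J.card = (univ.filter (fun j : Fin K => (n + t j).Prime)).card := by
    rw [hJ]
    exact card_image_of_injective _ Fin.val_injective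
  have hJsum : ∑ x ∈ J, ∑ y ∈ J.filter (fun y => x ≠ y), cl V x y =
      ∑ i ∈ univ.filter (fun i : Fin K => (n + t i).Prime),
        ∑ j ∈ univ.filter (fun j : Fin K => i ≠ j ∧ (n + t j).Prime), cl V i j := by
    rw [hJ, sum_image (fun x _ y _ h => Fin.val_injective h)]
    refine sum_congr rfl fun i _ => ?_
    have g1 : ((univ.filter (fun j : Fin K => (n + t j).Prime)).image (fun j : Fin K => (j : ℕ))).filter
        (fun y => (i : ℕ) ≠ y) =
        (univ.filter (fun j : Fin K => i ≠ j ∧ (n + t j).Prime)).image (fun j : Fin K => (j : ℕ)) := by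
      ext x
      constructor
      · intro hx
        obtain ⟨hx, hxi⟩ := mem_filter.1 hx
        obtain ⟨j, hj, rfl⟩ := mem_image.1 hx
        exact mem_image.2 ⟨j, mem_filter.2 ⟨mem_univ _, fun h => hxi (by rw [h]), (mem_filter.1 hj).2⟩, rfl⟩
      · intro hx
        obtain ⟨j, hj, rfl⟩ := mem_image.1 hx
        obtain ⟨-, hj1, hj2⟩ := mem_filter.1 hj
        exact mem_filter.2 ⟨mem_image.2 ⟨j, mem_filter.2 ⟨mem_univ _, hj2⟩, rfl⟩,
          fun h => hj1 (Fin.ext h)⟩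
    rw [g1, sum_image (fun x _ y _ h => Fin.val_injective h)]
  have hΦ : (k : ℝ) + 1 ≤ (J.card : ℝ) -
      ((∑ x ∈ J, ∑ y ∈ J.filter (fun y => x ≠ y), cl V x y : ℕ) : ℝ) := by
    rw [hJcard, hJsum]
    push_cast
    exact h1.trans hn4
  have hJk : k + 1 ≤ J.card := by
    have g1 : (0 : ℝ) ≤ ((∑ x ∈ J, ∑ y ∈ J.filter (fun y => x ≠ y), cl V x y : ℕ) : ℝ) :=
      Nat.cast_nonneg _
    have g2 : ((k + 1 : ℕ) : ℝ) ≤ (J.card : ℝ) := by
      push_cast
      linarith
    exact_mod_cast g2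
  have hJw : ∑ e ∈ range (J.card - 1), cl V (el J e) (el J (e + 1)) ≤ J.card := by
    refine (consec_le J (cl V)).trans ?_
    have g2 : ((∑ x ∈ J, ∑ y ∈ J.filter (fun y => x ≠ y), cl V x y : ℕ) : ℝ) ≤ (J.card : ℝ) := by
      have : (0 : ℝ) ≤ k := Nat.cast_nonneg k
      linarith
    exact_mod_cast g2
  obtain ⟨e₀, he₀, π, hπ, y', hy', hyl, hxy⟩ := blockW J hJK hk hJk hJw e he s hs' hA'1 B'
    (by omega) (by omega)
  refine ⟨π, ?_, y', hy', hyl, hxy⟩
  rw [Set.Finite.mem_toFinset]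
  by_contra hπP
  -- the primes
  have hjj : ∀ i, ∃ j : Fin K, i ≤ k → (j : ℕ) = el J (e₀ + i) := by
    intro i
    by_cases hi : i ≤ k
    · have g1 := hJK _ (el_mem J (show e₀ + i < J.card by omega))
      exact ⟨⟨el J (e₀ + i), by omega⟩, fun _ => rfl⟩
    · exact ⟨⟨0, hK0⟩, fun h => absurd h hi⟩
  choose jj hjj using hjj
  set r : ℕ → ℕ := fun i => t (jj i) with hr
  have hjlt : ∀ i j, i < j → j ≤ k → jj i < jj j := by
    intro i j hij hj
    rw [Fin.lt_def, hjj i (by omega), hjj j hj]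
    exact el_lt J (by omega) (by omega)
  have hrlt : ∀ i j, i < j → j ≤ k → r i < r j := fun i j hij hj => htlt _ _ (hjlt i j hij hj)
  obtain ⟨m, hm⟩ := nth_block n k r hrlt
    (fun i hi => by
      rw [← hJm, hjj i hi]
      exact el_mem J (by omega))
    (by
      intro z hz1 hz2 hz3
      have g1 : (z : ℝ) ≤ c1 * ff X := by
        have : (z : ℝ) ≤ r k := by exact_mod_cast hz2
        exact this.trans ((htH _).trans hHc)
      obtain ⟨w, rfl⟩ := hn5 z g1 hz3
      obtain ⟨e, he, hew⟩ := el_surj J ((hJm w).2 hz3)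
      have g2 : e₀ ≤ e := by
        by_contra hcon
        push Not at hcon
        have g3 : w < jj 0 := by
          rw [Fin.lt_def, hjj 0 (Nat.zero_le _), ← hew]
          exact el_lt J (by omega) (by omega)
        have := htlt _ _ g3
        have g4 : r 0 = t (jj 0) := rfl
        omega
      have g3 : e ≤ e₀ + k := by
        by_contra hcon
        push Not at hcon
        have g3 : jj k < w := by
          rw [Fin.lt_def, hjj k le_rfl, ← hew]
          exact el_lt J hcon he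
        have := htlt _ _ g3
        have g4 : r k = t (jj k) := rfl
        omega
      refine ⟨e - e₀, by omega, ?_⟩
      have g4 : w = jj (e - e₀) := by
        apply Fin.ext
        rw [hjj (e - e₀) (by omega), Nat.add_sub_cancel' g2, hew]
      rw [hr]
      simp only
      rw [← g4])
  -- the gaps
  have hΔ : ∀ i, i < k → ((Nat.nth Nat.Prime (m + i + 1) : ℝ) - Nat.nth Nat.Prime (m + i) =
      (t (jj (i + 1)) : ℝ) - t (jj i)) ∧
      s0 * (gB s B' J (e₀ + i) : ℝ) - s0 / 8 ≤ (t (jj (i + 1)) : ℝ) - t (jj i) ∧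
      (t (jj (i + 1)) : ℝ) - t (jj i) ≤ s0 * (gB s B' J (e₀ + i) : ℝ) + s0 / 8 := by
    intro i hi
    have g1 := hm i hi.le
    have g2 := hm (i + 1) hi
    have g3 : (gB s B' J (e₀ + i) : ℝ) = (hB s B' (jj (i + 1)) : ℝ) - hB s B' (jj i) := by
      unfold gB
      rw [hjj i hi.le, hjj (i + 1) hi, ← add_assoc, Nat.cast_sub]
      exact (hmono (el_lt J (by omega) (by omega))).le
    refine ⟨?_, ?_⟩
    · rw [add_assoc, g2, g1, hr]
      push_cast
      ring
    · rw [g3]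
      exact htdiff _ _
  have hgp1 : ∀ i, i < k → (1 : ℝ) ≤ gB s B' J (e₀ + i) := by
    intro i hi
    have g1 : hB s B' (el J (e₀ + i)) < hB s B' (el J (e₀ + i + 1)) :=
      hmono (el_lt J (by omega) (by omega))
    have g2 : 1 ≤ gB s B' J (e₀ + i) := by
      unfold gB
      omega
    exact_mod_cast g2
  have hmO : Occ q a k A δ H X π m := by
    have h0' : ∀ i, i ≤ k → (Nat.nth Nat.Prime (m + i) : ℝ) = n + t (jj i) := by
      intro i hi
      rw [hm i hi]
      push_cast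
      rfl
    have hinf : (Set.ofPred Nat.Prime).Infinite := Nat.infinite_setOfPred_prime
    refine ⟨?_, ?_, ?_, ?_, ?_, ?_⟩
    · have g1 := h0' 0 (Nat.zero_le _)
      rw [add_zero] at g1
      rw [g1]
      have : (0 : ℝ) ≤ t (jj 0) := Nat.cast_nonneg _
      linarith
    · rw [h0' k le_rfl]
      have := htH (jj k)
      linarith
    · have g1 := h0' 0 (Nat.zero_le _)
      rw [add_zero] at g1
      rw [h0' k le_rfl, g1]
      have := htH (jj k)
      have : (0 : ℝ) ≤ t (jj 0) := Nat.cast_nonneg _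
      linarith
    · intro i hi
      rw [hm i hi]
      have g1 : n ≡ 0 [MOD q] := (Nat.modEq_zero_iff_dvd).2 hqn
      have g2 := g1.add (hta (jj i))
      rwa [zero_add] at g2
    · intro i hi
      obtain ⟨g1, g2, g3⟩ := hΔ i hi
      rw [g1]
      have g4 := mul_le_mul_of_nonneg_left (hgp1 i hi) hs0pos.le
      linarith
    · intro i j hij
      obtain ⟨a1, a2, a3⟩ := hΔ i i.2
      obtain ⟨b1, b2, b3⟩ := hΔ j j.2
      have hG : (A' : ℝ) * gB s B' J (e₀ + i) + 1 ≤ gB s B' J (e₀ + j) := by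
        have := hπ i j hij
        exact_mod_cast this
      have hGi := hgp1 i i.2
      rw [a1, b1]
      generalize ((gB s B' J (e₀ + i) : ℕ) : ℝ) = Gi at *
      generalize ((gB s B' J (e₀ + j) : ℕ) : ℝ) = Gj at *
      obtain ⟨α, hα⟩ : ∃ α : ℝ, α = (⌈|A|⌉₊ : ℝ) := ⟨_, rfl⟩
      have hα0 : 0 ≤ α := by rw [hα]; exact Nat.cast_nonneg _
      have hAα : A ≤ α := by rw [hα]; exact (le_abs_self A).trans (Nat.le_ceil _)
      have hA'r : (A' : ℝ) = 2 * α + 2 := by
        rw [hA', hα]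
        push_cast
        ring
      have c1 := mul_le_mul_of_nonneg_left hG hs0pos.le
      rw [hA'r] at c1
      have c2 : 0 ≤ α * s0 * (Gi - 1) := mul_nonneg (by positivity) (by linarith)
      have c3 : 0 ≤ s0 * (Gi - 1) := mul_nonneg hs0pos.le (by linarith)
      have c4 : s0 * ((2 * α + 2) * Gi + 1) = 2 * (α * s0 * Gi) + 2 * (s0 * Gi) + s0 := by ring
      rw [c4] at c1
      have c5 : α * s0 * (Gi - 1) = α * s0 * Gi - α * s0 := by ring
      have c6 : s0 * (Gi - 1) = s0 * Gi - s0 := by ring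
      rw [c5] at c2
      rw [c6] at c3
      have c7 : 0 ≤ α * s0 := by positivity
      constructor
      · linarith
      · have c8 : 0 ≤ (t (jj (i + 1)) : ℝ) - t (jj i) := by linarith
        calc A * ((t (jj (i + 1)) : ℝ) - t (jj i)) ≤ α * ((t (jj (i + 1)) : ℝ) - t (jj i)) :=
              mul_le_mul_of_nonneg_right hAα c8
          _ ≤ α * (s0 * Gi + s0 / 8) := mul_le_mul_of_nonneg_left a3 hα0
          _ = α * s0 * Gi + α * s0 / 8 := by ring
          _ ≤ s0 * Gj - s0 / 8 := by linarith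
          _ ≤ _ := b2
  apply hn3
  rw [hbaddef, mem_biUnion]
  refine ⟨m, ?_, ?_⟩
  · rw [hG0, mem_biUnion]
    refine ⟨π, mem_filter.2 ⟨mem_univ _, hπP⟩, ?_⟩
    rw [Set.Finite.mem_toFinset]
    exact hmO
  · have g1 := hm 0 (Nat.zero_le _)
    rw [add_zero] at g1
    rw [g1, Finset.mem_Icc]
    have g2 : r 0 ≤ ⌊H⌋₊ := Nat.le_floor (htH _)
    omega

end Pool.Agent.Helper274_RO
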