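import Pool.Agent.H362R2.RQ.Main
import Pool.Agent.H362R2.RQ.Fin
import Pool.Agent.Helper274_RO.Fam
import Pool.Agent.Helper274_RO.FewW

set_option autoImplicit false

/-! The Maynard-Tao theorem inside the record windows, with few close pairs of primes: arbitrary weights of
the pairs. Adapted from `Pool.Agent.H362R2.RQ.Main` (helper362). -/

open Finset Filter
open scoped ContDiff

namespace Pool.Agent.Helper274_RO

open Pool.Agent.H378R2
open Pool.Agent.H312R2.RG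
open Pool.Agent.H398R2.PG (Et EE_sub_Et Et_res)
open Pool.Agent.H256R2.SC (ff)
open Pool.Agent.H362R2.RQ

theorem PhiW_le {K : ℕ} (w : Fin K → Fin K → ℝ) (hw : ∀ i j, 0 ≤ w i j) (θ : Fin K → ℝ)
    (pr : Fin K → Prop) [DecidablePred pr]
    (h0 : ∀ i, ¬ pr i → θ i = 0) (h1 : ∀ i, pr i → 1 / 2 ≤ θ i ∧ θ i ≤ 1) :
    PhiW (fun i j => 4 * w i j) θ ≤ ((univ.filter pr).card : ℝ) -
      ∑ i ∈ univ.filter pr, ∑ j ∈ univ.filter (fun j => i ≠ j ∧ pr j), w i j := by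
  classical
  have hpos : ∀ i, 0 ≤ θ i := by
    intro i
    by_cases h : pr i
    · linarith [(h1 i h).1]
    · rw [h0 i h]
  have hnn : ∀ i j, 0 ≤ 4 * w i j * (θ i * θ j) := fun i j =>
    mul_nonneg (by have := hw i j; linarith) (mul_nonneg (hpos i) (hpos j))
  have e1 : ∑ i, θ i ≤ ((univ.filter pr).card : ℝ) := by
    calc ∑ i, θ i = ∑ i ∈ univ.filter pr, θ i := by
          rw [sum_filter]
          refine sum_congr rfl fun i _ => ?_
          by_cases h : pr i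
          · rw [if_pos h]
          · rw [if_neg h, h0 i h]
      _ ≤ ∑ _i ∈ univ.filter pr, (1 : ℝ) := sum_le_sum fun i hi => (h1 i (mem_filter.1 hi).2).2
      _ = _ := by rw [sum_const, nsmul_eq_mul, mul_one]
  have e2 : ∑ i ∈ univ.filter pr, ∑ j ∈ univ.filter (fun j => i ≠ j ∧ pr j), w i j ≤
      ∑ i, ∑ j ∈ univ.filter (fun j => i ≠ j), 4 * w i j * (θ i * θ j) := by
    calc ∑ i ∈ univ.filter pr, ∑ j ∈ univ.filter (fun j => i ≠ j ∧ pr j), w i j
        ≤ ∑ i ∈ univ.filter pr, ∑ j ∈ univ.filter (fun j => i ≠ j), 4 * w i j * (θ i * θ j) := by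
          apply sum_le_sum
          intro i hi
          obtain ⟨g1, g2⟩ := h1 i (mem_filter.1 hi).2
          calc ∑ j ∈ univ.filter (fun j => i ≠ j ∧ pr j), w i j
              ≤ ∑ j ∈ univ.filter (fun j => i ≠ j ∧ pr j), 4 * w i j * (θ i * θ j) := by
                apply sum_le_sum
                intro j hj
                obtain ⟨g3, g4⟩ := h1 j (mem_filter.1 hj).2.2
                have h5 : 1 / 4 ≤ θ i * θ j := by nlinarith
                have h6 := mul_le_mul_of_nonneg_left h5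
                  (show 0 ≤ 4 * w i j by have := hw i j; linarith)
                linarith
            _ ≤ _ := by
                apply sum_le_sum_of_subset_of_nonneg
                · intro j hj
                  rw [mem_filter] at hj ⊢
                  exact ⟨hj.1, hj.2.1⟩
                · intro j _ _
                  exact hnn i j
      _ ≤ _ := sum_le_sum_of_subset_of_nonneg (filter_subset _ _)
          (fun i _ _ => sum_nonneg fun j _ => hnn i j)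
  have e3 : PhiW (fun i j => 4 * w i j) θ = ∑ i, θ i -
      ∑ i, ∑ j ∈ univ.filter (fun j => i ≠ j), 4 * w i j * (θ i * θ j) := rfl
  rw [e3]
  linarith

/-- the functional is at most the number of primes -/
theorem PhiW_le_sum {K : ℕ} (w : Fin K → Fin K → ℝ) (hw : ∀ i j, 0 ≤ w i j) (θ : Fin K → ℝ)
    (h0 : ∀ i, 0 ≤ θ i) : PhiW w θ ≤ ∑ i, θ i := by
  unfold PhiW
  have h1 : 0 ≤ ∑ i, ∑ j ∈ univ.filter (fun j => i ≠ j), w i j * (θ i * θ j) :=
    Finset.sum_nonneg fun i _ => Finset.sum_nonneg fun j _ => mul_nonneg (hw i j) (mul_nonneg (h0 i) (h0 j))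
  linarith

/-- the Maynard-Tao theorem inside the record windows, with weights on the pairs of primes -/
theorem fewW_of (h5 : Pool.Agent.H378R2.SieveAsymp) (hbv : Pool.Agent.H378R2.BVrel) (hcov : CovR0)
    (hw : Weights) (B : ℕ) (hB : 1 ≤ B) :
    ∃ K : ℕ, K = 2 ^ B ∧ ∃ c : ℝ, 0 < c ∧ ∀ z : ℕ, ∃ X0 : ℝ, ∀ X : ℝ, X0 ≤ X →
    ∀ t : Fin K → ℕ, Function.Injective t →
    (∀ j, (t j).Prime ∧ yy X < t j ∧ (t j : ℝ) ≤ c * ff X) →
    ∀ (w : Fin K → Fin K → ℝ) (R : ℝ), (∀ i j, 0 ≤ w i j) →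
    (∀ i, ∑ j ∈ univ.filter (fun j => i ≠ j), w i j ≤ R) →
    64 * gam / kap * (B * R) ≤ 2 ^ B →
    ∀ bad : Finset ℕ, (bad.card : ℝ) ≤ X ^ (9 / 10 : ℝ) →
    ∃ n : ℕ, X < n ∧ (n : ℝ) ≤ 3 * X ∧ n ∉ bad ∧
      kap * B / (128 * gam) ≤
        ((univ.filter (fun i => (n + t i).Prime)).card : ℝ) -
        ∑ i ∈ univ.filter (fun i => (n + t i).Prime),
          ∑ j ∈ univ.filter (fun j => i ≠ j ∧ (n + t j).Prime), w i j ∧
      (∀ s : ℕ, (s : ℝ) ≤ c * ff X → (n + s).Prime → ∃ j, s = t j) ∧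
      ∀ p : ℕ, p.Prime → p ≤ z → p ∣ n := by
  classical
  have hg := gam_pos
  have hg1 := gam_ge
  have hη := etaQ_pos gam hg
  have hkap := kap_pos
  have hkap1 : kap ≤ 1 := by unfold kap; norm_num
  obtain ⟨K0, f, c, A, rho, s, hK0, hsm, hcs, hf0, hc, hA, hf1, hf00, hrho, hsr, hDD, hs0, hsle, hIpos, hIle, hJ,
    hsge⟩ := familyF B hB
  have hA1 : ∀ a ∈ A, ∑ j, c (a j) ≤ 1 := fun a ha => (hA a ha).trans (by norm_num)
  have hBr : (1 : ℝ) ≤ B := by exact_mod_cast hB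
  have hBr0 : (0 : ℝ) < B := by linarith
  have hKpos : (0 : ℝ) < ((K0 + 1 : ℕ) : ℝ) := by positivity
  have hK0r : ((K0 + 1 : ℕ) : ℝ) = 2 ^ B := by exact_mod_cast hK0
  obtain ⟨ε1, hε1⟩ : ∃ ε1 : ℝ, ε1 = min (min (s ^ (K0 + 1)) (s ^ K0 * (B : ℝ) ^ 2 / 3))
    (s ^ (K0 + 1) * (4 * gam * (B : ℝ) ^ 2 / s) ^ 2) := ⟨_, rfl⟩
  have hε1pos : 0 < ε1 := by
    rw [hε1]
    refine lt_min (lt_min ?_ ?_) ?_ <;> positivity
  have hε1a : ε1 ≤ s ^ (K0 + 1) := by rw [hε1]; exact (min_le_left _ _).trans (min_le_left _ _)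
  have hε1b : ε1 ≤ s ^ K0 * (B : ℝ) ^ 2 / 3 := by rw [hε1]; exact (min_le_left _ _).trans (min_le_right _ _)
  have hε1c : ε1 ≤ s ^ (K0 + 1) * (4 * gam * (B : ℝ) ^ 2 / s) ^ 2 := by rw [hε1]; exact min_le_right _ _
  obtain ⟨Aw, c₃, hc₃, hw1⟩ := hw (K0 + 1) (K0 + 5)
  obtain ⟨c₂, hc₂, hcov0⟩ := hcov (K0 + 1) (c₃ / 2) (by positivity)
  refine ⟨K0 + 1, hK0, c₂, hc₂, fun z => ?_⟩
  obtain ⟨X2, hcov1⟩ := hcov0 z
  obtain ⟨Z, hZdef⟩ : ∃ Z : ℕ, Z = max 2 z := ⟨_, rfl⟩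
  rw [← hZdef] at hcov1
  obtain ⟨X3, hbvX⟩ := hbv Aw (max Z 4)
  have hw2 := hw1 (max Z 4)
  obtain ⟨e0, he0⟩ : ∃ e0 : ℝ, e0 = etaQ gam * s ^ (K0 + 1) / 40 := ⟨_, rfl⟩
  have he0pos : 0 < e0 := by rw [he0]; positivity
  obtain ⟨C, hC⟩ : ∃ C : ℝ, C = 4 * ((K0 + 1 : ℕ) : ℝ) * ((K0 + 1 : ℕ) : ℝ) + 2 * ((K0 + 1 : ℕ) : ℝ) +
    kap * B / (128 * gam) := ⟨_, rfl⟩
  have hCpos : 0 < C := by rw [hC]; positivity
  rw [← Filter.eventually_atTop]
  filter_upwards [S1_boundV h5 f c A hsm hcs hf0 hc hA1 hf1 ε1 hε1pos,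
    S2_boundV h5 f c A hsm hcs hf0 hc hA1 hf1 ε1 hε1pos,
    pair_boundV h5 f c rho s A hsm hcs hf0 hc hA hf1 hf00 hrho hsr hs0 hDD ε1 hε1pos,
    LPhi_ge, errRG (K0 + 1) A.card e0 (Nat.cast_nonneg _) he0pos,
    LL_tendsto.eventually_ge_atTop 1, eventually_ge_atTop 40, eventually_ge_atTop X2, eventually_ge_atTop X3,
    Et2_sub (K := K0 + 1), BE_Et2_ge (K0 + 1), ev_ff c₂ hc₂, hw2,
    ev_mainQ K0 (3 * C * (A.card : ℝ) ^ 2 / e0) (((K0 + 1 : ℕ) : ℝ) / etaQ gam),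
    Real.tendsto_log_atTop.eventually_ge_atTop (2 / c₃)]
    with X hS1 hS2 hPS hLP herr hL1 hX40 hX2 hX3 hEtsub hBEt hff hwX hmain hlc
  intro t htinj htup w R hw hRow hFc bad hbad
  obtain ⟨ps, S, hps, hS, hbvS⟩ := hbvX X hX3
  have hpsZ : GoodP Z ps := by
    rcases hps with h | h
    · exact Or.inl h
    · exact Or.inr ⟨h.1, lt_of_le_of_lt (le_max_left _ _) h.2⟩
  obtain ⟨a0, hcop, hcard, ha0z⟩ := hcov1 X hX2 ps S hpsZ hS t htup
  have htT : ∀ j, (t j : ℝ) ≤ c₂ * ff X := fun j => (htup j).2.2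
  have htl : ∀ j, (t j : ℝ) ≤ (Real.log X) ^ 2 := fun j => (htT j).trans hff.1
  have hWpos : 0 < WW X S ps := WW_pos X S ps
  have hWr : (0 : ℝ) < (WW X S ps : ℝ) := by exact_mod_cast hWpos
  have hXpos : 0 < X := by linarith
  have hlX : 1 ≤ Real.log X := hmain.2.2
  have hffnn : 0 ≤ c₂ * ff X := mul_nonneg hc₂.le hff.2.1
  have htX : ∀ j, (t j : ℝ) ≤ X := by
    intro j
    have := htT j
    have := hff.2.2
    linarith
  -- the fibres
  have hD1 : 1 ≤ 64 * gam / kap := by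
    rw [le_div_iff₀ hkap]
    linarith
  have hR0 : 0 ≤ R := by
    have i0 : Fin (K0 + 1) := ⟨0, Nat.succ_pos K0⟩
    exact (Finset.sum_nonneg fun j _ => hw i0 j).trans (hRow i0)
  have hRK : R ≤ ((K0 + 1 : ℕ) : ℝ) := by
    rw [hK0r]
    refine le_trans ?_ hFc
    have h1 : R ≤ B * R := by
      calc R = 1 * R := (one_mul _).symm
        _ ≤ _ := mul_le_mul_of_nonneg_right hBr hR0
    calc R ≤ B * R := h1
      _ = 1 * (B * R) := (one_mul _).symm
      _ ≤ _ := mul_le_mul_of_nonneg_right hD1 (by positivity)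
  have hsge2 : 4 * 2 ^ B * B * gam ≤ s := by
    refine le_trans ?_ hsge
    have h1 : (2 : ℝ) ^ B ≤ 2 * K0 := by
      have h2 : (2 : ℝ) ≤ 2 ^ B := by
        calc (2 : ℝ) = 2 ^ 1 := (pow_one _).symm
          _ ≤ 2 ^ B := pow_le_pow_right₀ (by norm_num) hB
      rw [← hK0r] at h2 ⊢
      push_cast at h2 ⊢
      linarith
    calc 4 * 2 ^ B * B * gam ≤ 4 * (2 * K0) * B * gam := by gcongr
      _ = _ := by ring
  have hFs : 4 * R * (B : ℝ) ^ 2 / s ≤ kap / (64 * gam ^ 2) := by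
    rw [div_le_div_iff₀ hs0 (by positivity)]
    have h1 : 64 * gam * (B * R) ≤ kap * 2 ^ B := by
      have h2 := hFc
      rw [div_mul_eq_mul_div, div_le_iff₀ hkap] at h2
      linarith
    calc 4 * R * (B : ℝ) ^ 2 * (64 * gam ^ 2) = (64 * gam * (B * R)) * (4 * B * gam) := by ring
      _ ≤ (kap * 2 ^ B) * (4 * B * gam) := mul_le_mul_of_nonneg_right h1 (by positivity)
      _ = kap * (4 * 2 ^ B * B * gam) := by ring
      _ ≤ kap * s := mul_le_mul_of_nonneg_left hsge2 hkap.le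
  have hKx : (B : ℝ) / (16 * gam) ≤ ((K0 + 1 : ℕ) : ℝ) * (B : ℝ) ^ 2 / s := by
    rw [hK0r, div_le_div_iff₀ (by positivity) hs0]
    calc (B : ℝ) * s ≤ B * (16 * 2 ^ B * B * gam) := mul_le_mul_of_nonneg_left hsle hBr0.le
      _ = 2 ^ B * (B : ℝ) ^ 2 * (16 * gam) := by ring
  have hCc : ((K0 + 1 : ℕ) : ℝ) * (4 * R) + 2 * ((K0 + 1 : ℕ) : ℝ) + kap * B / (128 * gam) ≤ C := by
    rw [hC]
    have h1 : ((K0 + 1 : ℕ) : ℝ) * (4 * R) ≤ 4 * ((K0 + 1 : ℕ) : ℝ) * ((K0 + 1 : ℕ) : ℝ) := by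
      have := mul_le_mul_of_nonneg_left hRK (show 0 ≤ 4 * ((K0 + 1 : ℕ) : ℝ) by positivity)
      linarith
    linarith
  have hw4 : ∀ i j, 0 ≤ (fun i j => 4 * w i j) i j := by
    intro i j
    have := hw i j
    show 0 ≤ 4 * w i j
    linarith
  have hRow4 : ∀ i, ∑ j ∈ univ.filter (fun j => i ≠ j), (fun i j => 4 * w i j) i j ≤ 4 * R := by
    intro i
    have h1 := hRow i
    show ∑ j ∈ univ.filter (fun j => i ≠ j), 4 * w i j ≤ 4 * R
    rw [← Finset.mul_sum]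
    linarith
  -- the survivors
  set U0 := (range (⌊c₂ * ff X⌋₊ + 1)).filter (fun s => (∀ j, s ≠ t j) ∧ (a0 + s).Coprime (WW X S ps)) with hU0
  set U := insert 0 U0 with hU
  have hUcard : (U.card : ℝ) ≤ c₃ * Real.log X := by
    have h1 : (U.card : ℝ) ≤ U0.card + 1 := by
      rw [hU]
      exact_mod_cast Finset.card_insert_le 0 U0
    have h2 : 2 / c₃ * c₃ ≤ Real.log X * c₃ := mul_le_mul_of_nonneg_right hlc hc₃.le
    have h3 : 2 / c₃ * c₃ = 2 := by field_simp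
    rw [h3] at h2
    have h4 : c₃ / 2 * Real.log X = Real.log X * c₃ / 2 := by ring
    rw [h4] at hcard
    linarith
  have hUk : ∀ k ∈ U, (k : ℝ) ≤ (Real.log X) ^ 2 := by
    intro k hk
    rw [hU, Finset.mem_insert] at hk
    rcases hk with rfl | hk
    · push_cast; positivity
    · rw [hU0, Finset.mem_filter, Finset.mem_range] at hk
      have h1 : (k : ℝ) ≤ c₂ * ff X := (Nat.le_floor_iff hffnn).1 (by omega)
      exact h1.trans hff.1
  have hUt : ∀ j, t j ∉ U := by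
    intro j hj
    rw [hU, Finset.mem_insert] at hj
    rcases hj with hj | hj
    · exact (htup j).1.ne_zero hj
    · rw [hU0, Finset.mem_filter] at hj
      exact hj.2.1 j rfl
  have hUne : U.Nonempty := ⟨0, by rw [hU]; exact Finset.mem_insert_self _ _⟩
  obtain ⟨V, T, Z₁, M, M', M₂, e₁, e₂, e₃, hV, hTnn, hTU, hZ1, hM1, hMZ, hM', hM₂0, hM₂le, he, hcA, hcA2, hcB,
    ht1, ht2, ht3⟩ := hwX ps S hps hS hbvS t U htl hUk hUt hUne hUcard
  set E := Et X S ps t with hE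
  have hEE : EE X S ps ⊆ E := EE_sub_Et X S ps t
  have hEsup : E ⊆ Esup X ps := hEtsub ps S t htl
  have hres := Et_res (X := X) (S := S) (ps := ps) htinj
  have hMM : MPhi X / 400 ≤ LPhi X := by
    have := MPhi_le X (by linarith)
    linarith
  have hM0 : 0 ≤ M := by linarith
  have hM'0 : 0 ≤ M' := by linarith
  have hM₂s : ((K0 + 1 : ℕ) : ℝ) * M₂ ≤ etaQ gam * Z₁ := by
    have h1 : ((K0 + 1 : ℕ) : ℝ) * M₂ ≤ ((K0 + 1 : ℕ) : ℝ) * (Z₁ / (Real.log X) ^ (K0 + 5)) :=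
      mul_le_mul_of_nonneg_left hM₂le hKpos.le
    refine h1.trans ?_
    have hlp : 0 < (Real.log X) ^ (K0 + 5) := by positivity
    rw [mul_div_assoc', div_le_iff₀ hlp]
    have h2 := hmain.2.1
    rw [div_le_iff₀ hη] at h2
    have h3 := mul_le_mul_of_nonneg_right h2 (show (0 : ℝ) ≤ Z₁ by linarith)
    linarith
  have htotnn : ∀ e : ℕ → ℝ, (∀ q, 0 ≤ e q) → 0 ≤ tot (K0 + 1) X (WW X S ps) ps e := by
    intro e he'
    unfold tot
    exact Finset.sum_nonneg fun q _ => mul_nonneg (by positivity) (he' q)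
  have herr1 := herr _ hWr (WW_le X (by linarith) S ps)
  have hpos := pos_W K0 B f c A s hf0 hA1 hf1 hIpos hIle hs0 hB hJ ε1 X hε1pos hε1a hε1b hε1c
    (fun i j => 4 * w i j) hw4 (4 * R) (by linarith) hRow4 hFs hKx C hCc ps a0 S t hX40 hL1 hMM
    E hEsup (hBEt (max Z 4) ps S t (le_max_right _ _) hps hS htl) V T Z₁ M M' M₂ _ _ _ hV hZ1 hM1 hMZ hM' hM₂0
    hM₂s (htotnn e₁ fun q => (he q).1) (htotnn e₂ fun q => (he q).2.1) (htotnn e₃ fun q => (he q).2.2)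
    (hS1 (max Z 4) ps S a0 t hps hS E hEE hEsup hres V M e₁ hM0 (fun q => (he q).1) hcA)
    (fun i => hS2 (max Z 4) ps S a0 t hps hS E hEE hEsup hres htl hcop V M' (X ^ (1 / 100 : ℝ)) e₃ hM'0
      (by positivity) (fun a => by rw [abs_of_nonneg (hV a).1]; exact (hV a).2) (fun q => (he q).2.2) i (hcB i))
    (fun i j hij => hPS i j hij (max Z 4) ps S a0 t hps hS E hEE hEsup hres htX V M e₁ (fun a => (hV a).1) hM0
      (fun q => (he q).1) hcA)
    (hS1 (max Z 4) ps S a0 t hps hS E hEE hEsup hres (fun a => V a * T a) M₂ e₂ hM₂0 (fun q => (he q).2.1) hcA2)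
    (by
      rw [← he0]
      exact tot_errQ K0 C _ e0 X (WW X S ps) Z₁ _ _ _ hCpos.le (sq_nonneg _) he0pos hXpos hWr hZ1 hlX hmain.1
        ht1 ht2 ht3)
    (by
      rw [← he0]
      exact herr1) bad hbad
  obtain ⟨n, hn, hnpos⟩ : ∃ n ∈ Icc 1 ⌊3 * X⌋₊, 0 < (nu X (WW X S ps) a0 n *
      sqw E X f A (fun j => (n : ℤ) + t j) ^ 2 * V n) *
      (PhiW (fun i j => 4 * w i j) (fun i => thn X (n + t i)) - kap * B / (128 * gam) - ((K0 + 1 : ℕ) : ℝ) * T n -
      ((K0 + 1 : ℕ) : ℝ) * (if n ∈ bad then 1 else 0)) := by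
    by_contra hcon
    push Not at hcon
    exact absurd hpos (not_lt.2 (Finset.sum_nonpos hcon))
  have hWnn : 0 ≤ nu X (WW X S ps) a0 n * sqw E X f A (fun j => (n : ℤ) + t j) ^ 2 * V n :=
    mul_nonneg (mul_nonneg (nu_nonneg _ _ _ _) (sq_nonneg _)) (hV n).1
  have hWpos' : 0 < nu X (WW X S ps) a0 n * sqw E X f A (fun j => (n : ℤ) + t j) ^ 2 * V n := by
    rcases hWnn.eq_or_lt with h | h
    · rw [← h, zero_mul] at hnpos; exact absurd hnpos (lt_irrefl _)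
    · exact h
  have hBrpos := (mul_pos_iff_of_pos_left hWpos').1 hnpos
  have hnu : nu X (WW X S ps) a0 n ≠ 0 := by
    intro h
    rw [h, zero_mul, zero_mul] at hWpos'
    exact lt_irrefl _ hWpos'
  have hXn : X < n := by
    by_contra hle
    push Not at hle
    apply hnu
    unfold nu
    rw [Phi_eq_zero_of_le (by positivity) (by rw [div_le_one hXpos]; exact hle), ite_self]
  have hcl : n ≡ a0 [MOD WW X S ps] := by
    by_contra h
    apply hnu
    unfold nu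
    rw [if_neg h]
  have hn3 : (n : ℝ) ≤ 3 * X := by
    rw [Finset.mem_Icc] at hn
    exact (Nat.cast_le.2 hn.2).trans (Nat.floor_le (by linarith))
  have hyX : (yy X : ℝ) < X := by
    have h1 : (yy X : ℝ) ≤ Real.log X / 1000 := Nat.floor_le (by positivity)
    have h2 := Real.log_le_sub_one_of_pos hXpos
    linarith
  have hTn := hTnn n
  have hKT : 0 ≤ ((K0 + 1 : ℕ) : ℝ) * T n := by positivity
  have hKb : (0 : ℝ) ≤ ((K0 + 1 : ℕ) : ℝ) * (if n ∈ bad then 1 else 0) := by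
    split_ifs
    · rw [mul_one]; exact hKpos.le
    · rw [mul_zero]
  have hem : 0 < kap * B / (128 * gam) := by positivity
  have h0 : ∀ i, 0 ≤ thn X (n + t i) := fun i => thn_nonneg X (by linarith) _
  have h4X : ∀ i, ((n + t i : ℕ) : ℝ) ≤ 4 * X := by
    intro i
    push_cast
    have := htX i
    linarith
  have hQsum := PhiW_le_sum (fun i j => 4 * w i j) hw4 (fun i => thn X (n + t i)) h0
  have hfin := finishRG K0 0 (c₂ * ff X) X ps a0 S t htT hX40 (by linarith [hff.2.2]) hyX U (by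
    intro s hs hst hsc
    rw [hU, Finset.mem_insert]
    right
    rw [hU0, Finset.mem_filter, Finset.mem_range, Nat.lt_succ_iff]
    exact ⟨Nat.le_floor hs, hst, hsc⟩) T hTnn hTU bad n hXn hn3 hcl (by
    have h1 : (∑ i, th (n + t i)) / Real.log (4 * X) = ∑ i, thn X (n + t i) := by
      rw [Finset.sum_div]
      rfl
    rw [h1]
    push_cast at hBrpos ⊢
    linarith)
  refine ⟨n, hXn, hn3, hfin.1, ?_, hfin.2.2, ?_⟩
  · have h1 := PhiW_le w hw (fun i => thn X (n + t i)) (fun i => (n + t i).Prime)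
      (fun i hi => thn_eq_zero X _ hi) (fun i hi => ⟨?_, thn_le_one X (by linarith) _ (h4X i)⟩)
    · linarith
    · have hi' : (n + t i).Prime := hi
      unfold thn th
      rw [if_pos hi']
      have hl4X : Real.log (4 * X) = Real.log 4 + Real.log X := Real.log_mul (by norm_num) hXpos.ne'
      have hlog4 : Real.log 4 ≤ Real.log X := Real.log_le_log (by norm_num) (by linarith)
      have hlog40 : 0 < Real.log 4 := Real.log_pos (by norm_num)
      have h2 : Real.log X ≤ Real.log ((n + t i : ℕ) : ℝ) := by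
        apply Real.log_le_log hXpos
        push_cast
        have : (0 : ℝ) ≤ t i := Nat.cast_nonneg _
        linarith
      rw [le_div_iff₀ (by linarith)]
      linarith
  · intro p hpp hpz
    obtain ⟨h1, h2⟩ := ha0z p hpp hpz
    exact (Nat.modEq_zero_iff_dvd).1 ((hcl.of_dvd h2).trans ((Nat.modEq_zero_iff_dvd).2 h1))

/-- the Maynard-Tao theorem inside the record windows, with weights on the pairs of primes -/
theorem fewW (B : ℕ) (hB : 1 ≤ B) :
    ∃ K : ℕ, K = 2 ^ B ∧ ∃ c : ℝ, 0 < c ∧ ∀ z : ℕ, ∃ X0 : ℝ, ∀ X : ℝ, X0 ≤ X →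
    ∀ t : Fin K → ℕ, Function.Injective t →
    (∀ j, (t j).Prime ∧ yy X < t j ∧ (t j : ℝ) ≤ c * ff X) →
    ∀ (w : Fin K → Fin K → ℝ) (R : ℝ), (∀ i j, 0 ≤ w i j) →
    (∀ i, ∑ j ∈ univ.filter (fun j => i ≠ j), w i j ≤ R) →
    64 * gam / kap * (B * R) ≤ 2 ^ B →
    ∀ bad : Finset ℕ, (bad.card : ℝ) ≤ X ^ (9 / 10 : ℝ) →
    ∃ n : ℕ, X < n ∧ (n : ℝ) ≤ 3 * X ∧ n ∉ bad ∧
      kap * B / (128 * gam) ≤
        ((univ.filter (fun i => (n + t i).Prime)).card : ℝ) -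
        ∑ i ∈ univ.filter (fun i => (n + t i).Prime),
          ∑ j ∈ univ.filter (fun j => i ≠ j ∧ (n + t j).Prime), w i j ∧
      (∀ s : ℕ, (s : ℝ) ≤ c * ff X → (n + s).Prime → ∃ j, s = t j) ∧
      ∀ p : ℕ, p.Prime → p ≤ z → p ∣ n :=
  fewW_of Pool.Agent.H378R2.sieveAsymp_holds Pool.Agent.H378R2.bvrel_holds covR0
    Pool.Agent.H312R2.RG.weights B hB

end Pool.Agent.Helper274_RO
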